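import Pool.Agent.Lib.MP_d98eb9_al.K.St

/-! Theorem K, block A, part 1: the wreath cocycle and the tower lemma. -/

namespace Pool.Agent.PD3K

universe u

section Prod
variable {J : Type u} {P Γ : Type*} [Group P] [Group Γ]

lemma list_mul (lev : J → P →* Γ) (f g : J → P) : ∀ l : List J, l.Nodup →
    (∀ c ∈ l, ∀ c' ∈ l, c ≠ c' → ∀ a b, Commute (lev c a) (lev c' b)) →
    (l.map fun c => lev c ((f * g) c)).prod =
      (l.map fun c => lev c (f c)).prod * (l.map fun c => lev c (g c)).prod
  | [], _, _ => by simp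
  | c :: l, hn, hc => by
    have hn' := List.nodup_cons.1 hn
    have ih := list_mul lev f g l hn'.2
      (fun a ha b hb => hc a (List.mem_cons_of_mem _ ha) b (List.mem_cons_of_mem _ hb))
    have hcm : Commute (lev c (g c)) (l.map fun c => lev c (f c)).prod := by
      apply Commute.list_prod_right
      intro x hx
      obtain ⟨c', hc', rfl⟩ := List.mem_map.1 hx
      exact hc c List.mem_cons_self c' (List.mem_cons_of_mem _ hc')
        (fun h => hn'.1 (h ▸ hc')) _ _
    rw [List.map_cons, List.prod_cons, ih]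
    simp only [List.map_cons, List.prod_cons, Pi.mul_apply, map_mul]
    rw [mul_assoc, ← mul_assoc (lev c (g c)), hcm.eq]
    simp only [mul_assoc]

lemma list_single [DecidableEq J] (lev : J → P →* Γ) (c : J) (a : P) : ∀ l : List J, l.Nodup →
    (l.map fun c' => lev c' ((Pi.mulSingle c a : J → P) c')).prod = if c ∈ l then lev c a else 1
  | [], _ => by simp
  | c' :: l, hn => by
    have hn' := List.nodup_cons.1 hn
    have ih := list_single lev c a l hn'.2
    rw [List.map_cons, List.prod_cons, ih]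
    by_cases h : c = c'
    · subst h
      simp [hn'.1]
    · simp [h]

/-- `levProd` as a homomorphism -/
noncomputable def Phi (Λ : Finset J) (lev : J → P →* Γ)
    (hc : ∀ c ∈ Λ, ∀ c' ∈ Λ, c ≠ c' → ∀ a b, Commute (lev c a) (lev c' b)) : (J → P) →* Γ :=
  MonoidHom.mk' (levProd Λ lev) fun f g =>
    list_mul lev f g Λ.toList Λ.nodup_toList
      (fun c h c' h' => hc c (Finset.mem_toList.1 h) c' (Finset.mem_toList.1 h'))

lemma levProd_single [DecidableEq J] (Λ : Finset J) (lev : J → P →* Γ) {c : J} (h : c ∈ Λ)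
    (a : P) : levProd Λ lev (Pi.mulSingle c a) = lev c a := by
  rw [levProd, list_single lev c a _ Λ.nodup_toList, if_pos (Finset.mem_toList.2 h)]

lemma levProd_mem (Λ : Finset J) (lev : J → P →* Γ) (f : J → P) (H : Subgroup Γ)
    (h : ∀ c ∈ Λ, lev c (f c) ∈ H) : levProd Λ lev f ∈ H := by
  apply Subgroup.list_prod_mem
  intro x hx
  obtain ⟨c, hc, rfl⟩ := List.mem_map.1 hx
  exact h c (Finset.mem_toList.1 hc)

lemma levProd_congr (Λ : Finset J) (lev : J → P →* Γ) (f g : J → P)
    (h : ∀ c ∈ Λ, lev c (f c) = lev c (g c)) : levProd Λ lev f = levProd Λ lev g := by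
  unfold levProd
  congr 1
  exact List.map_congr_left fun c hc => h c (Finset.mem_toList.1 hc)

lemma levProd_shift [Group J] (Λ : Finset J) (lev : J → P →* Γ)
    (hc : ∀ c ∈ Λ, ∀ c' ∈ Λ, c ≠ c' → ∀ a b, Commute (lev c a) (lev c' b)) (t : Γ) (g : J)
    (ht : ∀ c a, t * lev c a * t⁻¹ = lev (g * c) a) (S : Finset J) :
    ∀ f : J → P, (∀ c, c ∉ S → f c = 1) → (∀ c ∈ S, c ∈ Λ ∧ g * c ∈ Λ) →
      t * levProd Λ lev f * t⁻¹ = levProd Λ lev fun c => f (g⁻¹ * c) := by
  classical
  induction S using Finset.induction_on with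
  | empty =>
    intro f hf _
    have : f = 1 := funext fun c => hf c (by simp)
    subst this
    have h1 : levProd Λ lev (1 : J → P) = 1 := map_one (Phi Λ lev hc)
    have h2 : (fun c => (1 : J → P) (g⁻¹ * c)) = 1 := rfl
    rw [h2, h1]; simp
  | insert c S hcS ih =>
    intro f hf hS
    have hcΛ := hS c (Finset.mem_insert_self _ _)
    have e1 : f = Function.update f c 1 * Pi.mulSingle c (f c) := by
      funext x
      by_cases hx : x = c
      · subst hx; simp
      · simp [hx]
    have e2 : (fun x => f (g⁻¹ * x)) =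
        (fun x => Function.update f c 1 (g⁻¹ * x)) * Pi.mulSingle (g * c) (f c) := by
      funext x
      by_cases hx : x = g * c
      · subst hx; simp
      · have : g⁻¹ * x ≠ c := fun e => hx (by rw [← e]; simp)
        simp [hx, this]
    have ih' := ih (Function.update f c 1) (by
      intro x hx
      by_cases hxc : x = c
      · subst hxc; simp
      · rw [Function.update_of_ne hxc]
        exact hf x (by simp [hx, hxc])) (fun x hx => hS x (Finset.mem_insert_of_mem hx))
    have m1 := map_mul (Phi Λ lev hc) (Function.update f c 1) (Pi.mulSingle c (f c))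
    have m2 := map_mul (Phi Λ lev hc) (fun x => Function.update f c 1 (g⁻¹ * x))
      (Pi.mulSingle (g * c) (f c))
    change levProd Λ lev _ = levProd Λ lev _ * levProd Λ lev _ at m1 m2
    rw [← e1, levProd_single Λ lev hcΛ.1] at m1
    rw [← e2, levProd_single Λ lev hcΛ.2] at m2
    rw [m1, m2, ← ih', ← ht]
    group

end Prod

section Wr
variable {X : Type} {J : Type u} [Group J] {P : Type} [Group P]

/-- the homomorphism to the wreath product defined by level data on the letters -/
def wr (π : FreeGroup X →* J) (κ : X → J → P) : FreeGroup X →* RegularWreathProduct P J :=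
  FreeGroup.lift fun x => ⟨κ x, π (FreeGroup.of x)⟩

lemma wr_right (π : FreeGroup X →* J) (κ : X → J → P) (w : FreeGroup X) :
    (wr π κ w).right = π w := by
  have : (RegularWreathProduct.rightHom).comp (wr π κ) = π := by
    ext x; simp [wr]
  exact DFunLike.congr_fun this w

/-- the level components of a word -/
def kap (π : FreeGroup X →* J) (κ : X → J → P) (w : FreeGroup X) : J → P := (wr π κ w).left

lemma kap_of (π : FreeGroup X →* J) (κ : X → J → P) (x : X) :
    kap π κ (FreeGroup.of x) = κ x := by simp [kap, wr]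

lemma kap_one (π : FreeGroup X →* J) (κ : X → J → P) : kap π κ 1 = 1 := by
  simp [kap]

lemma kap_mul (π : FreeGroup X →* J) (κ : X → J → P) (u v : FreeGroup X) (c : J) :
    kap π κ (u * v) c = kap π κ u c * kap π κ v ((π u)⁻¹ * c) := by
  simp [kap, wr_right]

lemma kap_inv (π : FreeGroup X →* J) (κ : X → J → P) (u : FreeGroup X) (c : J) :
    kap π κ u⁻¹ c = (kap π κ u (π u * c))⁻¹ := by
  have h := kap_mul π κ u⁻¹ u c
  rw [inv_mul_cancel, kap_one] at h
  simp only [Pi.one_apply, map_inv, inv_inv] at h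
  exact eq_inv_of_mul_eq_one_left h.symm

lemma kap_conj (π : FreeGroup X →* J) (κ : X → J → P) (w n : FreeGroup X) (hn : π n = 1) (c : J) :
    kap π κ (w * n * w⁻¹) c = kap π κ w c * kap π κ n ((π w)⁻¹ * c) * (kap π κ w c)⁻¹ := by
  rw [kap_mul, kap_mul, kap_inv]
  simp [hn]

/-- every word has finite level support -/
lemma kap_supp (π : FreeGroup X →* J) (κ : X → J → P)
    (hκ : ∀ x, ∃ S : Finset J, ∀ c, c ∉ S → κ x c = 1) (w : FreeGroup X) :
    ∃ S : Finset J, ∀ c, c ∉ S → kap π κ w c = 1 := by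
  classical
  induction w using FreeGroup.induction_on with
  | C1 => exact ⟨∅, fun c _ => by rw [kap_one]; rfl⟩
  | of x => simpa only [kap_of] using hκ x
  | inv_of x ih =>
    obtain ⟨S, hS⟩ := ih
    refine ⟨S.image fun c => (π (FreeGroup.of x))⁻¹ * c, fun c hc => ?_⟩
    rw [kap_inv, hS, inv_one]
    intro h
    exact hc (Finset.mem_image.2 ⟨_, h, by simp⟩)
  | mul u v hu hv =>
    obtain ⟨S, hS⟩ := hu
    obtain ⟨S', hS'⟩ := hv
    refine ⟨S ∪ S'.image fun c => π u * c, fun c hc => ?_⟩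
    rw [kap_mul, hS c (fun h => hc (Finset.mem_union_left _ h)), hS', one_mul]
    intro h
    exact hc (Finset.mem_union_right _ (Finset.mem_image.2 ⟨_, h, by simp⟩))

/-- the tower lemma -/
lemma tower (π : FreeGroup X →* J) (κ : X → J → P)
    (hκ : ∀ x, ∃ S : Finset J, ∀ c, c ∉ S → κ x c = 1) (w : FreeGroup X) :
    ∃ S : Finset J, ∀ Λ : Finset J, S ⊆ Λ → ∀ (Γ : Type*) [Group Γ] (τ : FreeGroup X →* Γ)
      (lev : J → P →* Γ), Levels π Λ τ lev →
      rho κ Λ τ lev w = levProd Λ lev (kap π κ w) * τ w := by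
  classical
  induction w using FreeGroup.induction_on with
  | C1 =>
    refine ⟨∅, fun Λ _ Γ _ τ lev h => ?_⟩
    have h1 : levProd Λ lev (1 : J → P) = 1 := map_one (Phi Λ lev h.2)
    rw [kap_one, h1]; simp
  | of x =>
    refine ⟨∅, fun Λ _ Γ _ τ lev h => ?_⟩
    rw [kap_of, rho, FreeGroup.lift_apply_of]
  | inv_of x ih =>
    obtain ⟨S, hS⟩ := ih
    obtain ⟨T, hT⟩ := kap_supp π κ hκ (FreeGroup.of x)
    set u := FreeGroup.of x
    refine ⟨S ∪ T ∪ T.image fun c => π u⁻¹ * c, fun Λ hΛ Γ _ τ lev h => ?_⟩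
    have h1 := hS Λ (fun c hc => hΛ (by simp [hc])) Γ τ lev h
    have h2 := levProd_shift Λ lev h.2 (τ u⁻¹) (π u⁻¹) (h.1 u⁻¹) T (kap π κ u)⁻¹
      (fun c hc => by simp [hT c hc])
      (fun c hc => ⟨hΛ (by simp [hc]), hΛ (Finset.mem_union_right _
        (Finset.mem_image.2 ⟨c, hc, rfl⟩))⟩)
    have h3 : levProd Λ lev (kap π κ u)⁻¹ = (levProd Λ lev (kap π κ u))⁻¹ :=
      map_inv (Phi Λ lev h.2) _
    have h4 : kap π κ u⁻¹ = fun c => (kap π κ u)⁻¹ ((π u⁻¹)⁻¹ * c) := by
      funext c; rw [kap_inv]; simp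
    rw [map_inv, h1, h4, ← h2, h3, map_inv]
    group
  | mul u v hu hv =>
    obtain ⟨S, hS⟩ := hu
    obtain ⟨S', hS'⟩ := hv
    obtain ⟨T, hT⟩ := kap_supp π κ hκ v
    refine ⟨S ∪ S' ∪ T ∪ T.image fun c => π u * c, fun Λ hΛ Γ _ τ lev h => ?_⟩
    have h1 := hS Λ (fun c hc => hΛ (by simp [hc])) Γ τ lev h
    have h1' := hS' Λ (fun c hc => hΛ (by simp [hc])) Γ τ lev h
    have h2 := levProd_shift Λ lev h.2 (τ u) (π u) (h.1 u) T (kap π κ v) hT
      (fun c hc => ⟨hΛ (by simp [hc]), hΛ (Finset.mem_union_right _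
        (Finset.mem_image.2 ⟨c, hc, rfl⟩))⟩)
    have h4 : kap π κ (u * v) = kap π κ u * fun c => kap π κ v ((π u)⁻¹ * c) := by
      funext c; rw [kap_mul]; rfl
    have h3 := map_mul (Phi Λ lev h.2) (kap π κ u) fun c => kap π κ v ((π u)⁻¹ * c)
    change levProd Λ lev _ = levProd Λ lev _ * levProd Λ lev _ at h3
    rw [map_mul, h1, h1', h4, h3, ← h2, map_mul]
    group

end Wr

end Pool.Agent.PD3K
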