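import Pool.Agent.Lib.MP_d98eb9_al.K.St

/-! Theorem K, block A, part 2: the Goursat step. -/

namespace Pool.Agent.PD3K

universe u

open scoped commutatorElement

lemma TF.pow_inj {J : Type u} [Group J] (h : TF J) {e : J} (he : e ≠ 1) :
    Function.Injective fun k : ℤ => e ^ k := by
  have : ¬ IsOfFinOrder e := by
    intro hf
    obtain ⟨n, hn, h1⟩ := isOfFinOrder_iff_pow_eq_one.1 hf
    exact he (h e n hn.ne' h1)
  exact injective_zpow_iff_not_isOfFinOrder.2 this

section
variable {J : Type u} [Group J] {P : Type} [Group P]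

/-- values at level `1` of the elements of `M` that vanish on `Z` -/
def NZ (M : Subgroup (J → P)) (Z : Set J) : Subgroup P where
  carrier := {a | ∃ m ∈ M, (∀ z ∈ Z, m z = 1) ∧ m 1 = a}
  one_mem' := ⟨1, M.one_mem, fun _ _ => rfl, rfl⟩
  mul_mem' := by
    rintro _ _ ⟨m, hm, h1, rfl⟩ ⟨m', hm', h1', rfl⟩
    exact ⟨m * m', M.mul_mem hm hm', fun z hz => by simp [h1 z hz, h1' z hz], rfl⟩
  inv_mem' := by
    rintro _ ⟨m, hm, h1, rfl⟩
    exact ⟨m⁻¹, M.inv_mem hm, fun z hz => by simp [h1 z hz], rfl⟩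

lemma NZ_normal (M : Subgroup (J → P)) (hon : ∀ a, ∃ m ∈ M, m 1 = a) (Z : Set J) :
    (NZ M Z).Normal := by
  constructor
  rintro _ ⟨m, hm, h1, rfl⟩ b
  obtain ⟨m0, hm0, rfl⟩ := hon b
  exact ⟨m0 * m * m0⁻¹, M.mul_mem (M.mul_mem hm0 hm) (M.inv_mem hm0),
    fun z hz => by simp [h1 z hz], rfl⟩

theorem goursat [DecidableEq J] [IsSimpleGroup P] (htf : TF J) (hnc : ∃ a b : P, a * b ≠ b * a)
    (M : Subgroup (J → P)) (hfin : ∀ m ∈ M, ∃ S : Finset J, ∀ c, c ∉ S → m c = 1)
    (heq : ∀ g : J, ∃ u : J → P, ∀ m ∈ M, (fun c => u c * m (g⁻¹ * c) * (u c)⁻¹) ∈ M)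
    (hon : ∀ a, ∃ m ∈ M, m 1 = a) (c : J) (a : P) : Pi.mulSingle c a ∈ M := by
  obtain ⟨a0, b0, hab⟩ := hnc
  have hcom : ⁅a0, b0⁆ ≠ 1 := fun h => hab (commutatorElement_eq_one_iff_mul_comm.1 h)
  have ha0 : a0 ≠ 1 := by rintro rfl; simp at hab
  have h1 : ∀ e : J, e ≠ 1 → NZ M {e} = ⊤ := by
    intro e he
    rcases (NZ_normal M hon {e}).eq_bot_or_eq_top with h | h
    · exfalso
      have k1 : ∀ m ∈ M, m e = 1 → m 1 = 1 := by
        intro m hm hme
        have : m 1 ∈ NZ M {e} := ⟨m, hm, by simpa using hme, rfl⟩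
        rwa [h, Subgroup.mem_bot] at this
      have k2 : ∀ m ∈ M, ∀ x, m (x * e) = 1 → m x = 1 := by
        intro m hm x hx
        obtain ⟨u, hu⟩ := heq x⁻¹
        have := k1 _ (hu m hm) (by simp [hx])
        simpa using this
      obtain ⟨m, hm, hm1⟩ := hon a0
      have k3 : ∀ k : ℕ, m (e ^ k) ≠ 1 := by
        intro k
        induction k with
        | zero => simpa [hm1] using ha0
        | succ k ih => exact fun hk => ih (k2 m hm _ (by rwa [← pow_succ]))
      obtain ⟨S, hS⟩ := hfin m hm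
      have hinj : Function.Injective fun k : ℕ => e ^ k := by
        intro i j hij
        have := htf.pow_inj he (a₁ := (i : ℤ)) (a₂ := (j : ℤ)) (by simpa using hij)
        exact_mod_cast this
      exact Set.infinite_of_injective_forall_mem (s := (S : Set J)) hinj
        (fun k => by by_contra hk; exact k3 k (hS _ hk)) S.finite_toSet
    · exact h
  have hperf : ⁅(⊤ : Subgroup P), (⊤ : Subgroup P)⁆ = ⊤ := by
    rcases (inferInstance : (⁅(⊤ : Subgroup P), (⊤ : Subgroup P)⁆).Normal).eq_bot_or_eq_top with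
      h | h
    · exfalso
      have := Subgroup.commutator_mem_commutator (Subgroup.mem_top a0) (Subgroup.mem_top b0)
      rw [h, Subgroup.mem_bot] at this
      exact hcom this
    · exact h
  have h2 : ∀ Z : Finset J, (1 : J) ∉ Z → NZ M Z = ⊤ := by
    intro Z
    induction Z using Finset.induction_on with
    | empty =>
      intro _
      rw [eq_top_iff]
      intro a _
      obtain ⟨m, hm, h⟩ := hon a
      exact ⟨m, hm, by simp, h⟩
    | insert e Z _ ih =>
      intro h
      have he : e ≠ 1 := fun h' => h (h' ▸ Finset.mem_insert_self _ _)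
      have ih' := ih fun h' => h (Finset.mem_insert_of_mem h')
      rw [eq_top_iff, ← hperf, Subgroup.commutator_le]
      intro x _ y _
      have hx : x ∈ NZ M Z := ih' ▸ Subgroup.mem_top x
      have hy : y ∈ NZ M {e} := h1 e he ▸ Subgroup.mem_top y
      obtain ⟨m, hm, hz, rfl⟩ := hx
      obtain ⟨m', hm', hz', rfl⟩ := hy
      refine ⟨m * m' * m⁻¹ * m'⁻¹,
        M.mul_mem (M.mul_mem (M.mul_mem hm hm') (M.inv_mem hm)) (M.inv_mem hm'), ?_, rfl⟩
      intro z hz1
      rcases Finset.mem_insert.1 (Finset.mem_coe.1 hz1) with rfl | hz2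
      · simp [hz' z rfl]
      · simp [hz z hz2]
  have h3 : (M.comap (MonoidHom.mulSingle (fun _ : J => P) 1)).Normal := by
    constructor
    intro x hx b
    obtain ⟨m0, hm0, rfl⟩ := hon b
    have := M.mul_mem (M.mul_mem hm0 hx) (M.inv_mem hm0)
    rw [Subgroup.mem_comap]
    convert this using 1
    funext z
    by_cases hz : z = 1
    · subst hz; simp
    · simp [hz]
  have h4 : M.comap (MonoidHom.mulSingle (fun _ : J => P) 1) = ⊤ := by
    rcases h3.eq_bot_or_eq_top with h | h
    · exfalso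
      obtain ⟨m0, hm0, h0⟩ := hon a0
      obtain ⟨S, hS⟩ := hfin m0 hm0
      have hb : b0 ∈ NZ M (S.erase 1 : Finset J) := by
        rw [h2 _ (Finset.notMem_erase _ _)]; exact Subgroup.mem_top b0
      obtain ⟨m, hm, hz, hm1⟩ := hb
      have : ⁅a0, b0⁆ ∈ M.comap (MonoidHom.mulSingle (fun _ : J => P) 1) := by
        have := M.mul_mem (M.mul_mem (M.mul_mem hm0 hm) (M.inv_mem hm0)) (M.inv_mem hm)
        rw [Subgroup.mem_comap]
        convert this using 1
        funext z
        by_cases hz1 : z = 1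
        · subst hz1; simp [h0, hm1, commutatorElement_def]
        · by_cases hzS : z ∈ S
          · have := hz z (by simp [hz1, hzS])
            simp [hz1, this, commutatorElement_def]
          · simp [hz1, hS z hzS, commutatorElement_def]
      rw [h, Subgroup.mem_bot] at this
      exact hcom this
    · exact h
  obtain ⟨u, hu⟩ := heq c
  have h5 : (u c)⁻¹ * a * u c ∈ M.comap (MonoidHom.mulSingle (fun _ : J => P) 1) :=
    h4 ▸ Subgroup.mem_top _
  have := hu _ (Subgroup.mem_comap.1 h5)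
  convert this using 1
  funext z
  by_cases hz : z = c
  · subst hz; simp [mul_assoc]
  · have : c⁻¹ * z ≠ 1 := fun h => hz (by rw [inv_mul_eq_one] at h; exact h.symm)
    simp [hz, this]

end

end Pool.Agent.PD3K
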