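import Pool.Agent.Lib.MP_d98eb9_al.K.A1
import Pool.Agent.Lib.MP_d98eb9_al.K.A2

/-! Theorem K, block A, part 3: gauges. -/

namespace Pool.Agent.PD3K

universe u v

variable {X : Type} {J : Type u} [Group J]

lemma range_le_of_gen {α : Type} {Γ : Type*} [Group Γ] (f : FreeGroup α →* Γ) (H : Subgroup Γ)
    (h : ∀ i, f (FreeGroup.of i) ∈ H) : f.range ≤ H := by
  rintro _ ⟨w, rfl⟩
  induction w using FreeGroup.induction_on with
  | C1 => simp
  | of x => exact h x
  | inv_of x ih => rw [map_inv]; exact H.inv_mem ih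
  | mul a b ha hb => rw [map_mul]; exact H.mul_mem ha hb

lemma concl [Finite X] [DecidableEq J] (π : FreeGroup X →* J) (R0 B : Finset (FreeGroup X))
    {p : ℕ} {P : Type} [Group P] (y : FreeGroup (Fin p) →* P) (κ : X → J → FreeGroup (Fin p))
    (hκ : ∀ x, ∃ S : Finset J, ∀ c, c ∉ S → κ x c = 1) (hR : ∀ r ∈ R0, kap π κ r = 1)
    (hW : ∀ c i, ∃ n, π n = 1 ∧ ∀ c', y (kap π κ n c') =
      (Pi.mulSingle c (y (FreeGroup.of i)) : J → P) c') :
    ∃ S : Finset J, 1 ∈ S ∧ ∀ Λ : Finset J, S ⊆ Λ → ∀ (Γ : Type v) [Group Γ],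
      AConcl π R0 B y κ Λ Γ := by
  classical
  have := Fintype.ofFinite X
  choose S0 hS0 using hκ
  choose St hSt using tower.{u, v} π κ (fun x => ⟨S0 x, hS0 x⟩)
  choose W hW1 hW2 using hW
  set Λ0 : Finset J := insert 1 (Finset.univ.biUnion S0) with hΛ0
  refine ⟨Λ0 ∪ (R0 ∪ B ∪ (Λ0 ×ˢ Finset.univ).image fun q : J × Fin p => W q.1 q.2).biUnion St,
    Finset.mem_union_left _ (Finset.mem_insert_self _ _), fun Λ hΛ Γ _ τ lev hl => ?_⟩
  have h0 : Λ0 ⊆ Λ := Finset.subset_union_left.trans hΛ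
  have ht : ∀ w ∈ R0 ∪ B ∪ (Λ0 ×ˢ Finset.univ).image fun q : J × Fin p => W q.1 q.2,
      rho κ Λ τ lev w = levProd Λ lev (kap π κ w) * τ w := fun w hw =>
    hSt w Λ (((Finset.subset_biUnion_of_mem St hw).trans Finset.subset_union_right).trans hΛ)
      Γ τ lev hl
  refine ⟨fun r hr => ?_, fun w hw => ?_, fun hτ hy => ?_⟩
  · have h1 : levProd Λ lev (1 : J → FreeGroup (Fin p)) = 1 := map_one (Phi Λ lev hl.2)
    rw [ht r (by simp [hr]), hR r hr, h1, one_mul]
  · rw [ht w (by simp [hw]), mul_inv_cancel_right]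
    refine levProd_mem _ _ _ _ fun c hc => ?_
    exact (le_iSup₂_of_le (f := fun c (_ : c ∈ Λ) => (lev c).range) c hc le_rfl) ⟨_, rfl⟩
  · have h1 : ∀ c ∈ Λ0, (lev c).range ≤ (rho κ Λ τ lev).range := by
      intro c hc
      refine range_le_of_gen _ _ fun i => ⟨W c i, ?_⟩
      rw [ht _ (Finset.mem_union_right _ (Finset.mem_image.2 ⟨(c, i), by simp [hc], rfl⟩)),
        hτ _ (hW1 c i), mul_one, ← levProd_single Λ lev (h0 hc)]
      refine levProd_congr _ _ _ _ fun c' _ => ?_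
      rw [← mul_inv_eq_one, ← map_inv, ← map_mul]
      apply hy
      rw [map_mul, map_inv, hW2, mul_inv_eq_one]
      by_cases h : c' = c
      · subst h; simp
      · simp [h]
    refine ⟨h1 1 (Finset.mem_insert_self _ _), range_le_of_gen _ _ fun x => ?_⟩
    have h2 : levProd Λ lev (κ x) ∈ (rho κ Λ τ lev).range := by
      refine levProd_mem _ _ _ _ fun c _ => ?_
      by_cases hc : c ∈ S0 x
      · exact h1 c (Finset.mem_insert_of_mem (Finset.mem_biUnion.2 ⟨x, by simp, hc⟩)) ⟨_, rfl⟩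
      · rw [hS0 x c hc, map_one]; exact one_mem _
    have h3 : rho κ Λ τ lev (FreeGroup.of x) = levProd Λ lev (κ x) * τ (FreeGroup.of x) := by
      rw [rho, FreeGroup.lift_apply_of]
    have h4 := mul_mem (inv_mem h2) (⟨_, h3⟩ : _ ∈ (rho κ Λ τ lev).range)
    simpa using h4

/-- level data of gauges placed at the points `g j` -/
def kg (d : FreeGroup X → J →₀ ℤ) {p : ℕ} (g : Fin p → J) : X → J → FreeGroup (Fin p) :=
  fun x c => ((List.finRange p).map fun j => FreeGroup.of j ^ d (FreeGroup.of x) (c * g j)).prod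

/-- the word `w` only feels gauges in `T` -/
def Loc (π : FreeGroup X →* J) (d : FreeGroup X → J →₀ ℤ) (w : FreeGroup X) (T : Set J) : Prop :=
  ∀ (p : ℕ) (g : Fin p → J) (c : J),
    (∀ I : Set (Fin p), (∀ j, c * g j ∈ T → j ∈ I) →
      kap π (kg d g) w c ∈ Subgroup.closure (FreeGroup.of '' I)) ∧
    ∀ i, (∀ j, c * g j ∈ T → j = i) → kap π (kg d g) w c = FreeGroup.of i ^ d w (c * g i)

variable {π : FreeGroup X →* J} {d : FreeGroup X → J →₀ ℤ}

lemma IsDer.one (h : IsDer π d) (z : J) : d 1 z = 0 := by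
  have := h 1 1 z
  simp only [mul_one, map_one, inv_one, one_mul] at this
  omega

lemma IsDer.inv (h : IsDer π d) (w : FreeGroup X) (z : J) : d w⁻¹ z = - d w (π w * z) := by
  have := h w⁻¹ w z
  rw [inv_mul_cancel, h.one, map_inv, inv_inv] at this
  omega

lemma loc_one (h : IsDer π d) (T : Set J) : Loc π d 1 T := by
  intro p g c
  rw [kap_one]
  exact ⟨fun I _ => one_mem _, fun i _ => by rw [h.one]; simp⟩

lemma loc_of (x : X) : Loc π d (FreeGroup.of x) (d (FreeGroup.of x)).support := by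
  intro p g c
  rw [kap_of]
  refine ⟨fun I hI => ?_, fun i hi => ?_⟩
  · apply Subgroup.list_prod_mem
    intro z hz
    obtain ⟨j, _, rfl⟩ := List.mem_map.1 hz
    by_cases hj : d (FreeGroup.of x) (c * g j) = 0
    · rw [hj]; simp
    · exact zpow_mem (Subgroup.subset_closure
        (Set.mem_image_of_mem _ (hI j (by simpa using hj)))) _
  · rw [kg, List.prod_map_eq_pow_single i]
    · simp
    · intro j hj _
      have : d (FreeGroup.of x) (c * g j) = 0 := by
        by_contra h0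
        exact hj (hi j (by simpa using h0))
      rw [this]; simp

lemma Loc.inv (h : IsDer π d) {w : FreeGroup X} {T : Set J} (hw : Loc π d w T) :
    Loc π d w⁻¹ {z | π w * z ∈ T} := by
  intro p g c
  rw [kap_inv]
  refine ⟨fun I hI => inv_mem ((hw p g _).1 I fun j hj => hI j (by simpa [mul_assoc] using hj)),
    fun i hi => ?_⟩
  rw [(hw p g _).2 i fun j hj => hi j (by simpa [mul_assoc] using hj), h.inv, mul_assoc,
    zpow_neg]

lemma Loc.mul (h : IsDer π d) {a b : FreeGroup X} {T T' : Set J} (ha : Loc π d a T)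
    (hb : Loc π d b T') : Loc π d (a * b) {z | z ∈ T ∨ (π a)⁻¹ * z ∈ T'} := by
  intro p g c
  rw [kap_mul]
  refine ⟨fun I hI => mul_mem ((ha p g c).1 I fun j hj => hI j (Or.inl hj))
    ((hb p g _).1 I fun j hj => hI j (Or.inr (by simpa [mul_assoc] using hj))), fun i hi => ?_⟩
  rw [(ha p g c).2 i fun j hj => hi j (Or.inl hj),
    (hb p g _).2 i fun j hj => hi j (Or.inr (by simpa [mul_assoc] using hj)), h, zpow_add,
    mul_assoc]

lemma Loc.mono {w : FreeGroup X} {T T' : Set J} (hw : Loc π d w T) (h : T ⊆ T') :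
    Loc π d w T' := fun p g c =>
  ⟨fun I hI => (hw p g c).1 I fun j hj => hI j (h hj),
    fun i hi => (hw p g c).2 i fun j hj => hi j (h hj)⟩

lemma Loc.pow (h : IsDer π d) {w : FreeGroup X} {T : Set J} (hw : Loc π d w T) (k : ℕ) :
    Loc π d (w ^ k) {z | ∃ a : ℕ, a < k ∧ (π w ^ a)⁻¹ * z ∈ T} := by
  induction k with
  | zero => rw [pow_zero]; exact loc_one h _
  | succ k ih =>
    rw [pow_succ]
    refine (ih.mul h hw).mono ?_
    rintro z (⟨a, ha, hz⟩ | hz)
    · exact ⟨a, by omega, hz⟩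
    · exact ⟨k, by omega, by simpa using hz⟩

lemma exists_loc (h : IsDer π d) (w : FreeGroup X) : ∃ T : Set J, T.Finite ∧ Loc π d w T := by
  induction w using FreeGroup.induction_on with
  | C1 => exact ⟨∅, Set.finite_empty, loc_one h _⟩
  | of x => exact ⟨_, Finset.finite_toSet _, loc_of x⟩
  | inv_of x ih =>
    obtain ⟨T, hT, hl⟩ := ih
    exact ⟨_, hT.preimage (mul_right_injective _).injOn, hl.inv h⟩
  | mul a b ha hb =>
    obtain ⟨T, hT, hl⟩ := ha
    obtain ⟨T', hT', hl'⟩ := hb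
    exact ⟨_, hT.union (hT'.preimage (mul_right_injective (π a)⁻¹).injOn), hl.mul h hl'⟩

theorem ka : KA.{u} := by
  intro X _ J _ _ π d htf hπ hd ⟨n0, hn0, hdn⟩ R0 B hR0
  classical
  obtain ⟨σ, hσ⟩ : ∃ σ, d n0 σ ≠ 0 := by
    by_contra hh
    push Not at hh
    exact hdn (Finsupp.ext hh)
  refine ⟨(d n0 σ).natAbs, fun l p P _ _ y hl hml hnc hy hyl => ?_⟩
  obtain ⟨t, ht⟩ := exists_ne (1 : J)
  obtain ⟨θ, rfl⟩ := hπ t
  obtain ⟨s, hs⟩ := hπ σ⁻¹
  choose T hTf hT using exists_loc hd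
  have hfin : (T θ ∪ T s ∪ {z | σ * z ∈ T n0} ∪
      ⋃ r ∈ R0, (fun q : J × J => q.1⁻¹ * q.2) '' (T r ×ˢ T r)).Finite :=
    (((hTf θ).union (hTf s)).union ((hTf n0).preimage (mul_right_injective σ).injOn)).union
      (Set.Finite.biUnion R0.finite_toSet fun r _ => ((hTf r).prod (hTf r)).image _)
  obtain ⟨K, hK⟩ := ((hfin.preimage (htf.pow_inj ht).injOn).image Int.natAbs).bddAbove
  have hK' : ∀ b : ℤ, π θ ^ b ∈ T θ ∪ T s ∪ {z | σ * z ∈ T n0} ∪
      ⋃ r ∈ R0, (fun q : J × J => q.1⁻¹ * q.2) '' (T r ×ˢ T r) → b.natAbs ≤ K :=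
    fun b hb => hK ⟨b, hb, rfl⟩
  set k : Fin p → ℕ := fun i => (i + 1) * (2 * K + 2) with hk
  have hk1 : ∀ i, 2 * K + 2 ≤ k i := fun i => Nat.le_mul_of_pos_left _ (Nat.succ_pos _)
  have hk2 : ∀ i j : Fin p, i < j → k i + (2 * K + 2) ≤ k j := by
    intro i j hij
    have : (i : ℕ) + 1 + 1 ≤ j + 1 := by have := Fin.lt_def.1 hij; omega
    calc k i + (2 * K + 2) = (i + 1 + 1) * (2 * K + 2) := by simp only [hk]; ring
      _ ≤ k j := Nat.mul_le_mul_right _ this
  have hk3 : ∀ i j : Fin p, ((k j : ℤ) - k i).natAbs ≤ 2 * K + 1 → j = i := by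
    intro i j h
    rcases lt_trichotomy i j with h' | h' | h'
    · have := hk2 i j h'; omega
    · exact h'.symm
    · have := hk2 j i h'; omega
  have hq : ∀ a b : ℕ, (π θ ^ a)⁻¹ * π θ ^ b = π θ ^ ((b : ℤ) - a) := by
    intro a b
    rw [← zpow_natCast, ← zpow_natCast, ← zpow_neg, ← zpow_add]; congr 1; ring
  set g : Fin p → J := fun i => π θ ^ k i with hg
  have hκ : ∀ x, ∃ S : Finset J, ∀ c, c ∉ S → kg d g x c = 1 := by
    intro x
    refine ⟨Finset.univ.biUnion fun j => (d (FreeGroup.of x)).support.image (· * (g j)⁻¹),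
      fun c hc => ?_⟩
    have := ((loc_of (π := π) (d := d) x) p g c).1 ∅ fun j hj =>
      hc (Finset.mem_biUnion.2 ⟨j, by simp, Finset.mem_image.2 ⟨_, hj, by simp⟩⟩)
    simpa [kap_of] using this
  have hR : ∀ r ∈ R0, kap π (kg d g) r = 1 := by
    intro r hr
    funext c
    by_cases h : ∃ i, c * g i ∈ T r
    · obtain ⟨i, hi⟩ := h
      rw [(hT r p g c).2 i, (hR0 r hr).2]
      · simp
      · intro j hj
        apply hk3 i j
        have := hK' ((k j : ℤ) - k i) (Or.inr (Set.mem_biUnion hr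
          ⟨(c * g i, c * g j), ⟨hi, hj⟩, by rw [← hq]; simp [hg, mul_assoc]⟩))
        omega
    · have := (hT r p g c).1 ∅ fun j hj => h ⟨j, hj⟩
      simpa using this
  let M : Subgroup (J → P) :=
    { carrier := {m | ∃ n, π n = 1 ∧ ∀ c, y (kap π (kg d g) n c) = m c}
      one_mem' := ⟨1, map_one _, fun c => by rw [kap_one]; simp⟩
      mul_mem' := by
        rintro m m' ⟨n, h1, h2⟩ ⟨n', h1', h2'⟩
        exact ⟨n * n', by simp [h1, h1'], fun c => by simp [kap_mul, h1, h2, h2']⟩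
      inv_mem' := by
        rintro m ⟨n, h1, h2⟩
        exact ⟨n⁻¹, by simp [h1], fun c => by simp [kap_inv, h1, h2]⟩ }
  have hgen : ∀ i : Fin p, y (FreeGroup.of i) ∈ NZ M ∅ := by
    intro i
    induction i using WellFoundedLT.induction with
    | ind i ih =>
    obtain ⟨a0, ha0⟩ : ∃ a0, k i = a0 + (K + 1) := ⟨k i - (K + 1), by have := hk1 i; omega⟩
    set w := θ ^ a0 * (θ ^ (K + 1) * s) with hw
    have hπw : π w = g i * σ⁻¹ := by
      simp only [hw, hg, map_mul, map_pow, hs, ha0, pow_add, mul_assoc]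
    have e1 : kap π (kg d g) (θ ^ a0) 1 ∈ Subgroup.closure (FreeGroup.of '' {j | j < i}) := by
      refine (((hT θ).pow hd a0) p g 1).1 _ ?_
      rintro j ⟨a, ha, hz⟩
      rw [one_mul, hq] at hz
      have h1 := hK' _ (Or.inl (Or.inl (Or.inl hz)))
      by_contra hji
      rcases (not_lt.1 (show ¬ j < i from hji)).eq_or_lt with h | h
      · subst h; omega
      · have := hk2 _ _ h; omega
    have e2 := ((((hT θ).pow hd (K + 1)).mul hd (hT s)) p g ((π (θ ^ a0))⁻¹ * 1)).2 i (by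
      rintro j (⟨a, ha, hz⟩ | hz)
      · rw [mul_one, map_pow, ← mul_assoc, ← mul_inv_rev, ← pow_add, hq] at hz
        have h1 := hK' _ (Or.inl (Or.inl (Or.inl hz)))
        apply hk3; push_cast at h1; omega
      · rw [mul_one, map_pow, map_pow, ← mul_assoc, ← mul_inv_rev, ← pow_add, hq] at hz
        have h1 := hK' _ (Or.inl (Or.inl (Or.inr hz)))
        apply hk3; push_cast at h1; omega)
    have e3 := (hT n0 p g ((π w)⁻¹ * 1)).2 i (by
      intro j hz
      rw [mul_one, hπw, mul_inv_rev, inv_inv, mul_assoc, hq] at hz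
      have h1 := hK' _ (Or.inl (Or.inr hz))
      apply hk3; omega)
    have e4 : (π w)⁻¹ * 1 * g i = σ := by rw [hπw]; simp
    rw [e4] at e3
    have e5 : y (kap π (kg d g) (θ ^ a0) 1) ∈ NZ M ∅ := by
      have : Subgroup.closure (FreeGroup.of '' {j | j < i}) ≤ (NZ M ∅).comap y := by
        rw [Subgroup.closure_le]
        rintro _ ⟨j, hj, rfl⟩
        exact ih j hj
      exact this e1
    have e6 : y (kap π (kg d g) (w * n0 * w⁻¹) 1) ∈ NZ M ∅ :=
      ⟨fun c => y (kap π (kg d g) (w * n0 * w⁻¹) c),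
        ⟨_, by simp [hn0], fun _ => rfl⟩, by simp, rfl⟩
    rw [kap_conj π _ w n0 hn0, e3, hw, kap_mul, e2] at e6
    have e7 := mul_mem (mul_mem (inv_mem e5) e6) e5
    have e8 : y (FreeGroup.of i) ^ d n0 σ ∈ NZ M ∅ := by
      convert e7 using 1
      simp only [map_mul, map_inv, map_zpow]
      group
    have hcop : IsCoprime (d n0 σ) (l : ℤ) := by
      rw [Int.isCoprime_iff_gcd_eq_one, Int.gcd_eq_natAbs, Int.natAbs_natCast]
      exact ((Nat.coprime_of_lt_prime (Int.natAbs_ne_zero.2 hσ) hml hl)).symm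
    obtain ⟨a, b, hab⟩ := hcop
    have e9 : y (FreeGroup.of i) = (y (FreeGroup.of i) ^ d n0 σ) ^ a := by
      have : y (FreeGroup.of i) ^ (b * l) = 1 := by
        rw [mul_comm, zpow_mul, zpow_natCast, hyl, one_zpow]
      rw [← zpow_mul, ← mul_one (y (FreeGroup.of i) ^ (d n0 σ * a)), ← this, ← zpow_add,
        mul_comm (d n0 σ), hab, zpow_one]
    rw [e9]
    exact zpow_mem e8 a
  have hW : ∀ c a, Pi.mulSingle c a ∈ M := by
    refine goursat htf hnc M ?_ ?_ ?_
    · rintro m ⟨n, _, h2⟩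
      obtain ⟨S, hS⟩ := kap_supp π _ hκ n
      exact ⟨S, fun c hc => by rw [← h2, hS c hc, map_one]⟩
    · intro z
      obtain ⟨w, rfl⟩ := hπ z
      refine ⟨fun c => y (kap π (kg d g) w c), ?_⟩
      rintro m ⟨n, h1, h2⟩
      exact ⟨w * n * w⁻¹, by simp [h1], fun c => by simp [kap_conj π _ w n h1, h2]⟩
    · intro a
      obtain ⟨m, hm, _, h⟩ := range_le_of_gen y _ hgen (hy a)
      exact ⟨m, hm, h⟩
  obtain ⟨S, h1, hS⟩ := concl.{u, u} π R0 B y _ hκ hR fun c i => hW c _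
  obtain ⟨S', _, hS'⟩ := concl.{u, 0} π R0 B y _ hκ hR fun c i => hW c _
  exact ⟨_, S ∪ S', Finset.mem_union_left _ h1, hS _ Finset.subset_union_left _,
    fun E _ => hS' _ Finset.subset_union_right E⟩

end Pool.Agent.PD3K
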