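import Pool.Agent.Lib.MP_d98eb9_al.K.S

/-! Theorem K, block KL: assembly. -/

namespace Pool.Agent.PD3K

universe u

open scoped commutatorElement

lemma conj_eq {E Γ : Type*} [Group E] [Group Γ] {φ : E →* Γ} (hφ : φ.ker ≤ Subgroup.center E)
    {a a' : E} (h : φ a = φ a') (b : E) : a * b * a⁻¹ = a' * b * a'⁻¹ := by
  have := comm_eq hφ h (rfl : φ b = φ b)
  simpa [commutatorElement_def] using this

lemma rho_nat {X : Type} {J : Type u} {P E Γ : Type*} [Group P] [Group E] [Group Γ] (φ : E →* Γ)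
    (κ : X → J → P) (Λ : Finset J) (τ : FreeGroup X →* E) (lev : J → P →* E)
    (τ' : FreeGroup X →* Γ) (lev' : J → P →* Γ) (h : ∀ w, φ (τ w) = τ' w)
    (h' : ∀ c f, φ (lev c f) = lev' c f) (w : FreeGroup X) :
    φ (rho κ Λ τ lev w) = rho κ Λ τ' lev' w := by
  have : φ.comp (rho κ Λ τ lev) = rho κ Λ τ' lev' := by
    ext x
    simp [rho, levProd, h, map_list_prod, Function.comp_def, h']
  exact DFunLike.congr_fun this w

theorem kl : KL.{u} := by
  intro hA hY hM hS X _ J _ _ π d htf hπ hd hn R0 B hR0 hB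
  obtain ⟨m0, hA⟩ := hA X J π d htf hπ hd hn R0 B hR0
  obtain ⟨l, hl1, hl⟩ := Nat.exists_infinite_primes (m0 + 5)
  obtain ⟨β, _, _, hβ, hM⟩ := hM X J π hπ l
  obtain ⟨p, y, hy, hyl⟩ := hY β l hl (by omega) hβ
  have h5 : 5 ≤ Nat.card β := by rw [Nat.card_eq_fintype_card]; omega
  have hs : IsSimpleGroup (alternatingGroup β) := alternatingGroup.isSimpleGroup h5
  have hperf := commutator_alternatingGroup_eq_top h5
  have hnc : ∃ a b : alternatingGroup β, a * b ≠ b * a := by
    by_contra hh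
    push Not at hh
    have : commutator (alternatingGroup β) = ⊥ := by
      rw [eq_bot_iff, commutator_def, Subgroup.commutator_le]
      intro a _ b _
      exact commutatorElement_eq_one_iff_mul_comm.2 (hh a b)
    rw [hperf] at this
    exact top_ne_bot this
  obtain ⟨κ, Λ, h1, hA1, hA2⟩ := hA l p _ y hl (by omega) hnc hy hyl
  obtain ⟨ι, hcomm, ⟨z, hz⟩, hsw⟩ := hM Λ h1
  set L := Ltr J (Fin 5 × ℕ) with hL
  set τ := L.comp π with hτ
  let lev : J → FreeGroup (Fin p) →* Equiv.Perm (J × Fin 5 × ℕ) := fun c =>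
    (MulAut.conj (L c)).toMonoidHom.comp (ι.comp y)
  have hlev : ∀ c f, lev c f = L c * ι (y f) * (L c)⁻¹ := fun _ _ => rfl
  have hlv : Levels π Λ τ lev := by
    refine ⟨fun w c f => ?_, fun c hc c' hc' h f f' => hcomm c hc c' hc' h _ _⟩
    simp only [hlev, hτ, MonoidHom.comp_apply, map_mul]
    group
  obtain ⟨a1, a2, a3⟩ := hA1 τ lev hlv
  obtain ⟨b1, b2⟩ := a3 (fun n h => by simp [hτ, h]) (fun c f h => by simp [hlev, h])
  set ρ := rho κ Λ τ lev with hρ
  refine ⟨ρ.ker, inferInstance, fun r hr => ?_, fun w hw hw1 => ?_, fun r hr hrc => ?_⟩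
  · rw [MonoidHom.mem_ker, a1 r hr]; simp [hτ, (hR0 r hr).1]
  · have h2 := a2 w hw
    rw [MonoidHom.mem_ker.1 hw1, one_mul] at h2
    have h3 : (⨆ c ∈ Λ, (lev c).range) ≤ MulAction.stabilizer (Equiv.Perm (J × Fin 5 × ℕ)) z := by
      refine iSup₂_le fun c hc => ?_
      rintro _ ⟨f, rfl⟩
      exact hz c hc _
    have h4 : τ w z = z := by simpa using inv_mem (h3 h2)
    have h5 : π w * z.1 = z.1 := congrArg Prod.fst h4
    exact hB w hw (by simpa using h5)
  · have hsw' : Swindle L ρ.range := hsw _ (fun g => by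
      obtain ⟨w, rfl⟩ := hπ g
      exact b2 ⟨w, rfl⟩) (fun a => by
      obtain ⟨f, rfl⟩ := hy a
      exact b1 ⟨f, by simp [hlev]⟩)
    let N : Subgroup (FreeGroup X) := ⁅(⊤ : Subgroup (FreeGroup X)), ρ.ker⁆
    let φ : FreeGroup X ⧸ N →* Equiv.Perm (J × Fin 5 × ℕ) :=
      QuotientGroup.lift N ρ (Subgroup.commutator_le_right _ _)
    have hφ0 : ∀ w : FreeGroup X, φ (QuotientGroup.mk' N w) = ρ w := fun _ => rfl
    have hφ : φ.ker ≤ Subgroup.center _ := by
      intro a ha
      obtain ⟨w, rfl⟩ := QuotientGroup.mk'_surjective N a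
      rw [Subgroup.mem_center_iff]
      intro b
      obtain ⟨v, rfl⟩ := QuotientGroup.mk'_surjective N b
      rw [← commutatorElement_eq_one_iff_mul_comm, ← map_commutatorElement]
      exact (QuotientGroup.eq_one_iff _).2
        (Subgroup.commutator_mem_commutator (Subgroup.mem_top _) ha)
    have hQ : ρ.range ≤ φ.range := by
      rintro _ ⟨w, rfl⟩
      exact ⟨_, hφ0 w⟩
    obtain ⟨τ', hτ'⟩ := exists_lift (φ := φ) τ fun w => hQ (b2 ⟨w, rfl⟩)
    obtain ⟨y', hy'⟩ := exists_lift (φ := φ) (lev 1) fun w => hQ (b1 ⟨w, rfl⟩)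
    choose sec hsec using hπ
    let lev' : J → FreeGroup (Fin p) →* FreeGroup X ⧸ N := fun c =>
      (MulAut.conj (τ' (sec c))).toMonoidHom.comp y'
    have hlev' : ∀ c f, lev' c f = τ' (sec c) * y' f * (τ' (sec c))⁻¹ := fun _ _ => rfl
    have hφl : ∀ c f, φ (lev' c f) = lev c f := by
      intro c f
      simp [hlev', hτ', hy', hlev, hτ, hsec]
    have hlv' : Levels π Λ τ' lev' := by
      refine ⟨fun w c f => ?_, fun c hc c' hc' h f f' => ?_⟩
      · rw [hlev', hlev', ← conj_eq hφ (a := τ' w * τ' (sec c)) (a' := τ' (sec (π w * c)))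
          (by rw [map_mul, hτ', hτ', hτ']; simp [hτ, hsec])]
        group
      · have h2 : y f' ∈ (commutator (FreeGroup (Fin p))).map y := by
          rw [map_commutator_eq, MonoidHom.range_eq_top.2 hy, ← commutator_def, hperf]
          trivial
        obtain ⟨f'', hf, hf'⟩ := h2
        have h3 := eq_on_comm hφ ((MulAut.conj (lev' c f)).toMonoidHom.comp (lev' c')) (lev' c')
          (fun x => by
            have := (hlv.2 c hc c' hc' h f x).eq
            simp [hφl, this]) f'' hf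
        rw [← commutatorElement_eq_one_iff_commute,
          comm_eq hφ (a' := lev' c f) (b' := lev' c' f'') rfl (by simp [hφl, hlev, hf']),
          commutatorElement_def]
        change lev' c f * lev' c' f'' * (lev' c f)⁻¹ = _ at h3
        rw [h3]; simp
    have c1 := (hA2 _ τ' lev' hlv').1
    let H : Subgroup (FreeGroup X) := π.ker ⊓ (rho κ Λ τ' lev').eqLocus τ'
    have hH : H.Normal := by
      constructor
      rintro n ⟨h1, h2⟩ w
      have h1' : π n = 1 := h1
      have h2' : rho κ Λ τ' lev' n = τ' n := h2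
      have hc := Subgroup.mem_center_iff.1 (hφ (show φ (τ' n) = 1 by simp [hτ', hτ, h1']))
      refine ⟨by simp [h1'], ?_⟩
      change rho κ Λ τ' lev' _ = τ' _
      simp [h2', hc]
    have c2 : Subgroup.normalClosure (R0 : Set (FreeGroup X)) ≤ H :=
      Subgroup.normalClosure_le_normal fun r hr => ⟨(hR0 r hr).1, c1 r hr⟩
    have c3 : QuotientGroup.mk' N r = rho κ Λ τ' lev' r :=
      eq_on_comm hφ _ _ (fun x => by rw [hφ0, rho_nat φ κ Λ τ' lev' τ lev hτ' hφl]) r hrc
    have c4 : τ' r = 1 :=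
      hS X J _ L _ hsw' _ φ hφ hQ π τ' (MonoidHom.ext hτ') r (c2 hr).1 hrc
    rw [show rho κ Λ τ' lev' r = τ' r from (c2 hr).2, c4] at c3
    exact (QuotientGroup.eq_one_iff _).1 c3

end Pool.Agent.PD3K
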