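import Pool.Agent.Lib.MP_d98eb9_al.K.St

/-! Theorem K, block KM, part 1: slots, the sparse set, permutations of `J × Y`. -/

namespace Pool.Agent.PD3K

universe u

open scoped commutatorElement

variable {J : Type u} [Group J]

lemma exists_far [Infinite J] (Sg A : Finset J) (u v : J) :
    ∃ F : Set J, F.Finite ∧ ∀ n, n ∉ F → ∀ b ∈ A,
      (u * n * v) * b⁻¹ ∉ Sg ∧ b * (u * n * v)⁻¹ ∉ Sg := by
  classical
  refine ⟨(fun q : J × J => u⁻¹ * (q.1 * q.2) * v⁻¹) '' ((Sg : Set J) ×ˢ (A : Set J)) ∪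
    (fun q : J × J => u⁻¹ * (q.1⁻¹ * q.2) * v⁻¹) '' ((Sg : Set J) ×ˢ (A : Set J)),
    ((Sg.finite_toSet.prod A.finite_toSet).image _).union
      ((Sg.finite_toSet.prod A.finite_toSet).image _), fun n hn b hb => ⟨fun h => ?_, fun h => ?_⟩⟩
  · exact hn (Or.inl ⟨(_, b), ⟨h, hb⟩, by simp only; group⟩)
  · exact hn (Or.inr ⟨(_, b), ⟨h, hb⟩, by simp only; group⟩)

lemma slots [Infinite J] (Sg : Finset J) {T : Type} [Fintype T] (xs : T → J) :
    ∃ sl : Option (T × Fin 3) → J, sl none = 1 ∧ (∀ a b, a ≠ b → sl a * (sl b)⁻¹ ∉ Sg) ∧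
      ∀ t, sl (some (t, 2)) = sl (some (t, 0)) * xs t * sl (some (t, 1)) := by
  classical
  have key : ∀ A : Finset T, ∃ sl : Option (T × Fin 3) → J, sl none = 1 ∧
      (∀ a b, (∀ q ∈ a, q.1 ∈ A) → (∀ q ∈ b, q.1 ∈ A) → a ≠ b → sl a * (sl b)⁻¹ ∉ Sg) ∧
      ∀ t ∈ A, sl (some (t, 2)) = sl (some (t, 0)) * xs t * sl (some (t, 1)) := by
    intro A
    induction A using Finset.induction_on with
    | empty =>
      refine ⟨fun _ => 1, rfl, ?_, by simp⟩
      rintro (_ | a) (_ | b) ha hb hab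
      · exact absurd rfl hab
      · simpa using hb b rfl
      · simpa using ha a rfl
      · simpa using ha a rfl
    | insert t A ht ih =>
      obtain ⟨sl, h0, h1, h2⟩ := ih
      obtain ⟨F1, hF1, k1⟩ := exists_far Sg (Finset.univ.image sl) 1 1
      obtain ⟨F2, hF2, k2⟩ := exists_far Sg {1} 1 (xs t)
      obtain ⟨y, hy⟩ := (hF1.union hF2).exists_notMem
      obtain ⟨F3, hF3, k3⟩ := exists_far Sg (insert y (Finset.univ.image sl)) 1 1
      obtain ⟨F4, hF4, k4⟩ := exists_far Sg (insert y (Finset.univ.image sl)) (y * xs t) 1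
      obtain ⟨z, hz⟩ := (hF3.union hF4).exists_notMem
      have l1 := fun b => k1 y (fun h => hy (Or.inl h)) (sl b) (by simp)
      have l2 := k2 y (fun h => hy (Or.inr h)) 1 (by simp)
      have l3 := fun b => k3 z (fun h => hz (Or.inl h)) (sl b) (by simp)
      have l3' := k3 z (fun h => hz (Or.inl h)) y (by simp)
      have l4 := fun b => k4 z (fun h => hz (Or.inr h)) (sl b) (by simp)
      have l4' := k4 z (fun h => hz (Or.inr h)) y (by simp)
      simp only [one_mul, mul_one, inv_one] at l1 l2 l3 l3' l4 l4'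
      let nw : Fin 3 → J := ![y, z, y * xs t * z]
      have n1 : ∀ k b, nw k * (sl b)⁻¹ ∉ Sg ∧ sl b * (nw k)⁻¹ ∉ Sg := by
        intro k b
        fin_cases k
        exacts [l1 b, l3 b, l4 b]
      have n2 : ∀ k k', k ≠ k' → nw k * (nw k')⁻¹ ∉ Sg := by
        have e1 : y * xs t * z * z⁻¹ ∉ Sg := by simpa using l2.1
        have e2 : z * (y * xs t * z)⁻¹ ∉ Sg := by simpa [mul_assoc] using l2.2
        intro k k' hk
        fin_cases k <;> fin_cases k' <;> first
          | exact absurd rfl hk | exact l3'.1 | exact l3'.2 | exact l4'.1 | exact l4'.2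
          | exact e1 | exact e2
      let sl' : Option (T × Fin 3) → J := fun a =>
        match a with
        | none => sl none
        | some q => if q.1 = t then nw q.2 else sl (some q)
      have c1 : ∀ a : Option (T × Fin 3), (∀ q ∈ a, q.1 ∈ insert t A) →
          (∃ k, a = some (t, k) ∧ sl' a = nw k) ∨ ((∀ q ∈ a, q.1 ∈ A) ∧ sl' a = sl a) := by
        rintro (_ | ⟨s, k⟩) ha
        · exact Or.inr ⟨by simp, rfl⟩
        · by_cases hs : s = t
          · subst hs; exact Or.inl ⟨k, rfl, by simp [sl']⟩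
          · refine Or.inr ⟨?_, by simp [sl', hs]⟩
            simpa [hs] using ha
      refine ⟨sl', h0, fun a b ha hb hab => ?_, fun s hs => ?_⟩
      · rcases c1 a ha with ⟨k, rfl, e⟩ | ⟨ha', e⟩ <;>
          rcases c1 b hb with ⟨k', rfl, e'⟩ | ⟨hb', e'⟩ <;> rw [e, e']
        · exact n2 k k' fun h => hab (by rw [h])
        · exact (n1 k b).1
        · exact (n1 k' a).2
        · exact h1 a b ha' hb' hab
      · by_cases hst : s = t
        · subst hst; simp [sl', nw]
        · have := h2 s (by simpa [hst] using hs)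
          simpa [sl', hst] using this
  obtain ⟨sl, h0, h1, h2⟩ := key Finset.univ
  exact ⟨sl, h0, fun a b => h1 a b (by simp) (by simp), fun t => h2 t (by simp)⟩

lemma sparse (D : Finset J) (hD : D.Nonempty) : ∃ P : Set J,
    (∀ p ∈ P, ∀ p' ∈ P, ∀ d ∈ D, ∀ d' ∈ D, d * p = d' * p' → p = p') ∧
    ∀ g, ∃ d ∈ D, ∃ d' ∈ D, (d⁻¹ * d')⁻¹ * g ∈ P := by
  obtain ⟨P, hP⟩ := zorn_subset
    {P : Set J | ∀ p ∈ P, ∀ p' ∈ P, ∀ d ∈ D, ∀ d' ∈ D, d * p = d' * p' → p = p'} (by
      intro c hc hch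
      refine ⟨⋃₀ c, ?_, fun s hs => Set.subset_sUnion_of_mem hs⟩
      rintro p ⟨s, hs, hp⟩ p' ⟨s', hs', hp'⟩
      rcases hch.total hs hs' with h | h
      · exact hc hs' p (h hp) p' hp'
      · exact hc hs p hp p' (h hp'))
  refine ⟨P, hP.prop, fun g => ?_⟩
  by_contra hh
  push Not at hh
  have h1 : ∀ p ∈ P, ∀ d ∈ D, ∀ d' ∈ D, d * g ≠ d' * p := by
    intro p hp d hd d' hd' h
    apply hh d hd d' hd'
    have : (d⁻¹ * d')⁻¹ * g = p := by
      rw [mul_inv_rev, inv_inv, mul_assoc, h]; simp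
    rwa [this]
  have h2 : insert g P ⊆ P := hP.le_of_ge (by
    rintro p (rfl | hp) p' (rfl | hp') d hd d' hd' h
    · rfl
    · exact absurd h (h1 p' hp' d hd d' hd')
    · exact absurd h.symm (h1 p hp d' hd' d hd)
    · exact hP.prop p hp p' hp' d hd d' hd' h) (Set.subset_insert _ _)
  obtain ⟨d, hd⟩ := hD
  exact h1 g (h2 (Set.mem_insert _ _)) d hd d hd rfl

variable {Y : Type}

open Classical in
/-- `η` acts on the second factor over `U` -/
noncomputable def res (U : Set J) : Equiv.Perm Y →* Equiv.Perm (J × Y) where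
  toFun η := Equiv.prodCongrRight fun j => if j ∈ U then η else 1
  map_one' := by ext x <;> simp
  map_mul' a b := by
    ext x
    · rfl
    · obtain ⟨j, y⟩ := x
      by_cases h : j ∈ U <;> simp [h]

open Classical in
omit [Group J] in
lemma res_apply (U : Set J) (η : Equiv.Perm Y) (z : J × Y) :
    res U η z = (z.1, if z.1 ∈ U then η z.2 else z.2) := by
  obtain ⟨j, y⟩ := z
  by_cases h : j ∈ U <;> simp [res, h]

open Classical in
/-- left translation over `A` -/
noncomputable def gam (A : Set Y) : J →* Equiv.Perm (J × Y) where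
  toFun g := Equiv.prodCongrLeft fun y => if y ∈ A then Equiv.mulLeft g else 1
  map_one' := by ext x <;> simp [Equiv.prodCongrLeft]
  map_mul' a b := by
    ext x
    · obtain ⟨j, y⟩ := x
      by_cases h : y ∈ A <;> simp [h]
    · rfl

open Classical in
lemma gam_apply (A : Set Y) (g : J) (z : J × Y) :
    gam A g z = (if z.2 ∈ A then g * z.1 else z.1, z.2) := by
  obtain ⟨j, y⟩ := z
  by_cases h : y ∈ A <;> simp [gam, h]

lemma Ltr_apply (g : J) (z : J × Y) : Ltr J Y g z = (g * z.1, z.2) := rfl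

omit [Group J] in
lemma res_inter (U U' : Set J) (η ζ : Equiv.Perm Y) :
    res (U ∩ U') ⁅η, ζ⁆ = ⁅res U η, res U' ζ⁆ := by
  simp only [commutatorElement_def, ← map_inv]
  refine Equiv.ext fun z => ?_
  simp only [Equiv.Perm.mul_apply, res_apply]
  by_cases h : z.1 ∈ U <;> by_cases h' : z.1 ∈ U' <;> simp [h, h']

omit [Group J] in
lemma res_union (U U' : Set J) (η : Equiv.Perm Y) :
    res (U ∪ U') η = res U η * res U' η * (res (U ∩ U') η)⁻¹ := by
  rw [← map_inv]
  refine Equiv.ext fun z => ?_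
  simp only [Equiv.Perm.mul_apply, res_apply]
  by_cases h : z.1 ∈ U <;> by_cases h' : z.1 ∈ U' <;> simp [h, h']

lemma res_conj (U : Set J) (g : J) (η : Equiv.Perm Y) :
    Ltr J Y g * res U η * (Ltr J Y g)⁻¹ = res {j | g⁻¹ * j ∈ U} η := by
  rw [← map_inv]
  refine Equiv.ext fun z => ?_
  simp only [Equiv.Perm.mul_apply, res_apply, Ltr_apply]
  by_cases h : g⁻¹ * z.1 ∈ U <;> simp [h]

lemma gam_conj (A A' : Set Y) (g : J) (η : Equiv.Perm Y) (h : ∀ y, η y ∈ A' ↔ y ∈ A) :
    res Set.univ η * gam A g * (res Set.univ η)⁻¹ = gam A' g := by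
  rw [mul_inv_eq_iff_eq_mul]
  refine Equiv.ext fun z => ?_
  have := h z.2
  by_cases h' : z.2 ∈ A <;> simp_all [res_apply, gam_apply]

lemma gam_union (A A' : Set Y) (h : Disjoint A A') (g : J) :
    gam (A ∪ A') g = gam A g * gam A' g := by
  refine Equiv.ext fun z => ?_
  have : z.2 ∈ A → z.2 ∉ A' := fun hz => Set.disjoint_left.1 h hz
  by_cases h : z.2 ∈ A <;> by_cases h' : z.2 ∈ A' <;> simp_all [gam_apply]

lemma gam_comm (A A' : Set Y) (h : Disjoint A A') (g g' : J) :
    Commute (gam A g) (gam A' g') := by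
  refine Equiv.ext fun z => ?_
  have : z.2 ∈ A → z.2 ∉ A' := fun hz => Set.disjoint_left.1 h hz
  by_cases h : z.2 ∈ A <;> by_cases h' : z.2 ∈ A' <;> simp_all [gam_apply]

omit [Group J] in
/-- globalisation over a finite cover, for a perfect group `H` -/
lemma res_cover (Q : Subgroup (Equiv.Perm (J × Y))) (H : Subgroup (Equiv.Perm Y))
    (hH : H ≤ ⁅H, H⁆) (t : Equiv.Perm (J × Y)) {ι : Type*} (U : ι → Set J) (G : Finset ι)
    (h : ∀ g ∈ G, ∀ η ∈ H, t * res (U g) η * t⁻¹ ∈ Q) :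
    ∀ η ∈ H, t * res (⋃ g ∈ G, U g) η * t⁻¹ ∈ Q := by
  classical
  induction G using Finset.induction_on with
  | empty =>
    intro η _
    have : res (⋃ g ∈ (∅ : Finset ι), U g) η = (1 : Equiv.Perm (J × Y)) :=
      Equiv.ext fun z => by simp [res_apply]
    rw [this]; simp
  | insert g G _ ih =>
    have h1 := h g (Finset.mem_insert_self _ _)
    have h2 := ih fun g' hg' => h g' (Finset.mem_insert_of_mem hg')
    have h3 : ⁅H, H⁆ ≤ Q.comap ((MulAut.conj t).toMonoidHom.comp
        (res (U g ∩ ⋃ g ∈ G, U g))) := by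
      rw [Subgroup.commutator_le]
      intro a ha b hb
      change t * res _ ⁅a, b⁆ * t⁻¹ ∈ Q
      rw [res_inter, conjugate_commutatorElement, commutatorElement_def]
      exact mul_mem (mul_mem (mul_mem (h1 a ha) (h2 b hb)) (inv_mem (h1 a ha)))
        (inv_mem (h2 b hb))
    intro η hη
    have h4 : t * res (U g ∩ ⋃ g ∈ G, U g) η * t⁻¹ ∈ Q := h3 (hH hη)
    rw [Finset.set_biUnion_insert, res_union]
    convert mul_mem (mul_mem (h1 η hη) (h2 η hη)) (inv_mem h4) using 1
    group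

end Pool.Agent.PD3K
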