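import Pool.Agent.Lib.MP_d98eb9_al.K.M1

/-! Theorem K, block KM, part 2: the swindle elements. -/

namespace Pool.Agent.PD3K

universe u

open scoped commutatorElement

/-- the two frames of five blocks -/
def fr : Bool → (Fin 5 × ℕ ↪ Fin 5 × ℕ)
  | false => Function.Embedding.refl _
  | true => ⟨fun q => if q.1 = 3 then (3, 2 * q.2) else if q.1 = 4 then (3, 2 * q.2 + 1) else q, by
      rintro ⟨i, n⟩ ⟨j, m⟩ h
      fin_cases i <;> fin_cases j <;> simp at h ⊢ <;> omega⟩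

/-- action on the first factor -/
def pl (α R : Type*) : Equiv.Perm α →* Equiv.Perm (α × R) where
  toFun g := Equiv.prodCongr g (Equiv.refl R)
  map_one' := by ext x <;> simp
  map_mul' a b := by ext x <;> simp

lemma pl_apply {α R : Type*} (g : Equiv.Perm α) (a : α) (r : R) : pl α R g (a, r) = (g a, r) := rfl

/-- block permutations of a frame -/
noncomputable def hY (k : Bool) : Equiv.Perm (Fin 5) →* Equiv.Perm (Fin 5 × ℕ) :=
  (Equiv.Perm.viaEmbeddingHom (fr k)).comp (pl _ _)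

lemma hY_apply (k : Bool) (σ : Equiv.Perm (Fin 5)) (i : Fin 5) (n : ℕ) :
    hY k σ (fr k (i, n)) = fr k (σ i, n) :=
  Equiv.Perm.viaEmbedding_apply _ _ _

lemma hY_fix (k : Bool) (σ : Equiv.Perm (Fin 5)) (y : Fin 5 × ℕ) (h : y ∉ Set.range (fr k)) :
    hY k σ y = y :=
  Equiv.Perm.viaEmbedding_apply_of_notMem _ _ _ h

/-- the blocks -/
def blk (k : Bool) (i : Fin 5) : Set (Fin 5 × ℕ) := {y | ∃ n, y = fr k (i, n)}

lemma hY_mem (k : Bool) (σ : Equiv.Perm (Fin 5)) (i : Fin 5) (y : Fin 5 × ℕ) :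
    hY k σ y ∈ blk k (σ i) ↔ y ∈ blk k i := by
  constructor
  · rintro ⟨n, h⟩
    exact ⟨n, (hY k σ).injective (by rw [h, hY_apply])⟩
  · rintro ⟨n, rfl⟩
    exact ⟨n, hY_apply _ _ _ _⟩

lemma blk_disj (k : Bool) {i j : Fin 5} (h : i ≠ j) : Disjoint (blk k i) (blk k j) := by
  rw [Set.disjoint_left]
  rintro _ ⟨n, rfl⟩ ⟨m, h'⟩
  exact h (congrArg Prod.fst ((fr k).injective h'))

lemma mem_blk_false (i : Fin 5) (y : Fin 5 × ℕ) : y ∈ blk false i ↔ y.1 = i :=
  ⟨by rintro ⟨n, rfl⟩; rfl, fun h => ⟨y.2, by subst h; rfl⟩⟩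

lemma blk_zero (k : Bool) : blk k 0 = blk false 0 := by cases k <;> rfl

lemma blk_one : blk true 1 = blk false 1 := rfl

lemma blk_three : blk false 3 = blk true 3 ∪ blk true 4 := by
  ext ⟨i, n⟩
  rw [mem_blk_false]
  constructor
  · rintro rfl
    rcases Nat.even_or_odd' n with ⟨m, rfl | rfl⟩
    · exact Or.inl ⟨m, rfl⟩
    · exact Or.inr ⟨m, rfl⟩
  · rintro (⟨m, h⟩ | ⟨m, h⟩) <;> exact congrArg Prod.fst h

lemma alt_two (i j : Fin 5) (h : i ≠ j) :
    ∃ σ ∈ alternatingGroup (Fin 5), σ 0 = i ∧ σ 1 = j := by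
  obtain ⟨σ, h0, h1⟩ : ∃ σ : Equiv.Perm (Fin 5), σ 0 = i ∧ σ 1 = j :=
    ⟨Equiv.swap 0 i * Equiv.swap 1 (Equiv.swap 0 i j), by revert i j; decide, by simp⟩
  rcases Int.units_eq_one_or (Equiv.Perm.sign σ) with hs | hs
  · exact ⟨σ, hs, h0, h1⟩
  · refine ⟨σ * Equiv.swap 2 3, ?_, ?_, ?_⟩
    · rw [Equiv.Perm.mem_alternatingGroup, map_mul, hs, Equiv.Perm.sign_swap (by decide)]; simp
    · rw [← h0]; rfl
    · rw [← h1]; rfl

variable {J : Type u} [Group J]

theorem swindle_of (P : Set J) (Q : Subgroup (Equiv.Perm (J × Fin 5 × ℕ)))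
    (hL : ∀ g, Ltr J _ g ∈ Q) (G : Finset J) (hG : ∀ g, ∃ a ∈ G, a⁻¹ * g ∈ P)
    (h1 : ∀ k, ∀ σ ∈ alternatingGroup (Fin 5), res P (hY k σ) ∈ Q)
    (hK : ∀ g : J, ∃ π ∈ Q, (∀ z, z.2 ∉ blk false 0 → π z = z) ∧
      ∀ p ∈ P, ∀ y ∈ blk false 0, π (p, y) = (g * p, y)) :
    Swindle (Ltr J (Fin 5 × ℕ)) Q := by
  let H : Subgroup (Equiv.Perm (Fin 5 × ℕ)) := ⨆ k, (alternatingGroup (Fin 5)).map (hY k)
  have hle : ∀ k, (alternatingGroup (Fin 5)).map (hY k) ≤ H := fun k =>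
    le_iSup (fun k => (alternatingGroup (Fin 5)).map (hY k)) k
  have hmem : ∀ k, ∀ σ ∈ alternatingGroup (Fin 5), hY k σ ∈ H := fun k σ h => hle k ⟨σ, h, rfl⟩
  have hH : H ≤ ⁅H, H⁆ := by
    refine iSup_le fun k => ?_
    rw [← commutator_alternatingGroup_eq_self (α := Fin 5) (by simp), Subgroup.map_commutator]
    exact Subgroup.commutator_mono (hle k) (hle k)
  have hP : ∀ η ∈ H, res P η ∈ Q := by
    have : H ≤ Q.comap (res P) := iSup_le fun k => by
      rintro _ ⟨σ, h, rfl⟩; exact h1 k σ h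
    exact this
  have hPa : ∀ a : J, ∀ η ∈ H, res {j | a⁻¹ * j ∈ P} η ∈ Q := fun a η h => by
    rw [← res_conj]; exact mul_mem (mul_mem (hL a) (hP η h)) (inv_mem (hL a))
  have hU : (⋃ a ∈ G, {j | a⁻¹ * j ∈ P}) = Set.univ :=
    Set.eq_univ_of_forall fun g => by
      obtain ⟨a, ha, h⟩ := hG g
      exact Set.mem_biUnion ha h
  have hall : ∀ η ∈ H, res Set.univ η ∈ Q := by
    have := res_cover Q H hH 1 (fun a => {j | a⁻¹ * j ∈ P}) G
      (fun a _ η h => by simpa using hPa a η h)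
    simpa only [hU, one_mul, inv_one, mul_one] using this
  have hcj : ∀ g : J, ∀ η ∈ H,
      gam (blk false 0) g * res Set.univ η * (gam (blk false 0) g)⁻¹ ∈ Q := by
    intro g
    rw [← hU]
    refine res_cover Q H hH _ (fun a => {j | a⁻¹ * j ∈ P}) G fun a _ η h => ?_
    obtain ⟨π, hπ, k1, k2⟩ := hK (a⁻¹ * g * a)
    have hq : Ltr J _ a * π * (Ltr J _ a)⁻¹ ∈ Q := mul_mem (mul_mem (hL a) hπ) (inv_mem (hL a))
    have hd : Equiv.Perm.Disjoint ((gam (blk false 0) g)⁻¹ * (Ltr J _ a * π * (Ltr J _ a)⁻¹))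
        (res {j | a⁻¹ * j ∈ P} η) := by
      rintro ⟨j, y⟩
      by_cases hj : a⁻¹ * j ∈ P
      · left
        rw [Equiv.Perm.mul_apply, Equiv.Perm.inv_eq_iff_eq, ← map_inv]
        simp only [Equiv.Perm.mul_apply, Ltr_apply, gam_apply]
        by_cases hy : y ∈ blk false 0
        · rw [k2 _ hj y hy]; simp [hy, mul_assoc]
        · rw [k1 _ hy]; simp [hy]
      · right
        simp [res_apply, hj]
    have := mul_mem (mul_mem hq (hPa a η h)) (inv_mem hq)
    convert this using 1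
    have e := hd.commute.eq
    set t := gam (blk false 0) g
    set q := Ltr J _ a * π * (Ltr J _ a)⁻¹
    set r := res {j | a⁻¹ * j ∈ P} η
    calc t * r * t⁻¹ = t * (r * (t⁻¹ * q)) * q⁻¹ := by group
      _ = _ := by rw [← e]; group
  have hd : ∀ k i g, gam (blk false 0) g * (gam (blk k i) g)⁻¹ ∈ Q := by
    intro k i g
    obtain ⟨j, hj⟩ := exists_ne i
    obtain ⟨σ, hσ, h0, _⟩ := alt_two i j hj.symm
    have := mul_mem (hcj g _ (hmem k σ hσ)) (inv_mem (hall _ (hmem k σ hσ)))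
    rw [← gam_conj (blk false 0) (blk k i) g (hY k σ) (fun y => by rw [← h0, hY_mem, blk_zero])]
    convert this using 1
    group
  have h3 : ∀ g : J, gam (blk false 3) g = gam (blk true 3) g * gam (blk true 4) g := fun g => by
    rw [blk_three, gam_union _ _ (blk_disj _ (by decide))]
  have h0 : ∀ g : J, gam (blk false 0) g ∈ Q := by
    intro g
    have e1 := mul_mem (inv_mem (hd true 3 g)) (hd false 3 g)
    rw [h3, (gam_comm _ _ (blk_disj true (i := 3) (j := 4) (by decide)) g g).eq] at e1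
    have e2 : (gam (blk true 4) g)⁻¹ ∈ Q := by
      convert e1 using 1
      rw [mul_inv_rev, mul_inv_rev, inv_inv]
      group
    simpa using mul_mem (hd true 4 g) (inv_mem e2)
  have hF : ∀ k, Frame Q fun i => gam (J := J) (blk k i) := by
    intro k
    refine ⟨fun i g => ?_, fun i j h g g' => gam_comm _ _ (blk_disj k h) g g', fun i j h => ?_⟩
    · simpa using mul_mem (inv_mem (hd k i g)) (h0 g)
    · obtain ⟨σ, hσ, a0, a1⟩ := alt_two i j h
      exact ⟨_, hall _ (hmem k σ hσ), fun g =>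
        ⟨gam_conj _ _ g _ fun y => by rw [← a0, hY_mem],
          gam_conj _ _ g _ fun y => by rw [← a1, hY_mem]⟩⟩
  refine ⟨_, _, hF false, hF true, rfl, rfl, h3, fun g => ?_⟩
  refine Equiv.ext fun ⟨j, i, n⟩ => ?_
  simp only [Equiv.Perm.mul_apply, Ltr_apply, gam_apply, mem_blk_false]
  fin_cases i <;> simp

end Pool.Agent.PD3K
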