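import Pool.Agent.Lib.MP_d98eb9_al.K.M2
import Pool.Agent.Lib.MP_d98eb9_al.K.A3
import Pool.Agent.Lib.MP_d98eb9_al.K.L

/-! Theorem K, block KM, part 3: the model; Theorem K. -/

namespace Pool.Agent.PD3K

universe u

/-- slot of a block -/
def so {T : Type} : Fin 5 ⊕ Fin 5 ⊕ T × Fin 3 → Option (Option T × Fin 3)
  | .inl _ => none
  | .inr (.inl _) => some (none, 0)
  | .inr (.inr q) => some (some q.1, q.2)

/-- second coordinates of a block -/
def bl {T : Type} : Fin 5 ⊕ Fin 5 ⊕ T × Fin 3 → ℕ → Fin 5 × ℕ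
  | .inl i, n => fr false (i, n)
  | .inr (.inl i), n => fr true (i, n)
  | .inr (.inr _), n => fr false (0, n)

/-- the frames inside the set of blocks -/
def fe {T : Type} : Bool → (Fin 5 ↪ Fin 5 ⊕ Fin 5 ⊕ T × Fin 3)
  | false => ⟨.inl, Sum.inl_injective⟩
  | true => ⟨fun i => .inr (.inl i), fun _ _ h => by simpa using h⟩

lemma so_bl_inj {T : Type} {b b' : Fin 5 ⊕ Fin 5 ⊕ T × Fin 3} {n n' : ℕ} (h : so b = so b')
    (h' : bl b n = bl b' n') : b = b' ∧ n = n' := by
  rcases b with i | i | ⟨t, k⟩ <;> rcases b' with j | j | ⟨t', k'⟩ <;> simp [so] at h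
  · simpa using (fr false).injective h'
  · simpa using (fr true).injective h'
  · exact ⟨by simp [h], by simpa using (fr false).injective h'⟩

lemma bl_fe {T : Type} (k : Bool) (i : Fin 5) (n : ℕ) : bl (fe (T := T) k i) n = fr k (i, n) := by
  cases k <;> rfl

lemma so_fe {T : Type} (k : Bool) (i : Fin 5) : so (fe (T := T) k i) = so (fe k 0) := by
  cases k <;> rfl

theorem km : KM.{u} := by
  intro X _ J _ _ π hπ l
  classical
  have := Fintype.ofFinite X
  refine ⟨Fin 5 ⊕ Fin 5 ⊕ (X ⊕ Fin l) × Fin 3, inferInstance, inferInstance, by simp; omega,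
    fun Λ h1 => ?_⟩
  obtain ⟨sl, s0, s1, s2⟩ := slots (Finset.image₂ (fun c c' => c⁻¹ * c') Λ Λ)
    (T := Option (X ⊕ Fin l))
    fun t => t.elim 1 (Sum.elim (fun x => π (FreeGroup.of x)) fun _ => 1)
  obtain ⟨e, he⟩ := (Finset.image₂ (· * ·) Λ (Finset.univ.image sl)).exists_notMem
  obtain ⟨P, p1, p2⟩ := sparse (insert e (Finset.image₂ (· * ·) Λ (Finset.univ.image sl)))
    (Finset.insert_nonempty _ _)
  have hm : ∀ c ∈ Λ, ∀ a, c * sl a ∈ Finset.image₂ (· * ·) Λ (Finset.univ.image sl) :=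
    fun c hc a => Finset.mem_image₂_of_mem hc (by simp)
  have sep : ∀ c ∈ Λ, ∀ c' ∈ Λ, ∀ a a', ∀ p ∈ P, ∀ p' ∈ P, c * sl a * p = c' * sl a' * p' →
      p = p' ∧ a = a' ∧ c = c' := by
    intro c hc c' hc' a a' p hp p' hp' h
    obtain rfl := p1 p hp p' hp' _ (Finset.mem_insert_of_mem (hm c hc a)) _
      (Finset.mem_insert_of_mem (hm c' hc' a')) h
    have h2 := mul_right_cancel h
    obtain rfl : a = a' := by
      by_contra hne
      refine s1 a a' hne (Finset.mem_image₂.2 ⟨c, hc, c', hc', ?_⟩)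
      rw [inv_mul_eq_iff_eq_mul, ← mul_assoc, h2]; simp
    exact ⟨rfl, rfl, mul_right_cancel h2⟩
  let ε : (Fin 5 ⊕ Fin 5 ⊕ (X ⊕ Fin l) × Fin 3) × (P × ℕ) ↪ J × Fin 5 × ℕ :=
    ⟨fun q => (sl (so q.1) * q.2.1, bl q.1 q.2.2), by
      rintro ⟨b, p, n⟩ ⟨b', p', n'⟩ h
      obtain ⟨e1, e2, -⟩ := sep 1 h1 1 h1 (so b) (so b') p p.2 p' p'.2
        (by simpa using congrArg Prod.fst h)
      obtain ⟨rfl, rfl⟩ := so_bl_inj e2 (congrArg Prod.snd h)
      rw [Subtype.ext e1]⟩
  let ι0 := (Equiv.Perm.viaEmbeddingHom ε).comp (pl _ (P × ℕ))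
  have i1 : ∀ σ b r, ι0 σ (ε (b, r)) = ε (σ b, r) := fun σ b r =>
    Equiv.Perm.viaEmbedding_apply _ _ _
  have i2 : ∀ σ z, ι0 σ z ≠ z → ∃ b r, z = ε (b, r) ∧ σ b ≠ b := by
    intro σ z hz
    by_cases h : z ∈ Set.range ε
    · obtain ⟨⟨b, r⟩, rfl⟩ := h
      exact ⟨b, r, rfl, fun hb => hz (by rw [i1, hb])⟩
    · exact absurd (Equiv.Perm.viaEmbedding_apply_of_notMem _ _ _ h) hz
  have i3 : ∀ c σ z, (Ltr J (Fin 5 × ℕ) c * ι0 σ * (Ltr J (Fin 5 × ℕ) c)⁻¹) z ≠ z →
      ∃ a, ∃ p ∈ P, z.1 = c * sl a * p := by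
    intro c σ z hz
    obtain ⟨b, r, h, -⟩ := i2 σ (Ltr J _ c⁻¹ z) fun h => hz (by
      rw [← map_inv, Equiv.Perm.mul_apply, Equiv.Perm.mul_apply, h]; simp)
    have h2 : c⁻¹ * z.1 = sl (so b) * r.1 := congrArg Prod.fst h
    exact ⟨so b, r.1, r.1.2, by rw [mul_assoc, ← h2]; simp⟩
  refine ⟨ι0.comp (alternatingGroup _).subtype, fun c hc c' hc' hne a b => ?_, ?_,
    fun Q hL hι => ?_⟩
  · apply Equiv.Perm.Disjoint.commute
    intro z
    by_contra hh
    push Not at hh
    obtain ⟨s, p, hp, e1⟩ := i3 c _ z hh.1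
    obtain ⟨s', p', hp', e2⟩ := i3 c' _ z hh.2
    exact hne (sep c hc c' hc' s s' p hp p' hp' (e1.symm.trans e2)).2.2
  · obtain ⟨p0, hp⟩ : ∃ p, p ∈ P := by
      obtain ⟨_, -, _, -, hp⟩ := p2 1
      exact ⟨_, hp⟩
    refine ⟨(e * p0, 0, 0), fun c hc a => ?_⟩
    by_contra hh
    obtain ⟨s, p, hp', e1⟩ := i3 c _ _ hh
    have e2 := p1 _ hp p hp' e (Finset.mem_insert_self _ _) _
      (Finset.mem_insert_of_mem (hm c hc s)) e1
    rw [← e2] at e1
    exact he (mul_right_cancel e1 ▸ hm c hc s)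
  · have hι' : ∀ σ ∈ alternatingGroup _, ι0 σ ∈ Q := fun σ h => hι ⟨σ, h⟩
    refine swindle_of P Q hL (Finset.image₂ (fun c c' => c⁻¹ * c') _ _) (fun g => by
      obtain ⟨d, hd, d', hd', h⟩ := p2 g
      exact ⟨_, Finset.mem_image₂_of_mem hd hd', h⟩) (fun k σ hσ => ?_) ?_
    · have f1 : ι0 (σ.viaEmbedding (fe k)) =
          res {j | (sl (so (fe k 0)))⁻¹ * j ∈ P} (hY k σ) := by
        refine Equiv.ext fun z => ?_
        by_cases hz : ∃ i r, z = ε (fe k i, r)
        · obtain ⟨i, ⟨p, n⟩, rfl⟩ := hz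
          have hj : (ε (fe k i, p, n)).1 ∈ {j | (sl (so (fe k 0)))⁻¹ * j ∈ P} := by
            change (sl (so (fe k 0)))⁻¹ * (sl (so (fe k i)) * p) ∈ P
            rw [so_fe k i]; simp
          rw [i1, Equiv.Perm.viaEmbedding_apply, res_apply, if_pos hj]
          change (sl (so (fe k (σ i))) * p, bl (fe k (σ i)) n) = (sl (so (fe k i)) * p,
            hY k σ (bl (fe k i) n))
          rw [so_fe k i, so_fe k (σ i), bl_fe, bl_fe, hY_apply]
        · have e1 : ι0 (σ.viaEmbedding (fe k)) z = z := by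
            by_contra hh
            obtain ⟨b, r, h, hb⟩ := i2 _ _ hh
            by_cases hr : b ∈ Set.range (fe k)
            · obtain ⟨i, rfl⟩ := hr
              exact hz ⟨i, r, h⟩
            · exact hb (Equiv.Perm.viaEmbedding_apply_of_notMem _ _ _ hr)
          rw [e1, res_apply]
          split_ifs with hj
          · rw [hY_fix]
            rintro ⟨⟨i, n⟩, h⟩
            refine hz ⟨i, (⟨_, hj⟩, n), ?_⟩
            change z = (sl (so (fe k i)) * _, bl (fe k i) n)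
            rw [so_fe k i, bl_fe, h]; simp
          · rfl
      have f2 : ι0 (σ.viaEmbedding (fe k)) ∈ Q := hι' _ (by
        rw [Equiv.Perm.mem_alternatingGroup, Equiv.Perm.viaEmbedding,
          Equiv.Perm.sign_extendDomain]
        exact hσ)
      rw [f1, ← res_conj] at f2
      have := mul_mem (mul_mem (inv_mem (hL (sl (so (fe k 0))))) f2) (hL (sl (so (fe k 0))))
      simpa [mul_assoc] using this
    · let K : Subgroup J :=
        { carrier := {g | ∃ π ∈ Q, (∀ z, z.2 ∉ blk false 0 → π z = z) ∧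
            ∀ p ∈ P, ∀ y ∈ blk false 0, π (p, y) = (g * p, y)}
          one_mem' := ⟨1, Q.one_mem, fun _ _ => rfl, fun p _ y _ => by simp⟩
          mul_mem' := by
            rintro g g' ⟨a, ha, a1, a2⟩ ⟨b, hb, b1, b2⟩
            refine ⟨Ltr J _ g * b * Ltr J _ g⁻¹ * a,
              mul_mem (mul_mem (mul_mem (hL _) hb) (hL _)) ha, fun z hz => ?_,
              fun p hp y hy => ?_⟩
            · simp only [Equiv.Perm.mul_apply, a1 z hz, Ltr_apply]
              rw [b1 (g⁻¹ * z.1, z.2) hz]; simp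
            · simp only [Equiv.Perm.mul_apply, a2 p hp y hy, Ltr_apply, inv_mul_cancel_left,
                b2 p hp y hy, mul_assoc]
          inv_mem' := by
            rintro g ⟨a, ha, a1, a2⟩
            refine ⟨Ltr J _ g⁻¹ * a⁻¹ * Ltr J _ g,
              mul_mem (mul_mem (hL _) (inv_mem ha)) (hL _), fun z hz => ?_, fun p hp y hy => ?_⟩
            · have : a⁻¹ (g * z.1, z.2) = (g * z.1, z.2) :=
                Equiv.Perm.inv_eq_iff_eq.2 (a1 (g * z.1, z.2) hz).symm
              simp only [Equiv.Perm.mul_apply, Ltr_apply, this, inv_mul_cancel_left]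
            · have : a⁻¹ (g * p, y) = (p, y) := Equiv.Perm.inv_eq_iff_eq.2 (a2 p hp y hy).symm
              simp only [Equiv.Perm.mul_apply, Ltr_apply, this] }
      have k1 : ∀ t k, sl (some (some t, k)) ∈ K := by
        intro t k
        refine ⟨ι0 (Equiv.swap (.inl 0) (.inr (.inl 0)) * Equiv.swap (.inl 0) (.inr (.inr (t, k)))),
          hι' _ ?_, fun z hz => ?_, ?_⟩
        · rw [Equiv.Perm.mem_alternatingGroup, map_mul, Equiv.Perm.sign_swap (by simp),
            Equiv.Perm.sign_swap (by simp)]; simp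
        · by_contra hh
          obtain ⟨b, r, rfl, hb⟩ := i2 _ _ hh
          apply hb
          have n1 : b ≠ .inl 0 := by rintro rfl; exact hz ⟨_, rfl⟩
          have n2 : b ≠ .inr (.inl 0) := by rintro rfl; exact hz ⟨_, rfl⟩
          have n3 : b ≠ .inr (.inr (t, k)) := by rintro rfl; exact hz ⟨_, rfl⟩
          rw [Equiv.Perm.mul_apply, Equiv.swap_apply_of_ne_of_ne n1 n3,
            Equiv.swap_apply_of_ne_of_ne n1 n2]
        · rintro p hp _ ⟨n, rfl⟩
          have e1 : (p, fr false (0, n)) = ε (.inl 0, ⟨p, hp⟩, n) := by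
            change _ = (sl none * p, _)
            rw [s0, one_mul]; rfl
          rw [e1, i1, Equiv.Perm.mul_apply, Equiv.swap_apply_left,
            Equiv.swap_apply_of_ne_of_ne (by simp) (by simp)]
          rfl
      have k2 : π.range ≤ K := range_le_of_gen π K fun x => by
        have := mul_mem (mul_mem (inv_mem (k1 (.inl x) 0)) (k1 (.inl x) 2))
          (inv_mem (k1 (.inl x) 1))
        rw [s2] at this
        simpa [mul_assoc] using this
      exact fun g => k2 (hπ g)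

/-- THEOREM K -/
theorem thmK : KStmt.{u} := kl ka ky km ks

end Pool.Agent.PD3K
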