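import Pool.Agent.Lib.MP_d98eb9_al.K.St

/-! Theorem K, blocks KY and KS. -/

namespace Pool.Agent.PD3K

universe u

open scoped commutatorElement

theorem ky : KY := by
  intro β _ _ l hl h5 hc
  have hs : IsSimpleGroup (alternatingGroup β) :=
    alternatingGroup.isSimpleGroup (by rw [Nat.card_eq_fintype_card]; omega)
  let S := {a : alternatingGroup β // a ^ l = 1}
  let e := Fintype.equivFin S
  refine ⟨Fintype.card S, FreeGroup.lift fun i => (e.symm i).1, ?_, fun i => ?_⟩
  · have hn : (Subgroup.closure {a : alternatingGroup β | a ^ l = 1}).Normal := by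
      have : Subgroup.closure {a : alternatingGroup β | a ^ l = 1} =
          Subgroup.normalClosure {a : alternatingGroup β | a ^ l = 1} := by
        unfold Subgroup.normalClosure
        congr 1
        ext a
        constructor
        · exact fun h => Group.subset_conjugatesOfSet h
        · intro h
          obtain ⟨b, hb, hba⟩ := Group.mem_conjugatesOfSet_iff.1 h
          obtain ⟨c, rfl⟩ := isConj_iff.1 hba
          change (c * b * c⁻¹) ^ l = 1
          rw [conj_pow, show b ^ l = 1 from hb]; simp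
      rw [this]; infer_instance
    have : Fact l.Prime := ⟨hl⟩
    have hnt : Nontrivial β := Fintype.one_lt_card_iff_nontrivial.1 (by omega)
    have hdvd : l ∣ Nat.card (alternatingGroup β) := by
      have h2 := two_mul_nat_card_alternatingGroup (α := β)
      have h3 : l ∣ 2 * Nat.card (alternatingGroup β) := by
        rw [h2, Nat.card_perm, Nat.card_eq_fintype_card]
        exact Nat.dvd_factorial hl.pos hc
      rcases (Nat.Prime.dvd_mul hl).1 h3 with h | h
      · have := Nat.le_of_dvd (by norm_num) h; omega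
      · exact h
    obtain ⟨a, ha⟩ := exists_prime_orderOf_dvd_card' l hdvd
    have htop : Subgroup.closure {a : alternatingGroup β | a ^ l = 1} = ⊤ := by
      rcases hn.eq_bot_or_eq_top with h | h
      · exfalso
        have h1 : a ∈ Subgroup.closure {a : alternatingGroup β | a ^ l = 1} :=
          Subgroup.subset_closure (by change a ^ l = 1; rw [← ha, pow_orderOf_eq_one])
        rw [h, Subgroup.mem_bot] at h1
        rw [h1, orderOf_one] at ha
        omega
      · exact h
    rw [← MonoidHom.range_eq_top, eq_top_iff, ← htop, Subgroup.closure_le]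
    intro b hb
    exact ⟨FreeGroup.of (e ⟨b, hb⟩), by simp⟩
  · rw [FreeGroup.lift_apply_of]; exact (e.symm i).2

section
variable {E Γ : Type*} [Group E] [Group Γ] {φ : E →* Γ}

/-- two homomorphisms that agree modulo the centre agree on the commutator subgroup -/
lemma eq_on_comm {F : Type*} [Group F] (hφ : φ.ker ≤ Subgroup.center E) (a b : F →* E)
    (h : ∀ x, φ (a x) = φ (b x)) : ∀ r ∈ commutator F, a r = b r := by
  have : commutator F ≤ a.eqLocus b := by
    rw [commutator_def, Subgroup.commutator_le]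
    intro x _ y _
    have hz : ∀ x, ∃ z ∈ Subgroup.center E, a x = b x * z := fun x =>
      ⟨(b x)⁻¹ * a x, hφ (by simp [MonoidHom.mem_ker, h x]), by simp⟩
    obtain ⟨z, hz1, hx⟩ := hz x
    obtain ⟨z', hz2, hy⟩ := hz y
    change a _ = b _
    rw [map_commutatorElement, map_commutatorElement, hx, hy]
    have c1 := Subgroup.mem_center_iff.1 hz1
    have c2 := Subgroup.mem_center_iff.1 hz2
    simp only [commutatorElement_def, mul_inv_rev]
    calc b x * z * (b y * z') * (z⁻¹ * (b x)⁻¹) * (z'⁻¹ * (b y)⁻¹)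
        = b x * (z * (b y * z')) * z⁻¹ * ((b x)⁻¹ * z'⁻¹) * (b y)⁻¹ := by group
      _ = b x * ((b y * z') * z) * z⁻¹ * (z' * b x)⁻¹ * (b y)⁻¹ := by rw [c1]; group
      _ = b x * ((b y * z') * z) * z⁻¹ * (b x * z')⁻¹ * (b y)⁻¹ := by rw [c2 (b x)]
      _ = _ := by group
  exact fun r hr => this hr

lemma comm_eq (hφ : φ.ker ≤ Subgroup.center E) {a a' b b' : E} (h : φ a = φ a')
    (h' : φ b = φ b') : ⁅a, b⁆ = ⁅a', b'⁆ := by
  have := eq_on_comm hφ (FreeGroup.lift fun i : Bool => cond i a b)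
    (FreeGroup.lift fun i : Bool => cond i a' b') (by
      intro x
      have : φ.comp (FreeGroup.lift fun i : Bool => cond i a b) =
          φ.comp (FreeGroup.lift fun i : Bool => cond i a' b') := by
        ext i; cases i <;> simp [h, h']
      exact DFunLike.congr_fun this x) ⁅FreeGroup.of true, FreeGroup.of false⁆
    (Subgroup.commutator_mem_commutator (Subgroup.mem_top _) (Subgroup.mem_top _))
  simpa [map_commutatorElement] using this

lemma comm_central (hφ : φ.ker ≤ Subgroup.center E) {a b : E} (h : Commute (φ a) (φ b)) :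
    ⁅a, b⁆ ∈ Subgroup.center E :=
  hφ (by rw [MonoidHom.mem_ker, map_commutatorElement]; exact h.commutator_eq)

lemma comm_mul (hφ : φ.ker ≤ Subgroup.center E) {a b c : E} (h : Commute (φ a) (φ c)) :
    ⁅a, b * c⁆ = ⁅a, b⁆ * ⁅a, c⁆ := by
  have := Subgroup.mem_center_iff.1 (comm_central hφ h) b
  calc ⁅a, b * c⁆ = ⁅a, b⁆ * (b * ⁅a, c⁆) * b⁻¹ := by simp only [commutatorElement_def]; group
    _ = _ := by rw [this]; group

/-- product of two commuting homomorphisms -/
def cmul {F : Type*} [Group F] (a b : F →* E) (h : ∀ x y, Commute (a x) (b y)) : F →* E :=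
  MonoidHom.mk' (fun x => a x * b x) fun x y => by
    simp only [map_mul]
    rw [mul_assoc, ← mul_assoc (a y), (h y x).eq]
    simp only [mul_assoc]

lemma exists_lift {X : Type*} (f : FreeGroup X →* Γ) (h : ∀ w, f w ∈ φ.range) :
    ∃ f' : FreeGroup X →* E, ∀ w, φ (f' w) = f w := by
  choose s hs using h
  refine ⟨FreeGroup.lift fun x => s (FreeGroup.of x), fun w => ?_⟩
  have : φ.comp (FreeGroup.lift fun x => s (FreeGroup.of x)) = f := by
    ext x; simp [hs]
  exact DFunLike.congr_fun this w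

end

theorem ks : KS.{u} := by
  intro X J _ Γ _ L Q ⟨γ, γ', hF, hF', h0, h1, h3, hL⟩ E _ φ hφ hQ π τ hτ r hr hrc
  choose a ha using fun i => exists_lift (φ := φ) ((γ i).comp π) fun w => hQ (hF.1 i _)
  choose a' ha' using fun i => exists_lift (φ := φ) ((γ' i).comp π) fun w => hQ (hF'.1 i _)
  simp only [MonoidHom.comp_apply] at ha ha'
  -- all pairings agree with the pairing of the first two copies
  have pair : ∀ (δ : Fin 5 → J →* Γ) (b : Fin 5 → FreeGroup X →* E), Frame Q δ →
      (∀ i w, φ (b i w) = δ i (π w)) → ∀ i j, i ≠ j → ∀ x y,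
        ⁅b i x, b j y⁆ = ⁅b 0 x, b 1 y⁆ := by
    intro δ b hδ hb i j hij x y
    obtain ⟨h, hh, hc⟩ := hδ.2.2 i j hij
    obtain ⟨k, rfl⟩ := hQ hh
    have hz := Subgroup.mem_center_iff.1 (comm_central hφ (a := b 0 x) (b := b 1 y)
      (by rw [hb, hb]; exact hδ.2.1 0 1 (by decide) _ _)) k
    rw [comm_eq hφ (a' := k * b 0 x * k⁻¹) (b' := k * b 1 y * k⁻¹)
      (by simp [hb, (hc _).1]) (by simp [hb, (hc _).2]), ← conjugate_commutatorElement, hz]
    simp
  have val : ∀ (δ : Fin 5 → J →* Γ) (b : Fin 5 → FreeGroup X →* E), Frame Q δ →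
      (∀ i w, φ (b i w) = δ i (π w)) → ∀ i, b i r = b 0 r := by
    intro δ b hδ hb i
    obtain ⟨j, hj⟩ := exists_ne i
    obtain ⟨h, hh, hc⟩ := hδ.2.2 i j hj.symm
    obtain ⟨k, rfl⟩ := hQ hh
    have hz := Subgroup.mem_center_iff.1 (hφ (show φ (b 0 r) = 1 by rw [hb, hr, map_one])) k
    have := eq_on_comm hφ (b i) ((MulAut.conj k).toMonoidHom.comp (b 0))
      (fun x => by simp [hb, (hc _).1]) r hrc
    rw [this]
    simp [hz]
  have p01 : ∀ x y, ⁅a' 0 x, a' 1 y⁆ = ⁅a 0 x, a 1 y⁆ := fun x y =>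
    comm_eq hφ (by rw [ha, ha', h0]) (by rw [ha, ha', h1])
  have triv : ∀ x y, ⁅a 0 x, a 1 y⁆ = 1 := by
    intro x y
    have e1 := pair γ a hF ha 0 3 (by decide) x y
    have e2 : ⁅a 0 x, a 3 y⁆ = ⁅a' 0 x, a' 3 y * a' 4 y⁆ :=
      comm_eq hφ (by rw [ha, ha', h0]) (by rw [map_mul, ha, ha', ha', h3])
    rw [e2, comm_mul hφ (by rw [ha', ha']; exact hF'.2.1 0 4 (by decide) _ _),
      pair γ' a' hF' ha' 0 3 (by decide), pair γ' a' hF' ha' 0 4 (by decide), p01] at e1
    simpa using e1
  have cm : ∀ i j, i ≠ j → ∀ x y, Commute (a i x) (a j y) := fun i j hij x y =>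
    commutatorElement_eq_one_iff_commute.1 (by rw [pair γ a hF ha i j hij, triv])
  have cm' : ∀ x y, Commute (a' 3 x) (a' 4 y) := fun x y =>
    commutatorElement_eq_one_iff_commute.1
      (by rw [pair γ' a' hF' ha' 3 4 (by decide), p01, triv])
  have v0 : a' 0 r = a 0 r := eq_on_comm hφ _ _ (fun x => by rw [ha, ha', h0]) r hrc
  have v1 : a 0 r = 1 := by
    have e1 : a 3 r = a' 3 r * a' 4 r := eq_on_comm hφ (a 3) (cmul (a' 3) (a' 4) cm')
      (fun x => by change _ = φ (_ * _); rw [map_mul, ha, ha', ha', h3]) r hrc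
    rw [val γ a hF ha 3, val γ' a' hF' ha' 3, val γ' a' hF' ha' 4, v0] at e1
    simpa using e1
  have v2 : ∀ i, a i r = 1 := fun i => by rw [val γ a hF ha i, v1]
  let b1 := cmul (a 0) (a 1) (cm 0 1 (by decide))
  let b2 := cmul b1 (a 2) fun x y =>
    (cm 0 2 (by decide) x y).mul_left (cm 1 2 (by decide) x y)
  let b3 := cmul b2 (a 3) fun x y =>
    ((cm 0 3 (by decide) x y).mul_left (cm 1 3 (by decide) x y)).mul_left (cm 2 3 (by decide) x y)
  let b4 := cmul b3 (a 4) fun x y =>
    (((cm 0 4 (by decide) x y).mul_left (cm 1 4 (by decide) x y)).mul_left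
      (cm 2 4 (by decide) x y)).mul_left (cm 3 4 (by decide) x y)
  have hb4 : ∀ x, b4 x = a 0 x * a 1 x * a 2 x * a 3 x * a 4 x := fun _ => rfl
  rw [eq_on_comm hφ τ b4 (fun x => by
    have := DFunLike.congr_fun hτ x
    simp only [MonoidHom.comp_apply] at this
    rw [this, hb4, hL]; simp [ha]) r hrc, hb4]
  simp [v2]

end Pool.Agent.PD3K
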