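import Mathlib

/-! Statements for Theorem K (internal lemma for splittings of PD_3-groups). -/

namespace Pool.Agent.PD3K

universe u

/-- `d` is a derivation of the free group into the permutation module on `J`. -/
def IsDer {X : Type} {J : Type u} [Group J] (π : FreeGroup X →* J)
    (d : FreeGroup X → J →₀ ℤ) : Prop :=
  ∀ u v g, d (u * v) g = d u g + d v ((π u)⁻¹ * g)

/-- torsion free -/
def TF (J : Type u) [Group J] : Prop := ∀ (g : J) (n : ℕ), n ≠ 0 → g ^ n = 1 → g = 1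

/-- THEOREM K. -/
def KStmt : Prop :=
  ∀ (X : Type) [Finite X] (J : Type u) [Group J] [Infinite J] (π : FreeGroup X →* J)
    (d : FreeGroup X → J →₀ ℤ), TF J → Function.Surjective π → IsDer π d →
    (∃ n, π n = 1 ∧ d n ≠ 0) → ∀ R0 B : Finset (FreeGroup X),
    (∀ r ∈ R0, π r = 1 ∧ d r = 0) → (∀ w ∈ B, π w ≠ 1) →
    ∃ N : Subgroup (FreeGroup X), N.Normal ∧ (∀ r ∈ R0, r ∈ N) ∧ (∀ w ∈ B, w ∉ N) ∧
      ∀ r ∈ Subgroup.normalClosure (R0 : Set (FreeGroup X)), r ∈ commutator (FreeGroup X) →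
        r ∈ ⁅(⊤ : Subgroup (FreeGroup X)), N⁆

/-- product of the level components, in a fixed order -/
noncomputable def levProd {J : Type u} {P Γ : Type*} [Group P] [Group Γ] (Λ : Finset J)
    (lev : J → P →* Γ) (f : J → P) : Γ :=
  (Λ.toList.map fun c => lev c (f c)).prod

/-- the twisted homomorphism -/
noncomputable def rho {X : Type} {J : Type u} {P Γ : Type*} [Group P] [Group Γ] (κ : X → J → P)
    (Λ : Finset J) (τ : FreeGroup X →* Γ) (lev : J → P →* Γ) : FreeGroup X →* Γ :=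
  FreeGroup.lift fun x => levProd Λ lev (κ x) * τ (FreeGroup.of x)

/-- equivariant levels that commute on `Λ` -/
def Levels {X : Type} {J : Type u} [Group J] {P Γ : Type*} [Group P] [Group Γ]
    (π : FreeGroup X →* J) (Λ : Finset J) (τ : FreeGroup X →* Γ) (lev : J → P →* Γ) : Prop :=
  (∀ w c f, τ w * lev c f * (τ w)⁻¹ = lev (π w * c) f) ∧
    ∀ c ∈ Λ, ∀ c' ∈ Λ, c ≠ c' → ∀ f f', Commute (lev c f) (lev c' f')

/-- conclusions of block A for a target group `Γ` -/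
def AConcl {X : Type} {J : Type u} [Group J] (π : FreeGroup X →* J) (R0 B : Finset (FreeGroup X))
    {p : ℕ} {P : Type} [Group P] (y : FreeGroup (Fin p) →* P) (κ : X → J → FreeGroup (Fin p))
    (Λ : Finset J) (Γ : Type*) [Group Γ] : Prop :=
  ∀ (τ : FreeGroup X →* Γ) (lev : J → FreeGroup (Fin p) →* Γ), Levels π Λ τ lev →
    (∀ r ∈ R0, rho κ Λ τ lev r = τ r) ∧
    (∀ w ∈ B, rho κ Λ τ lev w * (τ w)⁻¹ ∈ ⨆ c ∈ Λ, (lev c).range) ∧
    ((∀ n, π n = 1 → τ n = 1) → (∀ c f, y f = 1 → lev c f = 1) →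
      (lev 1).range ≤ (rho κ Λ τ lev).range ∧ τ.range ≤ (rho κ Λ τ lev).range)

/-- Block KA: gauges. -/
def KA : Prop :=
  ∀ (X : Type) [Finite X] (J : Type u) [Group J] [Infinite J] (π : FreeGroup X →* J)
    (d : FreeGroup X → J →₀ ℤ), TF J → Function.Surjective π → IsDer π d →
    (∃ n, π n = 1 ∧ d n ≠ 0) → ∀ R0 B : Finset (FreeGroup X),
    (∀ r ∈ R0, π r = 1 ∧ d r = 0) →
    ∃ m0 : ℕ, ∀ (l p : ℕ) (P : Type) [Group P] [IsSimpleGroup P] (y : FreeGroup (Fin p) →* P),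
      l.Prime → m0 < l → (∃ a b : P, a * b ≠ b * a) → Function.Surjective y →
      (∀ i, y (FreeGroup.of i) ^ l = 1) →
      ∃ (κ : X → J → FreeGroup (Fin p)) (Λ : Finset J), 1 ∈ Λ ∧
        AConcl π R0 B y κ Λ (Equiv.Perm (J × Fin 5 × ℕ)) ∧
        ∀ (E : Type) [Group E], AConcl π R0 B y κ Λ E

/-- Block KY: the alternating group is generated by elements killed by a prime `l`. -/
def KY : Prop :=
  ∀ (β : Type) [Fintype β] [DecidableEq β] (l : ℕ), l.Prime → 5 ≤ l → l ≤ Fintype.card β →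
    ∃ (p : ℕ) (y : FreeGroup (Fin p) →* alternatingGroup β), Function.Surjective y ∧
      ∀ i, y (FreeGroup.of i) ^ l = 1

/-- left translation on the first factor -/
def Ltr (J : Type u) [Group J] (Y : Type) : J →* Equiv.Perm (J × Y) where
  toFun g := Equiv.prodCongr (Equiv.mulLeft g) (Equiv.refl Y)
  map_one' := by ext x <;> simp
  map_mul' a b := by ext x <;> simp [mul_assoc]

/-- five commuting copies of `J` in `Q`, ordered pairs conjugate in `Q` -/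
def Frame {J : Type u} [Group J] {Γ : Type*} [Group Γ] (Q : Subgroup Γ)
    (γ : Fin 5 → J →* Γ) : Prop :=
  (∀ i g, γ i g ∈ Q) ∧ (∀ i j, i ≠ j → ∀ g g', Commute (γ i g) (γ j g')) ∧
    ∀ i j, i ≠ j → ∃ h ∈ Q, ∀ g, h * γ 0 g * h⁻¹ = γ i g ∧ h * γ 1 g * h⁻¹ = γ j g

/-- the swindle data -/
def Swindle {J : Type u} [Group J] {Γ : Type*} [Group Γ] (L : J →* Γ) (Q : Subgroup Γ) : Prop :=
  ∃ γ γ' : Fin 5 → J →* Γ, Frame Q γ ∧ Frame Q γ' ∧ γ' 0 = γ 0 ∧ γ' 1 = γ 1 ∧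
    (∀ g, γ 3 g = γ' 3 g * γ' 4 g) ∧ ∀ g, L g = γ 0 g * γ 1 g * γ 2 g * γ 3 g * γ 4 g

/-- Block KM (model: slots KG, sparse set KP, levels, free point, swindle elements KC). -/
def KM : Prop :=
  ∀ (X : Type) [Finite X] (J : Type u) [Group J] [Infinite J] (π : FreeGroup X →* J),
    Function.Surjective π → ∀ l : ℕ, ∃ (β : Type) (_ : Fintype β) (_ : DecidableEq β),
      l ≤ Fintype.card β ∧ ∀ Λ : Finset J, 1 ∈ Λ →
      ∃ ι : alternatingGroup β →* Equiv.Perm (J × Fin 5 × ℕ),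
        (∀ c ∈ Λ, ∀ c' ∈ Λ, c ≠ c' → ∀ a b,
          Commute (Ltr J (Fin 5 × ℕ) c * ι a * (Ltr J (Fin 5 × ℕ) c)⁻¹)
            (Ltr J (Fin 5 × ℕ) c' * ι b * (Ltr J (Fin 5 × ℕ) c')⁻¹)) ∧
        (∃ z, ∀ c ∈ Λ, ∀ a, (Ltr J (Fin 5 × ℕ) c * ι a * (Ltr J (Fin 5 × ℕ) c)⁻¹) z = z) ∧
        ∀ Q : Subgroup (Equiv.Perm (J × Fin 5 × ℕ)), (∀ g, Ltr J (Fin 5 × ℕ) g ∈ Q) →
          (∀ a, ι a ∈ Q) → Swindle (Ltr J (Fin 5 × ℕ)) Q

/-- Block KS: the swindle kills the class in every central extension. -/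
def KS : Prop :=
  ∀ (X : Type) (J : Type u) [Group J] (Γ : Type u) [Group Γ] (L : J →* Γ) (Q : Subgroup Γ),
    Swindle L Q → ∀ (E : Type) [Group E] (φ : E →* Γ), φ.ker ≤ Subgroup.center E →
    Q ≤ φ.range → ∀ (π : FreeGroup X →* J) (τ : FreeGroup X →* E), φ.comp τ = L.comp π →
    ∀ r, π r = 1 → r ∈ commutator (FreeGroup X) → τ r = 1

/-- Block KL: assembly. -/
def KL : Prop := KA.{u} → KY → KM.{u} → KS.{u} → KStmt.{u}

end Pool.Agent.PD3K
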