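import Pool.Agent.Lib.MP_d98eb9_al.K.St
import Pool.Agent.Lib.MP_12eaff_co.BK.Hax

/-! Sparse sets that are syndetic along finitely many cyclic directions. -/

namespace Pool.Agent.PD3K

universe u

/-- Independent transversals for infinitely many parts. -/
theorem Syn.hax_inf {ι W : Type} (M d : ℕ) (pt : ι → Fin M → W) (H : W → W → Prop)
    (hs : ∀ u v, H u v → H v u) (hN : ∀ v, ∃ N : Finset W, N.card ≤ d ∧ ∀ u, H v u → u ∈ N)
    (hinj : ∀ i j k l, pt i k = pt j l → i = j ∧ k = l) (hd : 1 ≤ d) (hM : 2 * d ≤ M) :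
    ∃ χ : ι → Fin M, ∀ i j, i ≠ j → ¬ H (pt i (χ i)) (pt j (χ j)) := by
  classical
  rcases isEmpty_or_nonempty ι with h | ⟨⟨i0⟩⟩
  · exact ⟨fun i => h.elim i, fun i => h.elim i⟩
  have key : ∀ s : Finset ι, ∃ χ : ι → Fin M, ∀ i ∈ s, ∀ j ∈ s, i ≠ j →
      ¬ H (pt i (χ i)) (pt j (χ j)) := by
    intro s
    obtain ⟨g, h1, h2⟩ := Pool.Agent.Lib.MP_12eaff_co.BK.hax_ne ι W s
      (fun i => Finset.univ.image (pt i)) H d ⟨pt i0 ⟨0, by omega⟩⟩ hs hN
      (fun i _ j _ hne => Finset.disjoint_left.mpr fun w hi hj => by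
        obtain ⟨k, -, rfl⟩ := Finset.mem_image.mp hi
        obtain ⟨l, -, e⟩ := Finset.mem_image.mp hj
        exact hne (hinj _ _ _ _ e).1.symm) hd fun i _ => by
        rw [Finset.card_image_of_injective _ fun k l e => (hinj _ _ _ _ e).2]
        simpa using hM
    have h3 : ∀ i, ∃ k : Fin M, i ∈ s → pt i k = g i := fun i => by
      by_cases hi : i ∈ s
      · obtain ⟨k, -, e⟩ := Finset.mem_image.mp (h1 i hi)
        exact ⟨k, fun _ => e⟩
      · exact ⟨⟨0, by omega⟩, fun h => absurd h hi⟩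
    choose χ hχ using h3
    exact ⟨χ, fun i hi j hj hne => by rw [hχ i hi, hχ j hj]; exact h2 i hi j hj hne⟩
  choose g hg using key
  obtain ⟨χ, hχ⟩ := Finset.rado_selection (β := fun _ => Fin M) g
  refine ⟨χ, fun i j hne => ?_⟩
  obtain ⟨s, hs1, hs2⟩ := hχ {i, j}
  rw [hs2 i (by simp), hs2 j (by simp)]
  exact hg s i (hs1 (by simp)) j (hs1 (by simp)) hne

/-- A position along the orbits of an element of infinite order. -/
theorem Syn.exists_pos {J : Type u} [Group J] (hJ : TF J) {t : J} (ht : t ≠ 1) :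
    ∃ pos : J → ℤ, ∀ (k : ℤ) g, pos (t ^ k * g) = pos g + k := by
  have hinj : Function.Injective fun k : ℤ => t ^ k :=
    injective_zpow_iff_not_isOfFinOrder.mpr fun h => by
      obtain ⟨n, hn, e⟩ := isOfFinOrder_iff_pow_eq_one.mp h
      exact ht (hJ t n hn.ne' e)
  have hex : ∀ g : J, ∃ n : ℤ,
      t ^ n = g * ((g⁻¹ : J) : J ⧸ Subgroup.zpowers t).out := fun g => by
    obtain ⟨k, hk⟩ := QuotientGroup.mk_out_eq_mul (Subgroup.zpowers t) g⁻¹
    obtain ⟨n, hn⟩ := Subgroup.mem_zpowers_iff.mp k.2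
    exact ⟨n, by rw [hk, hn, mul_inv_cancel_left]⟩
  choose pos hp using hex
  refine ⟨pos, fun k g => hinj ?_⟩
  have e : (((t ^ k * g)⁻¹ : J) : J ⧸ Subgroup.zpowers t) = ((g⁻¹ : J) : J ⧸ _) :=
    QuotientGroup.eq.mpr (by simp)
  change t ^ _ = t ^ _
  rw [hp, e, add_comm, zpow_add, hp, mul_assoc]

/-- Pairwise disjoint, jointly sparse sets, each syndetic along every `t a`. -/
theorem syn {J : Type u} [Group J] [Countable J] (hJ : TF J) {A I : Type} [Finite A] [Finite I]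
    (t : A → J) (ht : ∀ a, t a ≠ 1) (D : Finset J) (hD : (1 : J) ∉ D) :
    ∃ (M : ℕ) (P : I → Set J), (∀ i j p, p ∈ P i → p ∈ P j → i = j) ∧
      (∀ i j, ∀ p ∈ P i, ∀ d ∈ D, d * p ∉ P j) ∧ ∀ a i g, ∃ k < M, t a ^ k * g ∈ P i := by
  classical
  have := Fintype.ofFinite A
  have := Fintype.ofFinite I
  obtain ⟨c, hc⟩ := exists_injective_nat J
  choose pos hpos using fun a => Syn.exists_pos hJ (ht a)
  obtain ⟨d, hd⟩ : ∃ d, d = Fintype.card (A × I) * (2 * D.card + 1) + 1 := ⟨_, rfl⟩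
  have hM : (0 : ℤ) < (2 * d : ℕ) := by omega
  obtain ⟨χ, hχ⟩ := Syn.hax_inf
    (ι := {w : (A × I) × Set.range c // ((2 * d : ℕ) : ℤ) ∣ pos w.1.1 w.2.2.choose})
    (W := (A × I) × ℕ) (2 * d) d
    (fun i k => (i.1.1, c (t i.1.1.1 ^ (k : ℕ) * i.1.2.2.choose)))
    (fun u v => ∃ p q, u.2 = c p ∧ v.2 = c q ∧ (p = q ∨ ∃ e ∈ D, q = e * p ∨ p = e * q))
    (fun u v ⟨p, q, h1, h2, h3⟩ =>
      ⟨q, p, h2, h1, h3.imp Eq.symm fun ⟨e, he, h⟩ => ⟨e, he, h.symm⟩⟩)
    (fun v => by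
      by_cases hv : ∃ p, v.2 = c p
      · obtain ⟨p, hp⟩ := hv
        refine ⟨Finset.univ ×ˢ (insert p (D.image (· * p) ∪ D.image (·⁻¹ * p))).image c, ?_, ?_⟩
        · have h1 := Finset.card_image_le (s := insert p (D.image (· * p) ∪ D.image (·⁻¹ * p)))
            (f := c)
          have h2 := Finset.card_insert_le p (D.image (· * p) ∪ D.image (·⁻¹ * p))
          have h3 := Finset.card_union_le (D.image (· * p)) (D.image (·⁻¹ * p))
          have h4 := Finset.card_image_le (s := D) (f := (· * p))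
          have h5 := Finset.card_image_le (s := D) (f := (·⁻¹ * p))
          rw [Finset.card_product, Finset.card_univ, hd]
          exact Nat.le_succ_of_le (Nat.mul_le_mul_left _ (by omega))
        · rintro u ⟨p', q, h1, h2, h3⟩
          obtain rfl : p = p' := hc (hp.symm.trans h1)
          refine Finset.mem_product.mpr ⟨Finset.mem_univ _, h2 ▸ Finset.mem_image_of_mem _ ?_⟩
          rcases h3 with rfl | ⟨e, he, rfl | rfl⟩
          · exact Finset.mem_insert_self _ _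
          · exact Finset.mem_insert_of_mem (Finset.mem_union_left _ (Finset.mem_image_of_mem _ he))
          · exact Finset.mem_insert_of_mem (Finset.mem_union_right _
              (Finset.mem_image.mpr ⟨e, he, by simp⟩))
      · exact ⟨∅, by simp, fun u ⟨p, _, h1, _⟩ => absurd ⟨p, h1⟩ hv⟩)
    (by
      rintro ⟨⟨x, n⟩, h1⟩ ⟨⟨y, m⟩, h2⟩ k l e
      obtain ⟨rfl, e2⟩ : x = y ∧ _ := Prod.mk.inj e
      have e3 := hc e2
      have e4 := congrArg (pos x.1) e3
      rw [← zpow_natCast, ← zpow_natCast, hpos, hpos] at e4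
      have e5 : ((2 * d : ℕ) : ℤ) ∣ ((l : ℕ) : ℤ) - ((k : ℕ) : ℤ) := by
        have := dvd_sub h1 h2
        rwa [show pos x.1 n.2.choose - pos x.1 m.2.choose = ((l : ℕ) : ℤ) - ((k : ℕ) : ℤ) by
          simp only at e4; omega] at this
      have hk := k.2
      have hl := l.2
      obtain rfl : k = l := Fin.ext (by
        have := Int.eq_zero_of_abs_lt_dvd e5 (abs_lt.mpr ⟨by omega, by omega⟩)
        omega)
      have e6 := mul_left_cancel e3
      refine ⟨Subtype.ext (Prod.ext rfl (Subtype.ext ?_)), rfl⟩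
      exact n.2.choose_spec.symm.trans ((congrArg c e6).trans m.2.choose_spec))
    (by omega) le_rfl
  refine ⟨2 * (2 * d), fun i => {p | ∃ x, x.1.1.2 = i ∧
    p = t x.1.1.1 ^ (χ x : ℕ) * x.1.2.2.choose}, ?_, ?_, fun a i g => ?_⟩
  · rintro _ _ _ ⟨x, rfl, rfl⟩ ⟨y, rfl, e⟩
    by_contra hne
    exact hχ x y (fun e' => hne (by rw [e'])) ⟨_, _, rfl, rfl, Or.inl e⟩
  · rintro _ _ _ ⟨x, rfl, rfl⟩ e he ⟨y, rfl, e2⟩
    by_cases hxy : x = y
    · subst hxy
      exact hD (mul_eq_right.mp e2 ▸ he)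
    · exact hχ x y hxy ⟨_, _, rfl, rfl, Or.inr ⟨e, he, Or.inl e2.symm⟩⟩
  · obtain ⟨m, hm⟩ : ∃ m : ℕ, (m : ℤ) = (-pos a g) % (2 * d : ℕ) :=
      ⟨_, Int.toNat_of_nonneg (Int.emod_nonneg _ hM.ne')⟩
    have hm2 := Int.emod_lt_of_pos (-pos a g) hM
    have hr : c (t a ^ m * g) ∈ Set.range c := ⟨_, rfl⟩
    have e : hr.choose = t a ^ m * g := hc hr.choose_spec
    have hdv : ((2 * d : ℕ) : ℤ) ∣ pos a hr.choose := by
      rw [e, ← zpow_natCast, hpos, hm]
      exact ⟨-((-pos a g) / (2 * d : ℕ)), by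
        have := Int.emod_add_mul_ediv (-pos a g) (2 * d : ℕ)
        linear_combination this⟩
    have hk := (χ ⟨((a, i), ⟨_, hr⟩), hdv⟩).2
    refine ⟨χ ⟨((a, i), ⟨_, hr⟩), hdv⟩ + m, by omega, ⟨((a, i), ⟨_, hr⟩), hdv⟩, rfl, ?_⟩
    rw [pow_add, mul_assoc]
    exact congrArg _ e.symm

end Pool.Agent.PD3K
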