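import Pool.Agent.Lib.MP_d98eb9_al.K.St
import Pool.Agent.Lib.MP_12eaff_co.BK.Hax

/-! Sparse sets that meet every long interval of every line. -/

namespace Pool.Agent.PD3K.KMv

universe u

variable {J : Type u} [Group J]

theorem zpow_inj (hJ : TF J) {t : J} (ht : t ≠ 1) {a b : ℤ} (h : t ^ a = t ^ b) : a = b := by
  by_contra hn
  refine ht (hJ t (a - b).natAbs (by omega) ?_)
  have h1 : t ^ (a - b) = 1 := by rw [zpow_sub, h, mul_inv_cancel]
  rcases Int.natAbs_eq (a - b) with e | e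
  · rwa [e, zpow_natCast] at h1
  · rwa [e, zpow_neg, zpow_natCast, inv_eq_one] at h1

/-- a height function along the lines of `t` -/
theorem height (hJ : TF J) {t : J} (ht : t ≠ 1) :
    ∃ n : J → ℤ, ∀ (k : ℤ) g, n (t ^ k * g) = k + n g := by
  have h : ∀ g : J, ∃ k : ℤ, t ^ k = g * ((g⁻¹ : J) : J ⧸ Subgroup.zpowers t).out := fun g => by
    have := QuotientGroup.eq.mp (QuotientGroup.out_eq' ((g⁻¹ : J) : J ⧸ Subgroup.zpowers t)).symm
    rw [inv_inv] at this
    exact Subgroup.mem_zpowers_iff.mp this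
  choose n hn using h
  refine ⟨n, fun k g => zpow_inj hJ ht ?_⟩
  have e : (((t ^ k * g)⁻¹ : J) : J ⧸ Subgroup.zpowers t) = (g⁻¹ : J) :=
    QuotientGroup.eq.mpr (by simp)
  rw [hn, zpow_add, hn, e, mul_assoc]

/-- independent transversals of infinitely many parts -/
theorem hax_inf {ι : Type u} {d : ℕ} (H : ι × Fin (2 * (d + 1)) → ι × Fin (2 * (d + 1)) → Prop)
    (hs : ∀ u v, H u v → H v u)
    (hd : ∀ v, ∃ N : Finset (ι × Fin (2 * (d + 1))), N.card ≤ d ∧ ∀ u, H v u → u ∈ N) :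
    ∃ χ : ι → Fin (2 * (d + 1)), ∀ i j, i ≠ j → ¬ H (i, χ i) (j, χ j) := by
  classical
  have key : ∀ s : Finset ι, ∃ g : s → Fin (2 * (d + 1)),
      ∀ i j : s, i ≠ j → ¬ H (i, g i) (j, g j) := fun s => by
    rcases s.eq_empty_or_nonempty with rfl | ⟨x, hx⟩
    · exact ⟨fun _ => 0, fun i => absurd i.2 (Finset.notMem_empty _)⟩
    let e := s.equivFin
    let F : Fin s.card × Fin (2 * (d + 1)) → ι × Fin (2 * (d + 1)) := fun p => (e.symm p.1, p.2)
    have hF : Function.Injective F := by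
      rintro ⟨a, b⟩ ⟨a', b'⟩ h
      simp only [F, Prod.mk.injEq] at h
      exact Prod.ext (e.symm.injective (Subtype.ext h.1)) h.2
    obtain ⟨g, h1, h2⟩ := Pool.Agent.Lib.MP_12eaff_co.BK.hax_ne (Fin s.card)
      (Fin s.card × Fin (2 * (d + 1))) Finset.univ (fun i => {i} ×ˢ Finset.univ)
      (fun u v => H (F u) (F v)) (d + 1) ⟨(e ⟨x, hx⟩, 0)⟩ (fun u v => hs _ _)
      (fun v => by
        obtain ⟨N, k1, k2⟩ := hd (F v)
        refine ⟨N.preimage F hF.injOn, ?_, fun u hu => Finset.mem_preimage.mpr (k2 _ hu)⟩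
        exact (Finset.card_le_card_of_injOn F (fun u hu => Finset.mem_preimage.mp hu)
          hF.injOn).trans (by omega))
      (fun i _ j _ hij => Finset.disjoint_left.mpr fun p hp hq => hij (by
        simp only [Finset.mem_product, Finset.mem_singleton] at hp hq
        rw [← hp.1, hq.1])) (by omega) (fun i _ => by simp)
    refine ⟨fun i => (g (e i)).2, fun i j hij => ?_⟩
    have h3 : ∀ i : s, F (g (e i)) = (i.1, (g (e i)).2) := fun i => by
      have := h1 (e i) (Finset.mem_univ _)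
      simp only [Finset.mem_product, Finset.mem_singleton] at this
      simp [F, this.1]
    have := h2 (e i) (Finset.mem_univ _) (e j) (Finset.mem_univ _) (e.injective.ne hij)
    rwa [h3, h3] at this
  choose g hg using key
  obtain ⟨χ, hχ⟩ := Finset.rado_selection_subtype (β := fun _ : ι => Fin (2 * (d + 1))) g
  refine ⟨χ, fun i j hij => ?_⟩
  obtain ⟨t, ht, h⟩ := hχ {i, j}
  have e1 := h ⟨i, by simp⟩
  have e2 := h ⟨j, by simp⟩
  simp only at e1 e2
  rw [e1, e2]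
  exact hg t ⟨i, ht (by simp)⟩ ⟨j, ht (by simp)⟩ fun h => hij (congrArg Subtype.val h)

/-- Sparse sets that are syndetic on the lines of finitely many elements. -/
theorem transversal (hJ : TF J) {A : Type} [Finite A] (t : A → J) (ht : ∀ a, t a ≠ 1)
    (Λ : Finset J) : ∃ (m : ℕ) (P : A → Set J),
      (∀ a b, ∀ p ∈ P a, ∀ q ∈ P b, ∀ c ∈ Λ, ∀ c' ∈ Λ, c * p = c' * q → c = c' ∧ a = b) ∧
      ∀ a g, ∃ i < m, t a ^ i * g ∈ P a := by
  classical
  have := Fintype.ofFinite A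
  choose n hn using fun a => height hJ (ht a)
  let d := ((Finset.univ : Finset A) ×ˢ Λ ×ˢ Λ).card
  let ι := {x : A × J // ((2 * (d + 1) : ℕ) : ℤ) ∣ n x.1 x.2}
  let F : ι × Fin (2 * (d + 1)) → A × J := fun v => (v.1.1.1, t v.1.1.1 ^ (v.2 : ℕ) * v.1.1.2)
  have hF : Function.Injective F := by
    rintro ⟨⟨⟨a, g⟩, h⟩, i⟩ ⟨⟨⟨a', g'⟩, h'⟩, i'⟩ e
    simp only [F, Prod.mk.injEq] at e h h'
    obtain ⟨rfl, e⟩ := e
    have e1 := congrArg (n a) e
    rw [← zpow_natCast, ← zpow_natCast, hn, hn] at e1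
    obtain rfl : i = i' := by
      have h1 : ((2 * (d + 1) : ℕ) : ℤ) ∣ (i : ℕ) - (i' : ℕ) := by
        rw [show ((i : ℕ) : ℤ) - (i' : ℕ) = n a g' - n a g by omega]
        exact dvd_sub h' h
      have h2 := Int.eq_zero_of_abs_lt_dvd h1 (by
        have := i.2
        have := i'.2
        rw [abs_lt]
        constructor <;> omega)
      exact Fin.ext (by omega)
    obtain rfl := mul_left_cancel e
    rfl
  obtain ⟨χ, hχ⟩ := hax_inf (ι := ι) (d := d)
    (fun u v => ∃ c ∈ Λ, ∃ c' ∈ Λ, c * (F u).2 = c' * (F v).2)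
    (fun u v ⟨c, h, c', h', e⟩ => ⟨c', h', c, h, e.symm⟩) fun v => by
      refine ⟨((Finset.univ ×ˢ Λ ×ˢ Λ).image fun x : A × J × J =>
        (x.1, x.2.2⁻¹ * (x.2.1 * (F v).2))).preimage F hF.injOn, ?_, fun u ⟨c, h, c', h', e⟩ =>
          Finset.mem_preimage.mpr (Finset.mem_image.mpr ⟨((F u).1, c, c'), by simp [h, h'], ?_⟩)⟩
      · exact (Finset.card_le_card_of_injOn F (fun u hu => Finset.mem_preimage.mp hu)
          hF.injOn).trans Finset.card_image_le
      · simp [e]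
  refine ⟨4 * (d + 1), fun a => {p | ∃ x : ι, F (x, χ x) = (a, p)}, ?_, fun a g => ?_⟩
  · rintro a b p ⟨x, hx⟩ q ⟨y, hy⟩ c hc c' hc' e
    obtain rfl : x = y := by_contra fun h => hχ x y h ⟨c, hc, c', hc', by rw [hx, hy]; exact e⟩
    obtain ⟨rfl, rfl⟩ := Prod.mk.inj (hx.symm.trans hy)
    exact ⟨mul_right_cancel e, rfl⟩
  · obtain ⟨j, hj, h⟩ : ∃ j : ℕ, j < 2 * (d + 1) ∧ ((2 * (d + 1) : ℕ) : ℤ) ∣ j + n a g := by
      have h0 : (0 : ℤ) < ((2 * (d + 1) : ℕ) : ℤ) := by omega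
      have h1 := Int.emod_nonneg (-n a g) h0.ne'
      have h2 := Int.emod_lt_of_pos (-n a g) h0
      refine ⟨(-n a g % ((2 * (d + 1) : ℕ) : ℤ)).toNat, by omega, ?_⟩
      rw [Int.toNat_of_nonneg h1]
      refine ⟨-(-n a g / ((2 * (d + 1) : ℕ) : ℤ)), ?_⟩
      linear_combination Int.emod_add_mul_ediv (-n a g) ((2 * (d + 1) : ℕ) : ℤ)
    let x : ι := ⟨(a, t a ^ j * g), by simpa only [← zpow_natCast, hn] using h⟩
    refine ⟨χ x + j, by have := (χ x).2; omega, x, ?_⟩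
    simp [F, x, pow_add, mul_assoc]

end Pool.Agent.PD3K.KMv
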