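import Pool.Agent.Lib.MP_d98eb9_al.K.M1
import Pool.Agent.Lib.MP_12eaff_co.BK.Hax

/-! Variant of Theorem K, model, part 1: slots in given sets, a sparse set that meets every long
interval of finitely many families of lines. -/

namespace Pool.Agent.PD3K.KMv

universe u

variable {J : Type u} [Group J]

lemma slotsW [Infinite J] (Sg : Finset J) {I : Type} [Fintype I] (W : I → Set J)
    (hW : ∀ i, (W i).Infinite) :
    ∃ sl : Option I → J, sl none = 1 ∧ (∀ a b, a ≠ b → sl a * (sl b)⁻¹ ∉ Sg) ∧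
      ∀ i, sl (some i) ∈ W i := by
  classical
  have key : ∀ A : Finset I, ∃ sl : Option I → J, sl none = 1 ∧
      (∀ a b, (∀ q ∈ a, q ∈ A) → (∀ q ∈ b, q ∈ A) → a ≠ b → sl a * (sl b)⁻¹ ∉ Sg) ∧
      ∀ i ∈ A, sl (some i) ∈ W i := by
    intro A
    induction A using Finset.induction_on with
    | empty =>
      refine ⟨fun _ => 1, rfl, ?_, by simp⟩
      rintro (_ | a) (_ | b) ha hb hab
      · exact absurd rfl hab
      · simpa using hb b rfl
      · simpa using ha a rfl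
      · simpa using ha a rfl
    | insert t A ht ih =>
      obtain ⟨sl, h0, h1, h2⟩ := ih
      obtain ⟨F, hF, k⟩ := exists_far Sg (Finset.univ.image sl) 1 1
      obtain ⟨y, hy, hy'⟩ := ((hW t).sdiff hF).nonempty
      have l1 := fun b => k y hy' (sl b) (by simp)
      simp only [one_mul, mul_one] at l1
      have c1 : ∀ a : Option I, (∀ q ∈ a, q ∈ insert t A) → a ≠ some t → ∀ q ∈ a, q ∈ A := by
        intro a ha hne q hq
        rcases Finset.mem_insert.1 (ha q hq) with rfl | h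
        · exact absurd hq hne
        · exact h
      refine ⟨Function.update sl (some t) y, by simpa using h0, fun a b ha hb hab => ?_,
        fun s hs => ?_⟩
      · by_cases e : a = some t <;> by_cases e' : b = some t
        · exact absurd (e.trans e'.symm) hab
        · rw [e, Function.update_self, Function.update_of_ne e']; exact (l1 b).1
        · rw [e', Function.update_self, Function.update_of_ne e]; exact (l1 a).2
        · rw [Function.update_of_ne e, Function.update_of_ne e']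
          exact h1 a b (c1 a ha e) (c1 b hb e') hab
      · by_cases hst : s = t
        · subst hst; simpa using hy
        · rw [Function.update_of_ne (by simpa using hst)]
          exact h2 s (by simpa [hst] using hs)
  obtain ⟨sl, h0, h1, h2⟩ := key Finset.univ
  exact ⟨sl, h0, fun a b => h1 a b (by simp) (by simp), fun t => h2 t (by simp)⟩

lemma pow_inj (hJ : TF J) {t : J} (ht : t ≠ 1) : Function.Injective fun n : ℕ => t ^ n :=
  injective_pow_iff_not_isOfFinOrder.2 fun h => by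
    obtain ⟨n, hn, e⟩ := isOfFinOrder_iff_pow_eq_one.1 h
    exact ht (hJ t n hn.ne' e)

theorem synd [Countable J] [Infinite J] (hJ : TF J) (D : Finset J) {A : Type} [Fintype A]
    (t : A → J) (ht : ∀ a, t a ≠ 1) : ∃ (P : Set J) (G : Finset ℤ),
    (∀ p ∈ P, ∀ p' ∈ P, ∀ d ∈ D, ∀ d' ∈ D, d * p = d' * p' → p = p') ∧
    ∀ a g, ∃ k ∈ G, (t a ^ k)⁻¹ * g ∈ P := by
  classical
  obtain ⟨e⟩ : Nonempty (ℕ ≃ J) := nonempty_equiv_of_countable
  obtain ⟨m, hm⟩ : ∃ m, m = 2 * (Fintype.card A * (D.card * D.card) + 1) := ⟨_, rfl⟩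
  have hm0 : 0 < m := by omega
  choose R R1 R2 using fun a => sparse ((Finset.range m).image fun k => t a ^ k)
    ⟨t a ^ 0, Finset.mem_image_of_mem _ (Finset.mem_range.2 hm0)⟩
  let pt : (A × ℕ) × Fin m → J := fun v => t v.1.1 ^ (v.2 : ℕ) * e v.1.2
  let ok : A × ℕ → Prop := fun i => e i.2 ∈ R i.1
  have hin : ∀ v v' : (A × ℕ) × Fin m, ok v.1 → ok v'.1 → v.1.1 = v'.1.1 → pt v = pt v' →
      v = v' := by
    rintro ⟨⟨a, n⟩, k⟩ ⟨⟨_, n'⟩, k'⟩ h h' rfl hp
    have e1 := R1 a _ h _ h' _ (Finset.mem_image_of_mem _ (Finset.mem_range.2 k.2)) _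
      (Finset.mem_image_of_mem _ (Finset.mem_range.2 k'.2)) hp
    obtain rfl : n = n' := e.injective e1
    have e2 : (k : ℕ) = k' := pow_inj hJ (ht a) (mul_right_cancel hp)
    rw [Fin.ext e2]
  let H : (A × ℕ) × Fin m → (A × ℕ) × Fin m → Prop := fun v v' =>
    ok v.1 ∧ ok v'.1 ∧ pt v ≠ pt v' ∧ ∃ d ∈ D, ∃ d' ∈ D, d * pt v = d' * pt v'
  have hx : ∀ I : Finset (A × ℕ), ∃ g : A × ℕ → Fin m,
      ∀ i ∈ I, ∀ j ∈ I, i ≠ j → ¬ H (i, g i) (j, g j) := by
    intro I
    rcases I.eq_empty_or_nonempty with rfl | ⟨i0, -⟩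
    · exact ⟨fun _ => ⟨0, hm0⟩, by simp⟩
    obtain ⟨g, g1, g2⟩ := Pool.Agent.Lib.MP_12eaff_co.BK.hax_ne (A × ℕ) _ I
      (fun i => {i} ×ˢ (Finset.univ : Finset (Fin m))) H (Fintype.card A * (D.card * D.card) + 1)
      ⟨(i0, ⟨0, hm0⟩)⟩
      (by
        rintro v v' ⟨a1, a2, a3, d, hd, d', hd', a4⟩
        exact ⟨a2, a1, a3.symm, d', hd', d, hd, a4.symm⟩)
      (fun v => by
        let ψ : A × J × J → (A × ℕ) × Fin m := fun q =>
          if h : ∃ w : (A × ℕ) × Fin m, ok w.1 ∧ w.1.1 = q.1 ∧ q.2.1 * pt v = q.2.2 * pt w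
          then h.choose else v
        refine ⟨(Finset.univ ×ˢ D ×ˢ D).image ψ, Finset.card_image_le.trans (by simp), ?_⟩
        rintro w ⟨-, a2, -, d, hd, d', hd', a4⟩
        refine Finset.mem_image.2 ⟨(w.1.1, d, d'), by simp [hd, hd'], ?_⟩
        have h : ∃ w' : (A × ℕ) × Fin m, ok w'.1 ∧ w'.1.1 = w.1.1 ∧ d * pt v = d' * pt w' :=
          ⟨w, a2, rfl, a4⟩
        have b := h.choose_spec
        simp only [ψ, dif_pos h]
        exact hin _ _ b.1 a2 b.2.1 (mul_left_cancel (b.2.2.symm.trans a4)))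
      (fun i _ j _ hij => Finset.disjoint_product.2 (Or.inl (by simpa using hij))) (by omega)
      (fun i _ => by simp [hm])
    have g3 : ∀ i ∈ I, (i, (g i).2) = g i := fun i hi =>
      Prod.ext (Finset.mem_singleton.1 (Finset.mem_product.1 (g1 i hi)).1).symm rfl
    exact ⟨fun i => (g i).2, fun i hi j hj hij => by
      rw [g3 i hi, g3 j hj]; exact g2 i hi j hj hij⟩
  choose g hg using hx
  obtain ⟨χ, hχ⟩ := Finset.rado_selection (β := fun _ => Fin m) g
  refine ⟨{x | ∃ i, ok i ∧ x = pt (i, χ i)}, Finset.Icc (-2 * m) (2 * m), ?_, fun a x => ?_⟩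
  · rintro _ ⟨i, hi, rfl⟩ _ ⟨j, hj, rfl⟩ d hd d' hd' h
    by_contra hne
    obtain ⟨s, hs, hs'⟩ := hχ {i, j}
    refine hg s i (hs (by simp)) j (hs (by simp)) (fun hij => hne (by rw [hij])) ?_
    rw [← hs' i (by simp), ← hs' j (by simp)]
    exact ⟨hi, hj, hne, d, hd, d', hd', h⟩
  · obtain ⟨d, hd, d', hd', h⟩ := R2 a x
    obtain ⟨k, hk, rfl⟩ := Finset.mem_image.1 hd
    obtain ⟨k', hk', rfl⟩ := Finset.mem_image.1 hd'
    rw [Finset.mem_range] at hk hk'
    obtain ⟨n, hn⟩ := e.surjective (((t a ^ k)⁻¹ * t a ^ k')⁻¹ * x)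
    have := (χ (a, n)).2
    refine ⟨(k' : ℤ) - k - (χ (a, n) : ℕ), by rw [Finset.mem_Icc]; omega, (a, n),
      by simpa [ok, hn] using h, ?_⟩
    simp only [pt, hn, ← zpow_natCast]
    group

end Pool.Agent.PD3K.KMv
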