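import Pool.Agent.Lib.MP_d98eb9_al.K.M2

/-! Variant of Theorem K, model, part 2: from local transports to block translations. -/

namespace Pool.Agent.PD3K.KMv

universe u

open scoped commutatorElement

/-- the cycle `0 1 2` -/
def c3 : Equiv.Perm (Fin 5) := Equiv.swap 0 2 * Equiv.swap 0 1

/-- the cycle `0 3 4` -/
def c4 : Equiv.Perm (Fin 5) := Equiv.swap 0 4 * Equiv.swap 0 3

lemma c3_three : c3.IsThreeCycle :=
  Equiv.Perm.isThreeCycle_swap_mul_swap_same (by decide) (by decide) (by decide)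

lemma c3_mem : c3 ∈ alternatingGroup (Fin 5) := c3_three.mem_alternatingGroup

lemma c4_mem : c4 ∈ alternatingGroup (Fin 5) :=
  (Equiv.Perm.isThreeCycle_swap_mul_swap_same (by decide) (by decide)
    (by decide)).mem_alternatingGroup

lemma c3_eq : c4⁻¹ * (c3 * ⁅c3, c4⁆ * c3⁻¹) * c4 = c3 := by decide

lemma a5_le (M : Subgroup (Equiv.Perm (Fin 5))) (hc : c3 ∈ M)
    (hn : ∀ s ∈ alternatingGroup (Fin 5), s 0 = 0 → ∀ x ∈ M, s * x * s⁻¹ ∈ M) :
    alternatingGroup (Fin 5) ≤ M := by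
  have h1 : ∀ σ ∈ alternatingGroup (Fin 5), ∀ x ∈ M, σ * x * σ⁻¹ ∈ M := by
    intro σ hσ x hx
    by_cases h : σ 0 = 0
    · exact hn σ hσ h x hx
    · obtain ⟨s, hs, s0, s1⟩ := alt_two 0 (σ 0) (Ne.symm h)
      have r0 : (c3⁻¹ * s⁻¹ * σ) 0 = 0 := by
        rw [Equiv.Perm.mul_apply, Equiv.Perm.mul_apply, ← s1]
        simp only [Equiv.Perm.coe_inv, Equiv.symm_apply_apply]
        decide
      have r1 := hn _ (mul_mem (mul_mem (inv_mem c3_mem) (inv_mem hs)) hσ) r0 x hx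
      convert hn s hs s0 _ (mul_mem (mul_mem hc r1) (inv_mem hc)) using 1
      group
  have h2 : (M.subgroupOf (alternatingGroup (Fin 5))).Normal :=
    ⟨fun x hx σ => h1 σ σ.2 x hx⟩
  rcases h2.eq_bot_or_eq_top with h3 | h3
  · have h4 : (⟨c3, c3_mem⟩ : alternatingGroup (Fin 5)) ∈ M.subgroupOf _ := hc
    rw [h3, Subgroup.mem_bot, Subtype.ext_iff] at h4
    exact absurd h4 (by decide)
  · exact Subgroup.subgroupOf_eq_top.1 h3

lemma cut {G : Type*} [Group G] {a a' b b' : G} (h1 : Commute a' a) (h2 : Commute a' b)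
    (h3 : Commute a' b') (h4 : Commute b' a) (h5 : Commute b' b) :
    (b * b')⁻¹ * (a * a' * ⁅a * a', b * b'⁆ * (a * a')⁻¹) * (b * b') =
      b⁻¹ * (a * ⁅a, b⁆ * a⁻¹) * b := by
  have e1 : ⁅a * a', b * b'⁆ = ⁅a, b⁆ := by
    have k1 : ⁅a * a', b * b'⁆ = a * ⁅a', b * b'⁆ * a⁻¹ * (⁅a, b⁆ * (b * ⁅a, b'⁆ * b⁻¹)) := by
      simp only [commutatorElement_def]; group
    rw [k1, (h2.mul_right h3).commutator_eq, h4.symm.commutator_eq]; group
  have k2 : ∀ {x : G}, Commute x a → Commute x b → Commute x ⁅a, b⁆ := fun p q => by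
    rw [commutatorElement_def]
    exact ((p.mul_right q).mul_right p.inv_right).mul_right q.inv_right
  have e2 := (k2 h1 h2).eq
  have e3 := ((h5.inv_right.mul_right ((h4.mul_right (k2 h4 h5)).mul_right h4.inv_right)).mul_right
    h5).eq
  rw [e1]
  calc _ = b'⁻¹ * (b⁻¹ * (a * (a' * ⁅a, b⁆) * a'⁻¹ * a⁻¹) * b * b') := by group
    _ = b'⁻¹ * (b⁻¹ * (a * ⁅a, b⁆ * a⁻¹) * b * b') := by rw [e2]; group
    _ = _ := by rw [← e3]; group

lemma hYf (σ : Equiv.Perm (Fin 5)) (y : Fin 5 × ℕ) : hY false σ y = (σ y.1, y.2) :=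
  hY_apply false σ y.1 y.2

lemma hY_c3 (k : Bool) : hY k c3 = hY false c3 := by
  cases k
  · rfl
  refine Equiv.ext fun y => ?_
  rw [hYf]
  by_cases h : y ∈ Set.range (fr true)
  · obtain ⟨⟨i, n⟩, rfl⟩ := h
    rw [hY_apply]
    fin_cases i <;> rfl
  · rw [hY_fix _ _ _ h]
    obtain ⟨i, n⟩ := y
    fin_cases i
    exacts [absurd ⟨(0, n), rfl⟩ h, absurd ⟨(1, n), rfl⟩ h, absurd ⟨(2, n), rfl⟩ h, rfl, rfl]

/-- cones of the first block -/
def cn (n : ℕ) : ℕ → ℕ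
  | 0 => 2 * n
  | i + 1 => 2 * cn n i + 1

lemma exists_ty : ∃ ty : ℕ → ℕ, ∀ i n, ty (cn n i) = i := by
  classical
  have h : ∀ i j n m, cn n i = cn m j → i = j := by
    intro i
    induction i with
    | zero => rintro (_ | j) n m h <;> simp only [cn] at h <;> omega
    | succ i ih =>
      rintro (_ | j) n m h <;> simp only [cn] at h
      · omega
      · rw [ih j n m (by omega)]
  refine ⟨fun x => if h : ∃ i n, x = cn n i then h.choose else 0, fun i n => ?_⟩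
  have e : ∃ j m, cn n i = cn m j := ⟨i, n, rfl⟩
  obtain ⟨m, hm⟩ := e.choose_spec
  simp only [dif_pos e]
  exact (h _ _ _ _ hm).symm

variable {J : Type u} [Group J] {Y : Type}

omit [Group J] in
lemma moved {q : Equiv.Perm (J × Y)} {V : Set J} {η : Equiv.Perm Y} {z : J × Y}
    (h : (q * res V η * q⁻¹) z ≠ z) : ∃ j ∈ V, ∃ y, η y ≠ y ∧ z = q (j, y) := by
  obtain ⟨⟨j, y⟩, rfl⟩ := q.surjective z
  have h' : res V η (j, y) ≠ (j, y) := fun e => h (by simp [e])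
  rw [res_apply] at h'
  by_cases hj : j ∈ V
  · exact ⟨j, hj, y, fun e => h' (by simp [e]), rfl⟩
  · exact absurd (by simp [hj]) h'

omit [Group J] in
lemma comm_of {f g : Equiv.Perm (J × Y)} (h : ∀ z, f z ≠ z → g z ≠ z → False) : Commute f g :=
  Equiv.Perm.Disjoint.commute fun z => by
    by_contra hh
    push Not at hh
    exact h z hh.1 hh.2

omit [Group J] in
lemma agree {q v : Equiv.Perm (J × Y)} {V : Set J} {η : Equiv.Perm Y}
    (h : ∀ j ∈ V, ∀ y, η y ≠ y → q (j, y) = v (j, y)) :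
    q * res V η * q⁻¹ = v * res V η * v⁻¹ := by
  have e : Commute (v⁻¹ * q) (1 * res V η * 1⁻¹) := comm_of fun z h1 h2 => by
    obtain ⟨j, hj, y, hy, rfl⟩ := moved h2
    exact h1 (by simp [h j hj y hy])
  rw [one_mul, inv_one, mul_one] at e
  calc q * res V η * q⁻¹ = v * (v⁻¹ * q * res V η) * q⁻¹ := by group
    _ = _ := by rw [e.eq]; group

omit [Group J] in
lemma res_split {U V : Set J} (h : U ⊆ V) (η : Equiv.Perm Y) :
    res V η = res U η * res (V \ U) η := by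
  refine Equiv.ext fun z => ?_
  have := @h z.1
  simp only [Equiv.Perm.mul_apply, res_apply]
  by_cases h1 : z.1 ∈ U <;> by_cases h2 : z.1 ∈ V <;> simp_all

omit [Group J] in
lemma res_norm (V : Set J) (η ζ : Equiv.Perm Y) :
    res Set.univ η * res V ζ * (res Set.univ η)⁻¹ = res V (η * ζ * η⁻¹) := by
  rw [← map_inv]
  refine Equiv.ext fun z => ?_
  simp only [Equiv.Perm.mul_apply, res_apply]
  by_cases h : z.1 ∈ V <;> simp [h]

lemma gam_L (A : Set Y) (a g : J) :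
    Ltr J Y a * gam A g * (Ltr J Y a)⁻¹ = gam A (a * g * a⁻¹) := by
  rw [← map_inv]
  refine Equiv.ext fun z => ?_
  simp only [Equiv.Perm.mul_apply, gam_apply, Ltr_apply]
  by_cases h : z.2 ∈ A <;> simp [h, mul_assoc]

variable (Q : Subgroup (Equiv.Perm (J × Fin 5 × ℕ)))

/-- the block cycle over `V`, with the first block moved by `g`, lies in `Q` -/
def TW (g : J) (V : Set J) : Prop :=
  gam (blk false 0) g * res V (hY false c3) * (gam (blk false 0) g)⁻¹ ∈ Q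

/-- all block permutations of both frames over the whole of `J` lie in `Q` -/
def All : Prop := ∀ k, ∀ σ ∈ alternatingGroup (Fin 5), res Set.univ (hY k σ) ∈ Q

variable {Q}

omit [Group J] in
lemma cover {ι : Type*} (v : Equiv.Perm (J × Fin 5 × ℕ)) (k : Bool) (V : ι → Set J)
    (G : Finset ι) (hG : ∀ j, ∃ i ∈ G, j ∈ V i)
    (h : ∀ i ∈ G, ∀ σ ∈ alternatingGroup (Fin 5), v * res (V i) (hY k σ) * v⁻¹ ∈ Q) :
    ∀ σ ∈ alternatingGroup (Fin 5), v * res Set.univ (hY k σ) * v⁻¹ ∈ Q := by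
  have hU : (⋃ i ∈ G, V i) = Set.univ := Set.eq_univ_of_forall fun g => by
    obtain ⟨a, ha, h⟩ := hG g
    exact Set.mem_biUnion ha h
  intro σ hσ
  rw [← hU]
  refine res_cover Q ((alternatingGroup (Fin 5)).map (hY k)) ?_ v V G ?_ _ ⟨σ, hσ, rfl⟩
  · rw [← Subgroup.map_commutator, commutator_alternatingGroup_eq_self (by simp)]
  · rintro i hi _ ⟨σ, hσ, rfl⟩
    exact h i hi σ hσ

lemma TW.all (hall : All Q) {g : J} {V : Set J} (h : TW Q g V) (k : Bool) :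
    ∀ σ ∈ alternatingGroup (Fin 5),
      gam (blk false 0) g * res V (hY k σ) * (gam (blk false 0) g)⁻¹ ∈ Q := by
  refine a5_le (Q.comap (((MulAut.conj (gam (blk false 0) g)).toMonoidHom.comp (res V)).comp
    (hY k))) ?_ fun s hs s0 x hx => ?_
  · change gam _ g * res V (hY k c3) * _ ∈ Q
    rw [hY_c3]; exact h
  · change gam _ g * res V (hY k (s * x * s⁻¹)) * (gam _ g)⁻¹ ∈ Q
    have hx' : gam (blk false 0) g * res V (hY k x) * (gam (blk false 0) g)⁻¹ ∈ Q := hx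
    have e := gam_conj (blk false 0) (blk false 0) g (hY k s) fun y => by
      have := hY_mem k s 0 y
      rwa [s0, blk_zero] at this
    rw [mul_inv_eq_iff_eq_mul] at e
    rw [map_mul (hY k), map_mul (hY k), map_inv (hY k), ← res_norm]
    convert mul_mem (mul_mem (hall k s hs) hx') (inv_mem (hall k s hs)) using 1
    set w := gam (J := J) (blk false 0) g
    set r := res (J := J) Set.univ (hY k s)
    calc w * (r * res V (hY k x) * r⁻¹) * w⁻¹ = w * r * res V (hY k x) * (w * r)⁻¹ := by group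
      _ = _ := by rw [← e]; group

lemma TW.shift {a g : J} {V : Set J} (ha : Ltr J _ a ∈ Q) (h : TW Q g V) :
    TW Q (a * g * a⁻¹) {j | a⁻¹ * j ∈ V} := by
  unfold TW at h ⊢
  rw [← gam_L, ← res_conj]
  convert mul_mem (mul_mem ha h) (inv_mem ha) using 1
  group

lemma TW.left {a g : J} {V : Set J} (ha : gam (blk false 0) a ∈ Q) (h : TW Q g V) :
    TW Q (a * g) V := by
  unfold TW at h ⊢
  rw [map_mul]
  convert mul_mem (mul_mem ha h) (inv_mem ha) using 1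
  group

lemma gam_all (hall : All Q) {ι : Type*} {g : J} (V : ι → Set J) (G : Finset ι)
    (hG : ∀ j, ∃ i ∈ G, j ∈ V i) (h : ∀ i ∈ G, TW Q g (V i)) (i : Fin 5) :
    gam (blk false i) g ∈ Q := by
  have hd : ∀ k i, gam (blk false 0) g * (gam (blk k i) g)⁻¹ ∈ Q := by
    intro k i
    obtain ⟨j, hj⟩ := exists_ne i
    obtain ⟨σ, hσ, h0, _⟩ := alt_two i j hj.symm
    have := mul_mem (cover _ k V G hG (fun i hi => (h i hi).all hall k) σ hσ)
      (inv_mem (hall k σ hσ))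
    rw [← gam_conj (blk false 0) (blk k i) g (hY k σ) (fun y => by rw [← h0, hY_mem, blk_zero])]
    convert this using 1
    group
  have h3 : gam (blk false 3) g = gam (blk true 3) g * gam (blk true 4) g := by
    rw [blk_three, gam_union _ _ (blk_disj _ (by decide))]
  have e1 := mul_mem (inv_mem (hd true 3)) (hd false 3)
  rw [h3, (gam_comm _ _ (blk_disj true (i := 3) (j := 4) (by decide)) g g).eq] at e1
  have e2 : (gam (blk true 4) g)⁻¹ ∈ Q := by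
    convert e1 using 1
    rw [mul_inv_rev, mul_inv_rev, inv_inv]
    group
  have h0 : gam (blk false 0) g ∈ Q := by simpa using mul_mem (hd true 4) (inv_mem e2)
  simpa using mul_mem (inv_mem (hd false i)) h0

lemma bridge {P : Set J} {t g : J} (hL : Ltr J _ t ∈ Q)
    (h1 : ∀ σ ∈ alternatingGroup (Fin 5), res P (hY false σ) ∈ Q)
    {π : Equiv.Perm (J × Fin 5 × ℕ)} (hπ : π ∈ Q)
    (p1 : ∀ j i n, i = 1 ∨ i = 2 → π (j, i, n) = (j, i, n))
    (p2 : ∀ p ∈ P, ∀ n, t⁻¹ * (g * p) ∈ P → π (p, 0, n) = (g * p, 0, n))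
    (p3 : ∀ p ∈ P, ∀ n, t⁻¹ * (g * p) ∉ P → ∃ x, t⁻¹ * x ∉ P ∧ π (p, 0, n) = (x, 0, n)) :
    TW Q g {p | p ∈ P ∧ t⁻¹ * (g * p) ∈ P} := by
  set U : Set J := {p | p ∈ P ∧ t⁻¹ * (g * p) ∈ P} with hU
  let v : Equiv.Perm (J × Fin 5 × ℕ) := gam {y | y.1 ≠ 1 ∧ y.1 ≠ 2} g
  have v1 : ∀ j i n, i = 1 ∨ i = 2 → v (j, i, n) = (j, i, n) := by
    rintro j i n (rfl | rfl) <;> simp [v, gam_apply]
  have v2 : ∀ j i n, ¬(i = 1 ∨ i = 2) → v (j, i, n) = (g * j, i, n) := by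
    intro j i n h
    push Not at h
    simp [v, gam_apply, h]
  have m3 : ∀ i n, hY false c3 (i, n) ≠ (i, n) → i = 0 ∨ i = 1 ∨ i = 2 := by
    intro i n h
    rw [hYf] at h
    fin_cases i <;> first | exact absurd rfl h | simp
  have m4 : ∀ i n, hY false c4 (i, n) ≠ (i, n) → ¬(i = 1 ∨ i = 2) := by
    rintro i n h (rfl | rfl) <;> exact h (by rw [hYf]; rfl)
  have e1 : π * res P (hY false c3) * π⁻¹ =
      v * res U (hY false c3) * v⁻¹ * (π * res (P \ U) (hY false c3) * π⁻¹) := by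
    rw [← agree (q := π) (v := v), res_split (show U ⊆ P from fun _ h => h.1)]
    · group
    · rintro j hj ⟨i, n⟩ hy
      rcases m3 i n hy with rfl | h
      · rw [p2 j hj.1 n hj.2, v2 _ _ _ (by decide)]
      · rw [p1 _ _ _ h, v1 _ _ _ h]
  have e2 : Ltr J _ t * res P (hY false c4) * (Ltr J _ t)⁻¹ = v * res U (hY false c4) * v⁻¹ *
      (1 * res ({j | t⁻¹ * j ∈ P} \ {j | g⁻¹ * j ∈ U}) (hY false c4) * 1⁻¹) := by
    rw [← agree (q := Ltr J _ g) (v := v), res_conj, res_conj, one_mul, inv_one, mul_one, ← res_split]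
    · intro j hj
      simpa using hj.2
    · rintro j _ ⟨i, n⟩ hy
      rw [v2 _ _ _ (m4 i n hy)]; rfl
  have s1 : ∀ {η : Equiv.Perm (Fin 5 × ℕ)} {z : J × Fin 5 × ℕ},
      (v * res U η * v⁻¹) z ≠ z → ((z.2.1 = 1 ∨ z.2.1 = 2) ∧ z.1 ∈ U) ∨
        (¬(z.2.1 = 1 ∨ z.2.1 = 2) ∧ g⁻¹ * z.1 ∈ U) := by
    intro η z hz
    obtain ⟨j, hj, ⟨i, n⟩, -, rfl⟩ := moved hz
    by_cases h : i = 1 ∨ i = 2
    · rw [v1 _ _ _ h]; exact Or.inl ⟨h, hj⟩
    · rw [v2 _ _ _ h]; exact Or.inr ⟨h, by simpa using hj⟩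
  have s2 : ∀ {z : J × Fin 5 × ℕ}, (π * res (P \ U) (hY false c3) * π⁻¹) z ≠ z →
      ((z.2.1 = 1 ∨ z.2.1 = 2) ∧ z.1 ∉ U) ∨ (¬(z.2.1 = 1 ∨ z.2.1 = 2) ∧ t⁻¹ * z.1 ∉ P) := by
    intro z hz
    obtain ⟨j, hj, ⟨i, n⟩, hy, rfl⟩ := moved hz
    rcases m3 i n hy with rfl | h
    · obtain ⟨x, hx, e⟩ := p3 j hj.1 n fun h => hj.2 ⟨hj.1, h⟩
      rw [e]; exact Or.inr ⟨by simp, hx⟩
    · rw [p1 _ _ _ h]; exact Or.inl ⟨h, hj.2⟩
  have s3 : ∀ {z : J × Fin 5 × ℕ},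
      (1 * res ({j | t⁻¹ * j ∈ P} \ {j | g⁻¹ * j ∈ U}) (hY false c4) * 1⁻¹ :
        Equiv.Perm (J × Fin 5 × ℕ)) z ≠ z →
      ¬(z.2.1 = 1 ∨ z.2.1 = 2) ∧ t⁻¹ * z.1 ∈ P ∧ g⁻¹ * z.1 ∉ U := by
    intro z hz
    obtain ⟨j, hj, ⟨i, n⟩, hy, rfl⟩ := moved hz
    exact ⟨m4 i n hy, hj.1, hj.2⟩
  have s4 : ∀ x, g⁻¹ * x ∈ U → t⁻¹ * x ∈ P := fun x h => by simpa using h.2
  have q1 : π * res P (hY false c3) * π⁻¹ ∈ Q :=
    mul_mem (mul_mem hπ (h1 _ c3_mem)) (inv_mem hπ)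
  have q2 : Ltr J _ t * res P (hY false c4) * (Ltr J _ t)⁻¹ ∈ Q :=
    mul_mem (mul_mem hL (h1 _ c4_mem)) (inv_mem hL)
  rw [e1] at q1
  rw [e2] at q2
  have q3 := mul_mem (mul_mem (inv_mem q2) (mul_mem (mul_mem q1
    (Subgroup.commutator_mem_commutator q1 q2 |> Subgroup.commutator_le_self Q)) (inv_mem q1))) q2
  have d1 : ∀ η, Commute (π * res (P \ U) (hY false c3) * π⁻¹) (v * res U η * v⁻¹) :=
    fun η => comm_of fun z a b => by
      rcases s2 a with a | a <;> rcases s1 b with b | b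
      exacts [a.2 b.2, b.1 a.1, a.1 b.1, a.2 (s4 _ b.2)]
  have d2 : ∀ η, Commute (1 * res ({j | t⁻¹ * j ∈ P} \ {j | g⁻¹ * j ∈ U}) (hY false c4) * 1⁻¹)
      (v * res U η * v⁻¹) := fun η => comm_of fun z a b => by
    rcases s1 b with b | b
    exacts [(s3 a).1 b.1, (s3 a).2.2 b.2]
  rw [cut (d1 _) (d1 _) (comm_of fun z a b => by
    rcases s2 a with a | a
    exacts [(s3 b).1 a.1, a.2 (s3 b).2.1]) (d2 _) (d2 _)] at q3
  unfold TW
  rw [agree (v := v), ← c3_eq]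
  · convert q3 using 1
    simp only [commutatorElement_def, map_mul, map_inv]
    group
  · rintro j _ ⟨i, n⟩ hy
    rcases m3 i n hy with rfl | h
    · rw [v2 _ _ _ (by decide)]; simp [gam_apply, mem_blk_false]
    · rw [v1 _ _ _ h]; rcases h with rfl | rfl <;> simp [gam_apply, mem_blk_false]

omit [Group J] in
lemma cone (hall : All Q) (i : ℕ) : ∃ h : Equiv.Perm (Fin 5 × ℕ), res Set.univ h ∈ Q ∧
    (∀ n, h (0, n) = (0, cn n i)) ∧ ∀ k n, k = 1 ∨ k = 2 → h (k, n) = (k, n) := by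
  have f : ∀ σ : Equiv.Perm (Fin 5), σ 1 = 1 → σ 2 = 2 → ∀ (k : Fin 5) n, k = 1 ∨ k = 2 →
      (hY false c4⁻¹ * hY true σ) (k, n) = (k, n) := by
    rintro σ a1 a2 k n (rfl | rfl)
    · have := hY_apply true σ 1 n
      rw [a1] at this
      rw [Equiv.Perm.mul_apply, show hY true σ (1, n) = (1, n) from this, hYf]; rfl
    · have := hY_apply true σ 2 n
      rw [a2] at this
      rw [Equiv.Perm.mul_apply, show hY true σ (2, n) = (2, n) from this, hYf]; rfl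
  induction i with
  | zero =>
    refine ⟨hY false c4⁻¹ * hY true c4, ?_, fun n => ?_, f _ rfl rfl⟩
    · rw [map_mul]; exact mul_mem (hall _ _ (inv_mem c4_mem)) (hall _ _ c4_mem)
    · rw [Equiv.Perm.mul_apply, show hY true c4 (0, n) = (3, 2 * n) from hY_apply true c4 0 n,
        hYf]; rfl
  | succ i ih =>
    obtain ⟨h, a, b, c⟩ := ih
    refine ⟨hY false c4⁻¹ * hY true c4⁻¹ * h, ?_, fun n => ?_, fun k n hk => ?_⟩
    · rw [map_mul, map_mul]
      exact mul_mem (mul_mem (hall _ _ (inv_mem c4_mem)) (hall _ _ (inv_mem c4_mem))) a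
    · rw [Equiv.Perm.mul_apply, b, Equiv.Perm.mul_apply,
        show hY true c4⁻¹ (0, cn n i) = (3, 2 * cn n i + 1) from hY_apply true c4⁻¹ 0 _, hYf]; rfl
    · rw [Equiv.Perm.mul_apply, c k n hk, f _ rfl rfl k n hk]

/-- one translation, two frames and one bridge give all translations and the swindle -/
theorem full {P : Set J} {t s : J} (hL : Ltr J _ t ∈ Q) (G : Finset ℤ)
    (g0 : ∀ j, ∃ k ∈ G, (t ^ k)⁻¹ * j ∈ P) (g1 : ∀ j, ∃ k ∈ G, s⁻¹ * ((t ^ k)⁻¹ * j) ∈ P)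
    (h0 : ∀ σ ∈ alternatingGroup (Fin 5), res P (hY false σ) ∈ Q)
    (h1 : ∀ σ ∈ alternatingGroup (Fin 5), res {j | s⁻¹ * j ∈ P} (hY true σ) ∈ Q)
    {π : Equiv.Perm (J × Fin 5 × ℕ)} (hπ : π ∈ Q) (p1 : ∀ z, z.2 ∉ blk false 0 → π z = z)
    (p2 : ∀ g : J, ∃ i, ∀ p ∈ P, ∀ n,
      (t⁻¹ * (g * p) ∈ P → π (p, 0, cn n i) = (g * p, 0, cn n i)) ∧
      (t⁻¹ * (g * p) ∉ P → ∃ x, t⁻¹ * x ∉ P ∧ π (p, 0, cn n i) = (x, 0, cn n i))) :
    (∀ g, Ltr J _ g ∈ Q) ∧ Swindle (Ltr J (Fin 5 × ℕ)) Q := by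
  classical
  have hk : ∀ k : ℤ, Ltr J _ (t ^ k) ∈ Q := fun k => by rw [map_zpow]; exact zpow_mem hL k
  have hc : ∀ (V : Set J) η, res V η ∈ Q → ∀ k : ℤ,
      1 * res {j | (t ^ k)⁻¹ * j ∈ V} η * 1⁻¹ ∈ Q := fun V η h k => by
    rw [← res_conj, one_mul, inv_one, mul_one]
    exact mul_mem (mul_mem (hk k) h) (inv_mem (hk k))
  have hall : All Q := by
    rintro (_ | _) σ hσ
    · simpa using cover 1 false _ G g0 (fun k _ σ h => hc _ _ (h0 σ h) k) σ hσ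
    · simpa using cover 1 true (fun k => {j | (t ^ k)⁻¹ * j ∈ {j | s⁻¹ * j ∈ P}}) G g1
        (fun k _ σ h => hc _ _ (h1 σ h) k) σ hσ
  have tw : ∀ g, TW Q g {p | p ∈ P ∧ t⁻¹ * (g * p) ∈ P} := by
    intro g
    obtain ⟨i, hi⟩ := p2 g
    obtain ⟨h, a, b, c⟩ := cone hall i
    have r : ∀ j y, res (Set.univ : Set J) h (j, y) = (j, h y) := fun j y => by simp [res_apply]
    have k : ∀ p x n, π (p, 0, cn n i) = (x, 0, cn n i) →
        ((res Set.univ h)⁻¹ * π * res Set.univ h : Equiv.Perm (J × Fin 5 × ℕ)) (p, 0, n) =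
          (x, 0, n) := fun p x n e => by
      rw [Equiv.Perm.mul_apply, Equiv.Perm.mul_apply, Equiv.Perm.inv_eq_iff_eq, r, r, b, e]
    refine bridge hL h0 (mul_mem (mul_mem (inv_mem a) hπ) a) (fun j l n hl => ?_)
      (fun p hp n h' => k _ _ _ ((hi p hp n).1 h')) fun p hp n h' => ?_
    · rw [Equiv.Perm.mul_apply, Equiv.Perm.mul_apply, Equiv.Perm.inv_eq_iff_eq, r, c l n hl, p1]
      rcases hl with rfl | rfl <;> simp [mem_blk_false]
    · obtain ⟨x, hx, e⟩ := (hi p hp n).2 h'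
      exact ⟨x, hx, k _ _ _ e⟩
  have gt : gam (blk false 0) t ∈ Q := gam_all hall (fun k => {j | (t ^ k)⁻¹ * j ∈ P}) G g0
    (fun k _ => by
      convert (tw t).shift (hk k) using 1
      · group
      · simp) 0
  have gk : ∀ k : ℤ, gam (blk false 0) (t ^ k) ∈ Q := fun k => by
    rw [map_zpow]; exact zpow_mem gt k
  have gg : ∀ g i, gam (blk false i) g ∈ Q := fun g => gam_all hall
    (fun q : ℤ × ℤ => {j | (t ^ q.1)⁻¹ * j ∈ P ∧ (t ^ q.2)⁻¹ * (g * j) ∈ P}) (G ×ˢ G)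
    (fun j => by
      obtain ⟨k, a, b⟩ := g0 j
      obtain ⟨k', a', b'⟩ := g0 (g * j)
      exact ⟨(k, k'), Finset.mem_product.2 ⟨a, a'⟩, b, b'⟩)
    fun q _ => by
      have := ((tw (t * (t ^ q.2)⁻¹ * g * t ^ q.1)).shift (hk q.1)).left (gk (q.2 - 1 - q.1))
      convert this using 1
      · group
      · simp [mul_assoc]
  have hLL : ∀ g, Ltr J (Fin 5 × ℕ) g ∈ Q := fun g => by
    convert mul_mem (mul_mem (mul_mem (mul_mem (gg g 0) (gg g 1)) (gg g 2)) (gg g 3)) (gg g 4)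
      using 1
    refine Equiv.ext fun ⟨j, i, n⟩ => ?_
    simp only [Equiv.Perm.mul_apply, Ltr_apply, gam_apply, mem_blk_false]
    fin_cases i <;> simp
  exact ⟨hLL, swindle_of Set.univ Q hLL {1} (by simp) hall fun g =>
    ⟨_, gg g 0, fun z hz => by simp [gam_apply, hz], fun p _ y hy => by simp [gam_apply, hy]⟩⟩

end Pool.Agent.PD3K.KMv
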