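import Pool.Agent.Lib.MP_d98eb9_al.K.VSt
import Pool.Agent.Lib.MP_d98eb9_al.K.V1
import Pool.Agent.Lib.MP_d98eb9_al.K.V2

/-! Variant of Theorem K, model, part 3: block KMV. -/

namespace Pool.Agent.PD3K

universe u

namespace KMv

variable {J : Type u} [Group J] {A : Type}

open Classical in
/-- slot and base point of the point `b` of the orbit with index `(p, n)` -/
noncomputable def sq (P : Set J) (e : A → J) (γ : ℕ → J) :
    Fin 5 ⊕ Fin 5 ⊕ A → ℕ → P → Option (Bool ⊕ A × Bool) × P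
  | .inl _, _, p => (none, p)
  | .inr (.inl _), _, p => (some (.inl false), p)
  | .inr (.inr a), n, p => if h : (e a)⁻¹ * (γ n * p) ∈ P then (some (.inr (a, false)), ⟨_, h⟩)
      else (some (.inr (a, true)), p)

/-- second coordinate of the point `b` -/
def bv : Fin 5 ⊕ Fin 5 ⊕ A → ℕ → Fin 5 × ℕ
  | .inl i, n => fr false (i, n)
  | .inr (.inl i), n => fr true (i, n)
  | .inr (.inr _), n => fr false (0, n)

/-- the frames inside the set of points -/
def fv : Bool → (Fin 5 ↪ Fin 5 ⊕ Fin 5 ⊕ A)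
  | false => ⟨.inl, Sum.inl_injective⟩
  | true => ⟨fun i => .inr (.inl i), fun _ _ h => by simpa using h⟩

/-- slot of a frame -/
def sv : Bool → Option (Bool ⊕ A × Bool)
  | false => none
  | true => some (.inl false)

variable {P : Set J} {e : A → J} {γ : ℕ → J}

lemma sq_inj {b b' : Fin 5 ⊕ Fin 5 ⊕ A} {n n' : ℕ} {p p' : P}
    (h : sq P e γ b n p = sq P e γ b' n' p') (h' : bv b n = bv b' n') :
    b = b' ∧ p = p' ∧ n = n' := by
  rcases b with i | i | a <;> rcases b' with j | j | a' <;> simp only [sq] at h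
  · have := (fr false).injective h'
    simp_all
  · simp at h
  · split_ifs at h <;> simp at h
  · simp at h
  · have := (fr true).injective h'
    simp_all
  · split_ifs at h <;> simp at h
  · split_ifs at h <;> simp at h
  · split_ifs at h <;> simp at h
  · obtain rfl : n = n' := by simpa using (fr false).injective h'
    split_ifs at h <;> simp at h
    · obtain ⟨rfl, h⟩ := h
      exact ⟨rfl, Subtype.ext (by simpa using h), rfl⟩
    · obtain ⟨rfl, h⟩ := h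
      exact ⟨rfl, h, rfl⟩

lemma sq_ne (b : Fin 5 ⊕ Fin 5 ⊕ A) (n : ℕ) (p : P) :
    (sq P e γ b n p).1 ≠ some (.inl true) := by
  rcases b with i | i | a <;> simp only [sq]
  · simp
  · simp
  · split_ifs <;> simp

lemma sq_fv (k : Bool) (i : Fin 5) (n : ℕ) (p : P) : sq P e γ (fv k i) n p = (sv k, p) := by
  cases k <;> rfl

lemma bv_fv (k : Bool) (i : Fin 5) (n : ℕ) : bv (fv (A := A) k i) n = fr k (i, n) := by
  cases k <;> rfl

theorem model [Countable J] [Infinite J] (hJ : TF J) [Fintype A] [DecidableEq A] [Nonempty A]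
    (t : A → J) (ht : ∀ a, t a ≠ 1) (Λ : Finset J) (h1 : 1 ∈ Λ) :
    ∃ ι : alternatingGroup (Fin 5 ⊕ Fin 5 ⊕ A) →* Equiv.Perm (J × Fin 5 × ℕ),
      (∀ c ∈ Λ, ∀ c' ∈ Λ, c ≠ c' → ∀ a b,
        Commute (Ltr J (Fin 5 × ℕ) c * ι a * (Ltr J (Fin 5 × ℕ) c)⁻¹)
          (Ltr J (Fin 5 × ℕ) c' * ι b * (Ltr J (Fin 5 × ℕ) c')⁻¹)) ∧
      (∃ z, ∀ c ∈ Λ, ∀ a, (Ltr J (Fin 5 × ℕ) c * ι a * (Ltr J (Fin 5 × ℕ) c)⁻¹) z = z) ∧
      ∀ (a : A) (Q : Subgroup (Equiv.Perm (J × Fin 5 × ℕ))), Ltr J (Fin 5 × ℕ) (t a) ∈ Q →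
        (∀ s, ι s ∈ Q) → (∀ g, Ltr J (Fin 5 × ℕ) g ∈ Q) ∧ Swindle (Ltr J (Fin 5 × ℕ)) Q := by
  classical
  obtain ⟨sl, s0, s1, s2⟩ := slotsW (Finset.image₂ (fun c c' => c⁻¹ * c') Λ Λ)
    (I := Bool ⊕ A × Bool)
    (Sum.elim (fun _ => Set.univ) fun q => Set.range fun n : ℕ => t q.1 ^ (n + 1)) (by
      rintro (b | q)
      · exact Set.infinite_univ
      · exact Set.infinite_range_of_injective fun n m h => by
          simpa using pow_inj hJ (ht q.1) h)
  let e : A → J := fun a => sl (some (.inr (a, false)))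
  let s : J := sl (some (.inl false))
  have he : ∀ a, ∃ n : ℕ, t a ^ (n + 1) = e a := fun a => s2 (.inr (a, false))
  have he1 : ∀ a, e a ≠ 1 := fun a h => by
    obtain ⟨n, hn⟩ := he a
    exact ht a (hJ _ _ n.succ_ne_zero (hn.trans h))
  obtain ⟨P, G, p1, p2⟩ := synd hJ (Finset.image₂ (· * ·) Λ (Finset.univ.image sl))
    (A := A × Bool) (fun q => if q.2 then s⁻¹ * e q.1 * s⁻¹⁻¹ else e q.1) (by
      rintro ⟨a, _ | _⟩
      · simpa using he1 a
      · simpa [mul_assoc, inv_mul_eq_one] using he1 a)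
  have sep : ∀ c ∈ Λ, ∀ c' ∈ Λ, ∀ a a', ∀ p ∈ P, ∀ p' ∈ P, c * sl a * p = c' * sl a' * p' →
      p = p' ∧ a = a' ∧ c = c' := by
    intro c hc c' hc' a a' p hp p' hp' h
    obtain rfl := p1 p hp p' hp' _ (Finset.mem_image₂_of_mem hc (by simp)) _
      (Finset.mem_image₂_of_mem hc' (by simp)) h
    have h2 := mul_right_cancel h
    obtain rfl : a = a' := by
      by_contra hne
      refine s1 a a' hne (Finset.mem_image₂.2 ⟨c, hc, c', hc', ?_⟩)
      rw [inv_mul_eq_iff_eq_mul, ← mul_assoc, h2]; simp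
    exact ⟨rfl, rfl, mul_right_cancel h2⟩
  obtain ⟨ty, hty⟩ := exists_ty
  obtain ⟨en, hen⟩ := exists_surjective_nat J
  let σq := sq P e (en ∘ ty)
  let ε : (Fin 5 ⊕ Fin 5 ⊕ A) × (P × ℕ) ↪ J × Fin 5 × ℕ :=
    ⟨fun q => (sl (σq q.1 q.2.2 q.2.1).1 * (σq q.1 q.2.2 q.2.1).2, bv q.1 q.2.2), by
      rintro ⟨b, p, n⟩ ⟨b', p', n'⟩ h
      obtain ⟨e1, e2, -⟩ := sep 1 h1 1 h1 (σq b n p).1 (σq b' n' p').1 _ (σq b n p).2.2 _
        (σq b' n' p').2.2 (by simpa using congrArg Prod.fst h)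
      obtain ⟨rfl, rfl, rfl⟩ := sq_inj (Prod.ext e2 (Subtype.ext e1)) (congrArg Prod.snd h)
      rfl⟩
  have εf : ∀ k i p n, ε (fv k i, p, n) = (sl (sv k) * p, fr k (i, n)) := fun k i p n => by
    change (sl (sq P e _ _ n p).1 * (sq P e _ _ n p).2, bv _ n) = _
    rw [sq_fv, bv_fv]
  let ι0 := (Equiv.Perm.viaEmbeddingHom ε).comp (pl _ (P × ℕ))
  have i1 : ∀ σ b r, ι0 σ (ε (b, r)) = ε (σ b, r) := fun σ b r =>
    Equiv.Perm.viaEmbedding_apply _ _ _
  have i2 : ∀ σ z, ι0 σ z ≠ z → ∃ b r, z = ε (b, r) ∧ σ b ≠ b := by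
    intro σ z hz
    by_cases h : z ∈ Set.range ε
    · obtain ⟨⟨b, r⟩, rfl⟩ := h
      exact ⟨b, r, rfl, fun hb => hz (by rw [i1, hb])⟩
    · exact absurd (Equiv.Perm.viaEmbedding_apply_of_notMem _ _ _ h) hz
  have i3 : ∀ c σ z, (Ltr J (Fin 5 × ℕ) c * ι0 σ * (Ltr J (Fin 5 × ℕ) c)⁻¹) z ≠ z →
      ∃ a ≠ some (.inl true), ∃ p ∈ P, z.1 = c * sl a * p := by
    intro c σ z hz
    obtain ⟨b, r, h, -⟩ := i2 σ (Ltr J _ c⁻¹ z) fun h => hz (by
      rw [← map_inv, Equiv.Perm.mul_apply, Equiv.Perm.mul_apply, h]; simp)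
    have h2 : c⁻¹ * z.1 = sl (σq b r.2 r.1).1 * (σq b r.2 r.1).2 := congrArg Prod.fst h
    exact ⟨_, sq_ne b r.2 r.1, _, (σq b r.2 r.1).2.2, by rw [mul_assoc, ← h2]; simp⟩
  refine ⟨ι0.comp (alternatingGroup _).subtype, fun c hc c' hc' hne a b => ?_, ?_,
    fun a Q hL hι => ?_⟩
  · refine comm_of fun z x y => ?_
    obtain ⟨s, -, p, hp, e1⟩ := i3 c _ z x
    obtain ⟨s', -, p', hp', e2⟩ := i3 c' _ z y
    exact hne (sep c hc c' hc' s s' p hp p' hp' (e1.symm.trans e2)).2.2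
  · obtain ⟨p0, hp⟩ : ∃ p, p ∈ P := by
      obtain ⟨_, -, hp⟩ := p2 (Classical.arbitrary A, false) 1
      exact ⟨_, hp⟩
    refine ⟨(1 * sl (some (.inl true)) * p0, 0, 0), fun c hc a => ?_⟩
    by_contra hh
    obtain ⟨s, hs, p, hp', e1⟩ := i3 c _ _ hh
    exact hs (sep 1 h1 c hc _ s _ hp p hp' e1).2.1.symm
  · have hι' : ∀ σ ∈ alternatingGroup _, ι0 σ ∈ Q := fun σ h => hι ⟨σ, h⟩
    have hf : ∀ k, ∀ σ ∈ alternatingGroup (Fin 5),
        res {j | (sl (sv k))⁻¹ * j ∈ P} (hY k σ) ∈ Q := by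
      intro k σ hσ
      have f1 : ι0 (σ.viaEmbedding (fv k)) = res {j | (sl (sv k))⁻¹ * j ∈ P} (hY k σ) := by
        refine Equiv.ext fun z => ?_
        by_cases hz : ∃ i r, z = ε (fv k i, r)
        · obtain ⟨i, ⟨p, n⟩, rfl⟩ := hz
          rw [i1, Equiv.Perm.viaEmbedding_apply, res_apply, εf, εf, if_pos (by simp), hY_apply]
        · have e1 : ι0 (σ.viaEmbedding (fv k)) z = z := by
            by_contra hh
            obtain ⟨b, r, h, hb⟩ := i2 _ _ hh
            by_cases hr : b ∈ Set.range (fv k)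
            · obtain ⟨i, rfl⟩ := hr
              exact hz ⟨i, r, h⟩
            · exact hb (Equiv.Perm.viaEmbedding_apply_of_notMem _ _ _ hr)
          rw [e1, res_apply]
          split_ifs with hj
          · rw [hY_fix]
            rintro ⟨⟨i, n⟩, h⟩
            refine hz ⟨i, (⟨_, hj⟩, n), ?_⟩
            rw [εf, h]; simp
          · rfl
      rw [← f1]
      exact hι' _ (by
        rw [Equiv.Perm.mem_alternatingGroup, Equiv.Perm.viaEmbedding,
          Equiv.Perm.sign_extendDomain]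
        exact hσ)
    have hb : ∀ (p : P) n,
        ι0 (Equiv.swap (.inl 0) (.inr (.inl 0)) * Equiv.swap (.inl 0) (.inr (.inr a))) (p, 0, n) =
          (sl (σq (.inr (.inr a)) n p).1 * (σq (.inr (.inr a)) n p).2, 0, n) := by
      intro p n
      have e1 : ((p : J), (0 : Fin 5), n) = ε (.inl 0, p, n) := by
        change _ = (sl none * p, _)
        rw [s0, one_mul]; rfl
      rw [e1, i1, Equiv.Perm.mul_apply, Equiv.swap_apply_left,
        Equiv.swap_apply_of_ne_of_ne (by simp) (by simp)]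
      rfl
    refine full (P := P) (t := e a) (s := s) ?_ G (fun j => by simpa using p2 (a, false) j)
      (fun j => ?_) (fun σ h => by simpa [sv, s0] using hf false σ h) (hf true)
      (hι' (Equiv.swap (.inl 0) (.inr (.inl 0)) * Equiv.swap (.inl 0) (.inr (.inr a))) ?_)
      (fun z hz => ?_) fun g => ?_
    · obtain ⟨n, hn⟩ := he a
      rw [← hn, map_pow]; exact pow_mem hL _
    · obtain ⟨k, hk, h⟩ := p2 (a, true) (s⁻¹ * j)
      rw [if_pos rfl, conj_zpow] at h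
      exact ⟨k, hk, by simpa [mul_assoc] using h⟩
    · rw [Equiv.Perm.mem_alternatingGroup, map_mul, Equiv.Perm.sign_swap (by simp),
        Equiv.Perm.sign_swap (by simp)]; simp
    · by_contra hh
      obtain ⟨b, r, rfl, hb⟩ := i2 _ _ hh
      apply hb
      have n1 : b ≠ .inl 0 := by rintro rfl; exact hz ⟨_, rfl⟩
      have n2 : b ≠ .inr (.inl 0) := by rintro rfl; exact hz ⟨_, rfl⟩
      have n3 : b ≠ .inr (.inr a) := by rintro rfl; exact hz ⟨_, rfl⟩
      rw [Equiv.Perm.mul_apply, Equiv.swap_apply_of_ne_of_ne n1 n3,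
        Equiv.swap_apply_of_ne_of_ne n1 n2]
    · obtain ⟨i, rfl⟩ := hen g
      refine ⟨i, fun p hp n => ⟨fun h => ?_, fun h => ⟨sl (some (.inr (a, true))) * p, ?_, ?_⟩⟩⟩
      · rw [hb ⟨p, hp⟩]
        simp [σq, sq, hty, h, e]
      · intro h'
        have := sep 1 h1 1 h1 (some (.inr (a, false))) (some (.inr (a, true))) _ h' p hp
          (by simp [e])
        simp at this
      · rw [hb ⟨p, hp⟩]
        simp [σq, sq, hty, h]

end KMv

theorem kmv : KMV.{u} := by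
  intro X _ J _ _ π hJ hπ A _ t ht l
  classical
  have := Fintype.ofFinite A
  have := hπ.countable
  obtain ⟨t0, h0⟩ := exists_ne (1 : J)
  refine ⟨Fin 5 ⊕ Fin 5 ⊕ A ⊕ Fin (l + 1), inferInstance, inferInstance, by simp; omega,
    fun Λ h1 => ?_⟩
  obtain ⟨ι, a, b, c⟩ := KMv.model hJ (A := A ⊕ Fin (l + 1)) (Sum.elim t fun _ => t0)
    (by rintro (a | a); exacts [ht a, h0]) Λ h1
  exact ⟨ι, a, b, fun x => c (.inl x)⟩

end Pool.Agent.PD3K
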