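import Pool.Agent.Lib.MP_d98eb9_al.K.VL
import Pool.Agent.Lib.MP_d98eb9_al.K.V3

/-! The variant of Theorem K. -/

namespace Pool.Agent.PD3K

universe u

/-- VARIANT OF THEOREM K -/
theorem kv : KV.{u} := kv_of_kmv kmv

end Pool.Agent.PD3K
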