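import Pool.Agent.Lib.MP_d98eb9_al.K.St

/-! Statements for the variant of Theorem K with finitely many subgroups that map onto. -/

namespace Pool.Agent.PD3K

universe u

/-- conclusion of the variant -/
def VConcl {X A : Type} (S : A → Subgroup (FreeGroup X)) (R0 B : Finset (FreeGroup X)) : Prop :=
  ∃ N : Subgroup (FreeGroup X), N.Normal ∧ (∀ r ∈ R0, r ∈ N) ∧ (∀ w ∈ B, w ∉ N) ∧
    (∀ r ∈ Subgroup.normalClosure (R0 : Set (FreeGroup X)), r ∈ commutator (FreeGroup X) →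
      r ∈ ⁅(⊤ : Subgroup (FreeGroup X)), N⁆) ∧ ∀ a, S a ⊔ N = ⊤

/-- VARIANT OF THEOREM K.  One derivation `d a` for each subgroup `S a`; `n a` is a relator in
`S a` seen only by `d a` and only inside the image of `S a`; on `θ a` the foreign parts of all
derivations are inner. -/
def KV : Prop :=
  ∀ (X : Type) [Finite X] (J : Type u) [Group J] [Infinite J] (π : FreeGroup X →* J)
    (A : Type) [Finite A] [Nonempty A] (d : A → FreeGroup X → J →₀ ℤ)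
    (S : A → Subgroup (FreeGroup X)) (n θ : A → FreeGroup X) (f : A → A → J →₀ ℤ),
    TF J → Function.Surjective π → (∀ a, IsDer π (d a)) →
    (∀ a, n a ∈ S a ∧ π (n a) = 1 ∧ d a (n a) ≠ 0 ∧
      ∀ b g, (b ≠ a ∨ g ∉ (S a).map π) → d b (n a) g = 0) →
    (∀ a, θ a ∈ S a ∧ π (θ a) ≠ 1 ∧
      ∀ b g, (b ≠ a ∨ g ∉ (S a).map π) → d b (θ a) g = f a b g - f a b ((π (θ a))⁻¹ * g)) →
    ∀ R0 B : Finset (FreeGroup X), (∀ r ∈ R0, π r = 1 ∧ ∀ a, d a r = 0) → (∀ w ∈ B, π w ≠ 1) →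
    VConcl S R0 B

/-- the same with foreign parts zero -/
def KV0 : Prop :=
  ∀ (X : Type) [Finite X] (J : Type u) [Group J] [Infinite J] (π : FreeGroup X →* J)
    (A : Type) [Finite A] [Nonempty A] (d : A → FreeGroup X → J →₀ ℤ)
    (S : A → Subgroup (FreeGroup X)) (n θ : A → FreeGroup X),
    TF J → Function.Surjective π → (∀ a, IsDer π (d a)) →
    (∀ a, n a ∈ S a ∧ π (n a) = 1 ∧ d a (n a) ≠ 0 ∧
      ∀ b g, (b ≠ a ∨ g ∉ (S a).map π) → d b (n a) g = 0) →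
    (∀ a, θ a ∈ S a ∧ π (θ a) ≠ 1 ∧ ∀ b g, (b ≠ a ∨ g ∉ (S a).map π) → d b (θ a) g = 0) →
    ∀ R0 B : Finset (FreeGroup X), (∀ r ∈ R0, π r = 1 ∧ ∀ a, d a r = 0) → (∀ w ∈ B, π w ≠ 1) →
    VConcl S R0 B

/-- Block KMV: the model in which one translation `t a` and the alternating group generate all
translations and a swindle. -/
def KMV : Prop :=
  ∀ (X : Type) [Finite X] (J : Type u) [Group J] [Infinite J] (π : FreeGroup X →* J),
    TF J → Function.Surjective π → ∀ (A : Type) [Finite A] (t : A → J), (∀ a, t a ≠ 1) →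
    ∀ l : ℕ, ∃ (β : Type) (_ : Fintype β) (_ : DecidableEq β),
      l ≤ Fintype.card β ∧ ∀ Λ : Finset J, 1 ∈ Λ →
      ∃ ι : alternatingGroup β →* Equiv.Perm (J × Fin 5 × ℕ),
        (∀ c ∈ Λ, ∀ c' ∈ Λ, c ≠ c' → ∀ a b,
          Commute (Ltr J (Fin 5 × ℕ) c * ι a * (Ltr J (Fin 5 × ℕ) c)⁻¹)
            (Ltr J (Fin 5 × ℕ) c' * ι b * (Ltr J (Fin 5 × ℕ) c')⁻¹)) ∧
        (∃ z, ∀ c ∈ Λ, ∀ a, (Ltr J (Fin 5 × ℕ) c * ι a * (Ltr J (Fin 5 × ℕ) c)⁻¹) z = z) ∧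
        ∀ (a : A) (Q : Subgroup (Equiv.Perm (J × Fin 5 × ℕ))), Ltr J (Fin 5 × ℕ) (t a) ∈ Q →
          (∀ s, ι s ∈ Q) → (∀ g, Ltr J (Fin 5 × ℕ) g ∈ Q) ∧ Swindle (Ltr J (Fin 5 × ℕ)) Q

end Pool.Agent.PD3K
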