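import Pool.Agent.Lib.MP_d98eb9_al.K.A3
import Pool.Agent.Lib.MP_d98eb9_al.K.VSt

/-! Variant of Theorem K, gauges: one derivation for each cluster of letters. -/

namespace Pool.Agent.PD3K

universe u v

variable {X : Type} {J : Type u} [Group J] {A : Type}

/-- conclusions of the gauge block for a target group `Γ` -/
def AConclV (π : FreeGroup X →* J) (R0 B : Finset (FreeGroup X))
    (S : A → Subgroup (FreeGroup X)) (θ : A → FreeGroup X)
    {p : ℕ} {P : Type} [Group P] (y : FreeGroup (Fin p) →* P) (κ : X → J → FreeGroup (Fin p))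
    (Λ : Finset J) (Γ : Type*) [Group Γ] : Prop :=
  ∀ (τ : FreeGroup X →* Γ) (lev : J → FreeGroup (Fin p) →* Γ), Levels π Λ τ lev →
    (∀ r ∈ R0, rho κ Λ τ lev r = τ r) ∧
    (∀ w ∈ B, rho κ Λ τ lev w * (τ w)⁻¹ ∈ ⨆ c ∈ Λ, (lev c).range) ∧
    ((∀ n, π n = 1 → τ n = 1) → (∀ c f, y f = 1 → lev c f = 1) → ∀ a,
      (lev 1).range ≤ (S a).map (rho κ Λ τ lev) ∧ τ (θ a) ∈ (S a).map (rho κ Λ τ lev))

lemma conclV [Finite A] [DecidableEq J] (π : FreeGroup X →* J) (R0 B : Finset (FreeGroup X))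
    (S : A → Subgroup (FreeGroup X)) (θ : A → FreeGroup X)
    {p : ℕ} {P : Type} [Group P] (y : FreeGroup (Fin p) →* P) (κ : X → J → FreeGroup (Fin p))
    (hκ : ∀ x, ∃ S : Finset J, ∀ c, c ∉ S → κ x c = 1) (hR : ∀ r ∈ R0, kap π κ r = 1)
    (hθ : ∀ a, θ a ∈ S a) (hθs : ∀ a c, c ∉ (S a).map π → kap π κ (θ a) c = 1)
    (hW : ∀ a c i, c ∈ (S a).map π → ∃ n, n ∈ S a ∧ π n = 1 ∧ ∀ c', y (kap π κ n c') =
      (Pi.mulSingle c (y (FreeGroup.of i)) : J → P) c') :
    ∃ T : Finset J, 1 ∈ T ∧ ∀ Λ : Finset J, T ⊆ Λ → ∀ (Γ : Type v) [Group Γ],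
      AConclV π R0 B S θ y κ Λ Γ := by
  classical
  have := Fintype.ofFinite A
  choose S0 hS0 using fun a => kap_supp π κ hκ (θ a)
  choose St hSt using tower.{u, v} π κ hκ
  choose! W hW0 hW1 hW2 using hW
  set Λ0 : Finset J := insert 1 (Finset.univ.biUnion S0) with hΛ0
  set U : Finset (FreeGroup X) := R0 ∪ B ∪ Finset.univ.image θ ∪
    (Finset.univ ×ˢ Λ0 ×ˢ Finset.univ).image fun q : A × J × Fin p => W q.1 q.2.1 q.2.2 with hU
  refine ⟨Λ0 ∪ U.biUnion St,
    Finset.mem_union_left _ (Finset.mem_insert_self _ _), fun Λ hΛ Γ _ τ lev hl => ?_⟩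
  have h0 : Λ0 ⊆ Λ := Finset.subset_union_left.trans hΛ
  have ht : ∀ w ∈ U, rho κ Λ τ lev w = levProd Λ lev (kap π κ w) * τ w := fun w hw =>
    hSt w Λ (((Finset.subset_biUnion_of_mem St hw).trans Finset.subset_union_right).trans hΛ)
      Γ τ lev hl
  refine ⟨fun r hr => ?_, fun w hw => ?_, fun hτ hy a => ?_⟩
  · have h1 : levProd Λ lev (1 : J → FreeGroup (Fin p)) = 1 := map_one (Phi Λ lev hl.2)
    rw [ht r (by simp [hU, hr]), hR r hr, h1, one_mul]
  · rw [ht w (by simp [hU, hw]), mul_inv_cancel_right]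
    refine levProd_mem _ _ _ _ fun c hc => ?_
    exact (le_iSup₂_of_le (f := fun c (_ : c ∈ Λ) => (lev c).range) c hc le_rfl) ⟨_, rfl⟩
  · have h1 : ∀ c ∈ Λ0, c ∈ (S a).map π → (lev c).range ≤ (S a).map (rho κ Λ τ lev) := by
      intro c hc hcH
      refine range_le_of_gen _ _ fun i => ⟨W a c i, hW0 a c i hcH, ?_⟩
      rw [ht _ (Finset.mem_union_right _ (Finset.mem_image.2 ⟨(a, c, i), by simp [hc], rfl⟩)),
        hτ _ (hW1 a c i hcH), mul_one, ← levProd_single Λ lev (h0 hc)]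
      refine levProd_congr _ _ _ _ fun c' _ => ?_
      rw [← mul_inv_eq_one, ← map_inv, ← map_mul]
      apply hy
      rw [map_mul, map_inv, hW2 a c i hcH, mul_inv_eq_one]
      by_cases h : c' = c
      · subst h; simp
      · simp [h]
    refine ⟨h1 1 (Finset.mem_insert_self _ _) (one_mem _), ?_⟩
    have h2 : levProd Λ lev (kap π κ (θ a)) ∈ (S a).map (rho κ Λ τ lev) := by
      refine levProd_mem _ _ _ _ fun c _ => ?_
      by_cases hc : c ∈ S0 a
      · by_cases hcH : c ∈ (S a).map π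
        · exact h1 c (Finset.mem_insert_of_mem (Finset.mem_biUnion.2 ⟨a, by simp, hc⟩)) hcH
            ⟨_, rfl⟩
        · rw [hθs a c hcH, map_one]; exact one_mem _
      · rw [hS0 a c hc, map_one]; exact one_mem _
    have h4 := mul_mem (inv_mem h2)
      (⟨_, hθ a, ht (θ a) (by simp [hU])⟩ : _ ∈ (S a).map (rho κ Λ τ lev))
    simpa using h4

/-- level data of gauges of type `α j` placed at the points `g j` -/
def kgv (d : A → FreeGroup X → J →₀ ℤ) {p : ℕ} (α : Fin p → A) (g : Fin p → J) :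
    X → J → FreeGroup (Fin p) :=
  fun x c =>
    ((List.finRange p).map fun j => FreeGroup.of j ^ d (α j) (FreeGroup.of x) (c * g j)).prod

/-- the word `w` only feels gauges in `T` -/
def LocV (π : FreeGroup X →* J) (d : A → FreeGroup X → J →₀ ℤ) (w : FreeGroup X) (T : Set J) :
    Prop :=
  ∀ (p : ℕ) (α : Fin p → A) (g : Fin p → J) (c : J),
    ((∀ j, c * g j ∉ T) → kap π (kgv d α g) w c = 1) ∧
    ∀ i, (∀ j, c * g j ∈ T → j = i) →
      kap π (kgv d α g) w c = FreeGroup.of i ^ d (α i) w (c * g i)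

variable {π : FreeGroup X →* J} {d : A → FreeGroup X → J →₀ ℤ}

lemma exists_locV [Finite A] (h : ∀ a, IsDer π (d a)) (w : FreeGroup X) :
    ∃ T : Set J, T.Finite ∧ LocV π d w T := by
  induction w using FreeGroup.induction_on with
  | C1 =>
    refine ⟨∅, Set.finite_empty, fun p α g c => ?_⟩
    rw [kap_one]
    exact ⟨fun _ => rfl, fun i _ => by rw [(h _).one]; simp⟩
  | of x =>
    refine ⟨⋃ a, (d a (FreeGroup.of x)).support,
      Set.finite_iUnion fun a => Finset.finite_toSet _, fun p α g c => ?_⟩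
    have key : ∀ j, c * g j ∉ (⋃ a, ((d a (FreeGroup.of x)).support : Set J)) →
        FreeGroup.of j ^ d (α j) (FreeGroup.of x) (c * g j) = 1 := by
      intro j hj
      have : d (α j) (FreeGroup.of x) (c * g j) = 0 := by
        by_contra h0
        exact hj (Set.mem_iUnion.2 ⟨α j, by simpa using h0⟩)
      rw [this]; simp
    rw [kap_of]
    refine ⟨fun hI => ?_, fun i hi => ?_⟩
    · apply List.prod_eq_one
      intro z hz
      obtain ⟨j, _, rfl⟩ := List.mem_map.1 hz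
      exact key j (hI j)
    · rw [kgv, List.prod_map_eq_pow_single i]
      · simp
      · intro j hj _
        exact key j fun h0 => hj (hi j h0)
  | inv_of x ih =>
    obtain ⟨T, hT, hl⟩ := ih
    refine ⟨{z | π (FreeGroup.of x) * z ∈ T}, hT.preimage (mul_right_injective _).injOn,
      fun p α g c => ?_⟩
    rw [kap_inv]
    refine ⟨fun hI => ?_, fun i hi => ?_⟩
    · rw [(hl p α g _).1 fun j hj => hI j (by simpa [mul_assoc] using hj), inv_one]
    · rw [(hl p α g _).2 i fun j hj => hi j (by simpa [mul_assoc] using hj), (h _).inv,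
        mul_assoc, zpow_neg]
  | mul a b ha hb =>
    obtain ⟨T, hT, hl⟩ := ha
    obtain ⟨T', hT', hl'⟩ := hb
    refine ⟨{z | z ∈ T ∨ (π a)⁻¹ * z ∈ T'},
      hT.union (hT'.preimage (mul_right_injective (π a)⁻¹).injOn), fun p α g c => ?_⟩
    rw [kap_mul]
    refine ⟨fun hI => ?_, fun i hi => ?_⟩
    · rw [(hl p α g c).1 fun j hj => hI j (Or.inl hj),
        (hl' p α g _).1 fun j hj => hI j (Or.inr (by simpa [mul_assoc] using hj)), one_mul]
    · rw [(hl p α g c).2 i fun j hj => hi j (Or.inl hj),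
        (hl' p α g _).2 i fun j hj => hi j (Or.inr (by simpa [mul_assoc] using hj)), h _ a b,
        zpow_add, mul_assoc]

/-- gauges that are pairwise far apart are felt one at a time -/
lemma LocV.mem {w : FreeGroup X} {T : Set J} (hw : LocV π d w T) {p : ℕ} (α : Fin p → A)
    (g : Fin p → J) (hg : ∀ i j, ∀ z ∈ T, ∀ z' ∈ T, (g i)⁻¹ * g j = z⁻¹ * z' → i = j) (c : J)
    (G : Subgroup (FreeGroup (Fin p)))
    (hG : ∀ i, d (α i) w (c * g i) ≠ 0 → FreeGroup.of i ∈ G) : kap π (kgv d α g) w c ∈ G := by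
  by_cases h : ∃ i, c * g i ∈ T
  · obtain ⟨i, hi⟩ := h
    rw [(hw p α g c).2 i fun j hj => (hg i j _ hi _ hj (by group)).symm]
    by_cases h0 : d (α i) w (c * g i) = 0
    · rw [h0]; simp
    · exact zpow_mem (hG i h0) _
  · rw [(hw p α g c).1 fun j hj => h ⟨j, hj⟩]
    exact one_mem _

lemma kap_pow_mem {P : Type} [Group P] (κ : X → J → P) (w : FreeGroup X) (G : Subgroup P)
    (c : J) (k : ℕ) (h : ∀ m < k, kap π κ w ((π w ^ m)⁻¹ * c) ∈ G) : kap π κ (w ^ k) c ∈ G := by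
  induction k with
  | zero => rw [pow_zero, kap_one]; exact one_mem _
  | succ k ih =>
    rw [pow_succ, kap_mul, map_pow]
    exact mul_mem (ih fun m hm => h m (by omega)) (h k (by omega))

lemma exists_pos (htf : TF J) {ι : Type} [Finite ι] (t : ι → J) (ht : ∀ i, t i ≠ 1) (D : Set J)
    (hD : D.Finite) : ∃ k : ι → ℕ, ∀ i j, (t i ^ k i)⁻¹ * t j ^ k j ∈ D → i = j := by
  classical
  have := Fintype.ofFinite ι
  have key : ∀ s : Finset ι, ∃ k : ι → ℕ, ∀ i ∈ s, ∀ j ∈ s,
      (t i ^ k i)⁻¹ * t j ^ k j ∈ D → i = j := by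
    intro s
    induction s using Finset.induction_on with
    | empty => exact ⟨fun _ => 0, by simp⟩
    | insert i0 s hi ih =>
      obtain ⟨k, hk⟩ := ih
      have hinj : Function.Injective fun e : ℕ => t i0 ^ e := by
        intro a b hab
        have := htf.pow_inj (ht i0) (a₁ := (a : ℤ)) (a₂ := (b : ℤ)) (by simpa using hab)
        exact_mod_cast this
      have hfin : (⋃ j, ({z | (t j ^ k j)⁻¹ * z ∈ D} ∪ {z | z⁻¹ * t j ^ k j ∈ D})).Finite :=
        Set.finite_iUnion fun j => (hD.preimage (mul_right_injective _).injOn).union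
          (hD.preimage ((mul_left_injective (t j ^ k j)).comp inv_injective).injOn)
      obtain ⟨e, he⟩ := (hfin.preimage hinj.injOn).exists_notMem
      refine ⟨Function.update k i0 e, fun i hi' j hj' h => ?_⟩
      by_cases h1 : i = i0 <;> by_cases h2 : j = i0
      · rw [h1, h2]
      · subst h1
        rw [Function.update_self, Function.update_of_ne h2] at h
        exact absurd (Set.mem_iUnion.2 ⟨j, Or.inr h⟩) he
      · subst h2
        rw [Function.update_self, Function.update_of_ne h1] at h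
        exact absurd (Set.mem_iUnion.2 ⟨i, Or.inl h⟩) he
      · rw [Function.update_of_ne h1, Function.update_of_ne h2] at h
        exact hk i (by simpa [h1] using hi') j (by simpa [h2] using hj') h
  obtain ⟨k, hk⟩ := key Finset.univ
  exact ⟨k, fun i j => hk i (by simp) j (by simp)⟩

theorem kav [Finite X] [Finite A] (htf : TF J) (hd : ∀ a, IsDer π (d a))
    (S : A → Subgroup (FreeGroup X)) (n θ : A → FreeGroup X)
    (h1 : ∀ a, n a ∈ S a ∧ π (n a) = 1 ∧ d a (n a) 1 ≠ 0 ∧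
      ∀ b g, (b ≠ a ∨ g ∉ (S a).map π) → d b (n a) g = 0)
    (h2 : ∀ a, θ a ∈ S a ∧ π (θ a) ≠ 1 ∧ ∀ b g, (b ≠ a ∨ g ∉ (S a).map π) → d b (θ a) g = 0)
    (R0 B : Finset (FreeGroup X)) (hR0 : ∀ r ∈ R0, ∀ a, d a r = 0) :
    ∃ m0 : ℕ, ∀ (l p : ℕ) (P : Type) [Group P] [IsSimpleGroup P] (y : FreeGroup (Fin p) →* P)
      (α : Fin p → A), l.Prime → m0 < l → (∃ a b : P, a * b ≠ b * a) →
      (∀ a (G : Subgroup P), (∀ i, α i = a → y (FreeGroup.of i) ∈ G) → ∀ x, x ∈ G) →
      (∀ i, y (FreeGroup.of i) ^ l = 1) →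
      ∃ (κ : X → J → FreeGroup (Fin p)) (Λ : Finset J), 1 ∈ Λ ∧
        AConclV π R0 B S θ y κ Λ (Equiv.Perm (J × Fin 5 × ℕ)) ∧
        ∀ (E : Type) [Group E], AConclV π R0 B S θ y κ Λ E := by
  classical
  have := Fintype.ofFinite A
  have := Fintype.ofFinite X
  refine ⟨Finset.univ.sup fun a => (d a (n a) 1).natAbs,
    fun l p P _ _ y α hl hml hnc hy hyl => ?_⟩
  choose T hTf hT using exists_locV hd
  have hK0 : ∀ a, ∃ K : ℕ, ∀ b : ℤ, d a (θ a) (π (θ a) ^ b) ≠ 0 → b.natAbs ≤ K := by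
    intro a
    obtain ⟨K, hK⟩ := (((d a (θ a)).support.finite_toSet.preimage
      (htf.pow_inj (h2 a).2.1).injOn).image Int.natAbs).bddAbove
    exact ⟨K, fun b hb => hK ⟨b, by simpa using hb, rfl⟩⟩
  choose K hK using hK0
  set U : Finset (FreeGroup X) := R0 ∪ Finset.univ.image n ∪ Finset.univ.image θ with hU
  have hfin : ((⋃ r ∈ U, (fun q : J × J => q.1⁻¹ * q.2) '' (T r ×ˢ T r)) ∪ (⋃ a, T (n a)) ∪
      ⋃ a, (fun b : ℤ => π (θ a) ^ b) '' Set.Icc (-(2 * K a : ℤ)) (2 * K a)).Finite :=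
    ((Set.Finite.biUnion U.finite_toSet fun r _ => ((hTf r).prod (hTf r)).image _).union
      (Set.finite_iUnion fun a => hTf _)).union
      (Set.finite_iUnion fun a => (Set.finite_Icc _ _).image _)
  obtain ⟨k, hk⟩ := exists_pos htf (fun i => π (θ (α i))) (fun i => (h2 _).2.1) _ hfin
  set g : Fin p → J := fun i => π (θ (α i)) ^ k i with hg
  have hgH : ∀ i, g i ∈ (S (α i)).map π := fun i =>
    pow_mem (Subgroup.mem_map_of_mem π (h2 _).1) _
  have hfar : ∀ w ∈ U, ∀ i j, ∀ z ∈ T w, ∀ z' ∈ T w, (g i)⁻¹ * g j = z⁻¹ * z' → i = j :=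
    fun w hw i j z hz z' hz' h =>
      hk i j (Or.inl (Or.inl (Set.mem_biUnion hw ⟨(z, z'), ⟨hz, hz'⟩, h.symm⟩)))
  have hq : ∀ (t : J) (a b : ℕ), (t ^ a)⁻¹ * t ^ b = t ^ ((b : ℤ) - a) := by
    intro t a b
    rw [← zpow_natCast, ← zpow_natCast, ← zpow_neg, ← zpow_add]; congr 1; ring
  have hk3 : ∀ i j, α j = α i → ((k j : ℤ) - k i).natAbs ≤ 2 * K (α i) → i = j := by
    intro i j hij h
    refine hk i j (Or.inr (Set.mem_iUnion.2 ⟨α i, (k j : ℤ) - k i, ⟨by omega, by omega⟩, ?_⟩))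
    simp only [hij, hq]
  have hκ : ∀ x, ∃ S : Finset J, ∀ c, c ∉ S → kgv d α g x c = 1 := by
    intro x
    refine ⟨Finset.univ.biUnion fun j => (hTf (FreeGroup.of x)).toFinset.image (· * (g j)⁻¹),
      fun c hc => ?_⟩
    have := (hT (FreeGroup.of x) p α g c).1 fun j hj =>
      hc (Finset.mem_biUnion.2 ⟨j, by simp, Finset.mem_image.2 ⟨c * g j, by simpa using hj,
        by simp⟩⟩)
    simpa [kap_of] using this
  have hR : ∀ r ∈ R0, kap π (kgv d α g) r = 1 := by
    intro r hr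
    funext c
    exact Subgroup.mem_bot.1 ((hT r).mem α g (hfar r (by simp [hU, hr])) c ⊥
      fun i hi => absurd (by rw [hR0 r hr]; rfl) hi)
  have hoff : ∀ a, ∀ w ∈ U, (∀ b z, (b ≠ a ∨ z ∉ (S a).map π) → d b w z = 0) →
      ∀ c, c ∉ (S a).map π → kap π (kgv d α g) w c = 1 := by
    intro a w hw h c hc
    refine Subgroup.mem_bot.1 ((hT w).mem α g (hfar w hw) c ⊥ fun i hi => absurd (h _ _ ?_) hi)
    by_cases e : α i = a
    · subst e
      exact Or.inr fun h' => hc (by simpa using mul_mem h' (inv_mem (hgH i)))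
    · exact Or.inl e
  have hW : ∀ a c i, c ∈ (S a).map π → ∃ m, m ∈ S a ∧ π m = 1 ∧
      ∀ c', y (kap π (kgv d α g) m c') = (Pi.mulSingle c (y (FreeGroup.of i)) : J → P) c' := by
    intro a
    let M : Subgroup ((S a).map π → P) :=
      { carrier := {m | ∃ w ∈ S a, π w = 1 ∧
          (∀ c, c ∉ (S a).map π → kap π (kgv d α g) w c = 1) ∧
          ∀ c : (S a).map π, y (kap π (kgv d α g) w c) = m c}
        one_mem' := ⟨1, one_mem _, map_one _, fun c _ => by rw [kap_one]; rfl,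
          fun c => by rw [kap_one]; simp⟩
        mul_mem' := by
          rintro m m' ⟨w, h0, h1, h2, h3⟩ ⟨w', h0', h1', h2', h3'⟩
          exact ⟨w * w', mul_mem h0 h0', by simp [h1, h1'],
            fun c hc => by simp [kap_mul, h1, h2 c hc, h2' c hc],
            fun c => by simp [kap_mul, h1, h3, h3']⟩
        inv_mem' := by
          rintro m ⟨w, h0, h1, h2, h3⟩
          exact ⟨w⁻¹, inv_mem h0, by simp [h1], fun c hc => by simp [kap_inv, h1, h2 c hc],
            fun c => by simp [kap_inv, h1, h3]⟩ }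
    have hconj : ∀ w ∈ S a, ∀ m, π m = 1 → (∀ c, c ∉ (S a).map π → kap π (kgv d α g) m c = 1) →
        ∀ c, c ∉ (S a).map π → kap π (kgv d α g) (w * m * w⁻¹) c = 1 := by
      intro w hw m h1 h2 c hc
      rw [kap_conj π _ w m h1, h2 _ fun h => hc
        (by simpa using mul_mem (Subgroup.mem_map_of_mem π hw) h)]
      simp
    have hgen : ∀ (N : ℕ) (i : Fin p), α i = a → k i = N → y (FreeGroup.of i) ∈ NZ M ∅ := by
      intro N
      induction N using Nat.strong_induction_on with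
      | h N ih =>
      rintro i rfl rfl
      obtain ⟨b0, hb0⟩ : ∃ b0, k i = (k i - K (α i)) + b0 := ⟨k i - (k i - K (α i)), by omega⟩
      set a0 := k i - K (α i) with ha0
      have hact : ∀ (m : ℕ) (j : Fin p),
          d (α j) (θ (α i)) ((π (θ (α i)) ^ m)⁻¹ * g j) ≠ 0 →
          α j = α i ∧ ((k j : ℤ) - m).natAbs ≤ K (α i) := by
        intro m j hj
        have e : α j = α i := by
          by_contra e
          exact hj ((h2 _).2.2 _ _ (Or.inl e))
        refine ⟨e, hK _ _ ?_⟩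
        simpa only [hg, e, hq] using hj
      have e5 : y (kap π (kgv d α g) (θ (α i) ^ a0) 1) ∈ NZ M ∅ := by
        refine kap_pow_mem _ _ ((NZ M ∅).comap y) 1 a0 fun m hm => ?_
        refine (hT _).mem α g (hfar _ (by simp [hU])) _ _ fun j hj => ?_
        rw [mul_one] at hj
        obtain ⟨e1, e2⟩ := hact m j hj
        exact ih (k j) (by omega) j e1 rfl
      have e2 : kap π (kgv d α g) (θ (α i) ^ b0) ((π (θ (α i) ^ a0))⁻¹ * 1) ∈
          Subgroup.zpowers (FreeGroup.of i) := by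
        refine kap_pow_mem _ _ _ _ b0 fun m hm => ?_
        refine (hT _).mem α g (hfar _ (by simp [hU])) _ _ fun j hj => ?_
        rw [mul_one, map_pow, ← mul_inv_rev, ← pow_add] at hj
        obtain ⟨e1, e2⟩ := hact _ j hj
        rw [← hk3 i j e1 (by push_cast at e2; omega)]
        exact Subgroup.mem_zpowers _
      obtain ⟨z, e2⟩ := e2
      have hπw : π (θ (α i) ^ a0 * θ (α i) ^ b0) = g i := by
        rw [← pow_add, ← hb0, map_pow]
      have e3 := (hT (n (α i)) p α g ((g i)⁻¹ * 1)).2 i fun j hz =>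
        (hk i j (Or.inl (Or.inr (Set.mem_iUnion.2 ⟨α i, by simpa using hz⟩)))).symm
      rw [mul_one, inv_mul_cancel] at e3
      have hw : θ (α i) ^ a0 * θ (α i) ^ b0 ∈ S (α i) :=
        mul_mem (pow_mem (h2 _).1 _) (pow_mem (h2 _).1 _)
      have e6 : y (kap π (kgv d α g) ((θ (α i) ^ a0 * θ (α i) ^ b0) * n (α i) *
          (θ (α i) ^ a0 * θ (α i) ^ b0)⁻¹) 1) ∈ NZ M ∅ :=
        ⟨fun c => y (kap π (kgv d α g) ((θ (α i) ^ a0 * θ (α i) ^ b0) * n (α i) *
          (θ (α i) ^ a0 * θ (α i) ^ b0)⁻¹) c),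
          ⟨_, mul_mem (mul_mem hw (h1 _).1) (inv_mem hw), by simp [(h1 _).2.1],
            hconj _ hw _ (h1 _).2.1 (hoff _ _ (by simp [hU]) (h1 _).2.2.2), fun _ => rfl⟩,
          by simp, rfl⟩
      rw [kap_conj π _ _ _ (h1 _).2.1, hπw, mul_one, e3, kap_mul, ← e2] at e6
      have e7 := mul_mem (mul_mem (inv_mem e5) e6) e5
      have e8 : y (FreeGroup.of i) ^ d (α i) (n (α i)) 1 ∈ NZ M ∅ := by
        convert e7 using 1
        simp only [map_mul, map_inv, map_zpow]
        group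
      have hlt : (d (α i) (n (α i)) 1).natAbs < l :=
        lt_of_le_of_lt (Finset.le_sup (f := fun a => (d a (n a) 1).natAbs) (Finset.mem_univ _)) hml
      have hcop : IsCoprime (d (α i) (n (α i)) 1) (l : ℤ) := by
        rw [Int.isCoprime_iff_gcd_eq_one, Int.gcd_eq_natAbs, Int.natAbs_natCast]
        exact ((Nat.coprime_of_lt_prime (Int.natAbs_ne_zero.2 (h1 _).2.2.1) hlt hl)).symm
      obtain ⟨a, b, hab⟩ := hcop
      have e9 : y (FreeGroup.of i) = (y (FreeGroup.of i) ^ d (α i) (n (α i)) 1) ^ a := by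
        have : y (FreeGroup.of i) ^ (b * l) = 1 := by
          rw [mul_comm, zpow_mul, zpow_natCast, hyl, one_zpow]
        rw [← zpow_mul, ← mul_one (y (FreeGroup.of i) ^ (d (α i) (n (α i)) 1 * a)), ← this,
          ← zpow_add, mul_comm (d (α i) (n (α i)) 1), hab, zpow_one]
      rw [e9]
      exact zpow_mem e8 a
    have hsing : ∀ c x, Pi.mulSingle c x ∈ M := by
      refine goursat (fun z m hm h => Subtype.ext (htf z m hm (congrArg Subtype.val h))) hnc M
        ?_ ?_ ?_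
      · rintro m ⟨w, _, _, _, h2⟩
        obtain ⟨V, hV⟩ := kap_supp π _ hκ w
        exact ⟨V.subtype (· ∈ (S a).map π), fun c hc => by
          rw [← h2, hV c (by simpa using hc), map_one]⟩
      · rintro ⟨_, w, hw, rfl⟩
        refine ⟨fun c => y (kap π (kgv d α g) w c), ?_⟩
        rintro m ⟨v, h0, h1, h2, h3⟩
        refine ⟨w * v * w⁻¹, mul_mem (mul_mem hw h0) (inv_mem hw), by simp [h1],
          hconj w hw v h1 h2, fun c => ?_⟩
        rw [kap_conj π _ w v h1, map_mul, map_mul, map_inv]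
        exact congrArg (fun x => _ * x * _) (h3 ((⟨π w, w, hw, rfl⟩ : (S a).map π)⁻¹ * c))
      · intro x
        obtain ⟨m, hm, _, h⟩ := hy a (NZ M ∅) (fun i hi => hgen _ i hi rfl) x
        exact ⟨m, hm, h⟩
    intro c i hc
    obtain ⟨w, h0, h1, h2, h3⟩ := hsing ⟨c, hc⟩ (y (FreeGroup.of i))
    refine ⟨w, h0, h1, fun c' => ?_⟩
    by_cases hc' : c' ∈ (S a).map π
    · rw [h3 ⟨c', hc'⟩]
      by_cases e : c' = c
      · subst e; simp
      · rw [Pi.mulSingle_eq_of_ne e, Pi.mulSingle_eq_of_ne fun h => e (congrArg Subtype.val h)]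
    · rw [h2 c' hc', map_one, Pi.mulSingle_eq_of_ne fun h => hc' (by rw [h]; exact hc)]
  have hθs := fun a => hoff a (θ a) (by simp [hU]) (h2 a).2.2
  obtain ⟨V, h1, hV⟩ := conclV.{u, u} π R0 B S θ y _ hκ hR (fun a => (h2 a).1) hθs hW
  obtain ⟨V', _, hV'⟩ := conclV.{u, 0} π R0 B S θ y _ hκ hR (fun a => (h2 a).1) hθs hW
  exact ⟨_, V ∪ V', Finset.mem_union_left _ h1, hV _ Finset.subset_union_left _,
    fun E _ => hV' _ Finset.subset_union_right E⟩

end Pool.Agent.PD3K
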