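import Pool.Agent.Lib.MP_d98eb9_al.K.L
import Pool.Agent.Lib.MP_d98eb9_al.K.VA

/-! Variant of Theorem K: assembly. -/

namespace Pool.Agent.PD3K

universe u

open scoped commutatorElement

lemma IsDer.conj {X : Type} {J : Type u} [Group J] {π : FreeGroup X →* J}
    {d : FreeGroup X → J →₀ ℤ} (h : IsDer π d) (w n : FreeGroup X) (hn : π n = 1) (g : J) :
    d (w * n * w⁻¹) g = d n ((π w)⁻¹ * g) := by
  rw [h, h, h.inv, map_mul π, hn, mul_one, mul_inv_cancel_left]
  omega

theorem klv (hM : KMV.{u}) : KV0.{u} := by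
  intro X _ J _ _ π A _ _ d S n0 θ htf hπ hd hn0 hθ R0 B hR0 hB
  classical
  have hn1 : ∀ a, ∃ n, n ∈ S a ∧ π n = 1 ∧ d a n 1 ≠ 0 ∧
      ∀ b g, (b ≠ a ∨ g ∉ (S a).map π) → d b n g = 0 := by
    intro a
    obtain ⟨h0, h1, h2, h3⟩ := hn0 a
    obtain ⟨σ, hσ⟩ : ∃ σ, d a (n0 a) σ ≠ 0 := by
      by_contra hh
      push Not at hh
      exact h2 (Finsupp.ext hh)
    obtain ⟨s, hs, rfl⟩ : σ ∈ (S a).map π := by
      by_contra hh
      exact hσ (h3 a σ (Or.inr hh))
    refine ⟨s⁻¹ * n0 a * s⁻¹⁻¹, mul_mem (mul_mem (inv_mem hs) h0) (inv_mem (inv_mem hs)),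
      by simp [h1], by rw [(hd a).conj _ _ h1]; simpa using hσ, fun b g hg => ?_⟩
    rw [(hd b).conj _ _ h1]
    refine h3 b _ (hg.imp_right fun h h' => h ?_)
    simpa using mul_mem (Subgroup.mem_map_of_mem π (inv_mem hs)) h'
  choose n hn using hn1
  obtain ⟨m0, hA⟩ := kav htf hd S n θ hn hθ R0 B fun r hr => (hR0 r hr).2
  obtain ⟨l, hl1, hl⟩ := Nat.exists_infinite_primes (m0 + 5)
  obtain ⟨β, _, _, hβ, hM⟩ := hM X J π htf hπ A (fun a => π (θ a)) (fun a => (hθ a).2.1) l
  obtain ⟨p0, y0, hy0, hyl0⟩ := ky β l hl (by omega) hβ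
  obtain ⟨p, ⟨eq⟩⟩ := Finite.exists_equiv_fin (A × Fin p0)
  let y : FreeGroup (Fin p) →* alternatingGroup β :=
    FreeGroup.lift fun i => y0 (FreeGroup.of (eq.symm i).2)
  have hgen : ∀ a (G : Subgroup (alternatingGroup β)),
      (∀ i, (eq.symm i).1 = a → y (FreeGroup.of i) ∈ G) → ∀ x, x ∈ G := by
    intro a G hG x
    refine range_le_of_gen y0 G (fun i => ?_) (hy0 x)
    simpa [y] using hG (eq (a, i)) (by simp)
  obtain ⟨a0⟩ := ‹Nonempty A›
  have hy : Function.Surjective y := fun x => hgen a0 y.range (fun i _ => ⟨_, rfl⟩) x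
  have h5 : 5 ≤ Nat.card β := by rw [Nat.card_eq_fintype_card]; omega
  have hs : IsSimpleGroup (alternatingGroup β) := alternatingGroup.isSimpleGroup h5
  have hperf := commutator_alternatingGroup_eq_top h5
  have hnc : ∃ a b : alternatingGroup β, a * b ≠ b * a := by
    by_contra hh
    push Not at hh
    have : commutator (alternatingGroup β) = ⊥ := by
      rw [eq_bot_iff, commutator_def, Subgroup.commutator_le]
      intro a _ b _
      exact commutatorElement_eq_one_iff_mul_comm.2 (hh a b)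
    rw [hperf] at this
    exact top_ne_bot this
  obtain ⟨κ, Λ, h1, hA1, hA2⟩ := hA l p _ y (fun i => (eq.symm i).1) hl (by omega) hnc hgen
    (fun i => by simpa [y] using hyl0 _)
  obtain ⟨ι, hcomm, ⟨z, hz⟩, hsw⟩ := hM Λ h1
  set L := Ltr J (Fin 5 × ℕ) with hL
  set τ := L.comp π with hτ
  let lev : J → FreeGroup (Fin p) →* Equiv.Perm (J × Fin 5 × ℕ) := fun c =>
    (MulAut.conj (L c)).toMonoidHom.comp (ι.comp y)
  have hlev : ∀ c f, lev c f = L c * ι (y f) * (L c)⁻¹ := fun _ _ => rfl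
  have hlv : Levels π Λ τ lev := by
    refine ⟨fun w c f => ?_, fun c hc c' hc' h f f' => hcomm c hc c' hc' h _ _⟩
    simp only [hlev, hτ, MonoidHom.comp_apply, map_mul]
    group
  obtain ⟨a1, a2, a3⟩ := hA1 τ lev hlv
  have a4 := a3 (fun n h => by simp [hτ, h]) (fun c f h => by simp [hlev, h])
  set ρ := rho κ Λ τ lev with hρ
  have hι : ∀ a s, ι s ∈ (S a).map ρ := by
    intro a s
    obtain ⟨f, rfl⟩ := hy s
    exact (a4 a).1 ⟨f, by simp [hlev]⟩
  have hLa : ∀ a g, L g ∈ (S a).map ρ := fun a => (hsw a _ (a4 a).2 (hι a)).1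
  have hall : ∀ a, ρ.range ≤ (S a).map ρ := by
    intro a
    refine range_le_of_gen _ _ fun x => ?_
    rw [hρ, rho, FreeGroup.lift_apply_of]
    exact mul_mem (levProd_mem _ _ _ _ fun c _ =>
      mul_mem (mul_mem (hLa a c) (hι a _)) (inv_mem (hLa a c))) (hLa a _)
  have hle : (S a0).map ρ ≤ ρ.range := Subgroup.map_le_range _ _
  have b1 : (lev 1).range ≤ ρ.range := (a4 a0).1.trans hle
  have b2 : τ.range ≤ ρ.range := by
    rintro _ ⟨w, rfl⟩
    exact hle (hLa a0 _)
  refine ⟨ρ.ker, inferInstance, fun r hr => ?_, fun w hw hw1 => ?_, fun r hr hrc => ?_,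
    fun a => ?_⟩
  · rw [MonoidHom.mem_ker, a1 r hr]; simp [hτ, (hR0 r hr).1]
  · have h2 := a2 w hw
    rw [MonoidHom.mem_ker.1 hw1, one_mul] at h2
    have h3 : (⨆ c ∈ Λ, (lev c).range) ≤ MulAction.stabilizer (Equiv.Perm (J × Fin 5 × ℕ)) z := by
      refine iSup₂_le fun c hc => ?_
      rintro _ ⟨f, rfl⟩
      exact hz c hc _
    have h4 : τ w z = z := by simpa using inv_mem (h3 h2)
    have h5 : π w * z.1 = z.1 := congrArg Prod.fst h4
    exact hB w hw (by simpa using h5)
  · have hsw' : Swindle L ρ.range :=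
      (hsw a0 _ (hle (hLa a0 _)) fun s => hle (hι a0 s)).2
    let N : Subgroup (FreeGroup X) := ⁅(⊤ : Subgroup (FreeGroup X)), ρ.ker⁆
    let φ : FreeGroup X ⧸ N →* Equiv.Perm (J × Fin 5 × ℕ) :=
      QuotientGroup.lift N ρ (Subgroup.commutator_le_right _ _)
    have hφ0 : ∀ w : FreeGroup X, φ (QuotientGroup.mk' N w) = ρ w := fun _ => rfl
    have hφ : φ.ker ≤ Subgroup.center _ := by
      intro a ha
      obtain ⟨w, rfl⟩ := QuotientGroup.mk'_surjective N a
      rw [Subgroup.mem_center_iff]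
      intro b
      obtain ⟨v, rfl⟩ := QuotientGroup.mk'_surjective N b
      rw [← commutatorElement_eq_one_iff_mul_comm, ← map_commutatorElement]
      exact (QuotientGroup.eq_one_iff _).2
        (Subgroup.commutator_mem_commutator (Subgroup.mem_top _) ha)
    have hQ : ρ.range ≤ φ.range := by
      rintro _ ⟨w, rfl⟩
      exact ⟨_, hφ0 w⟩
    obtain ⟨τ', hτ'⟩ := exists_lift (φ := φ) τ fun w => hQ (b2 ⟨w, rfl⟩)
    obtain ⟨y', hy'⟩ := exists_lift (φ := φ) (lev 1) fun w => hQ (b1 ⟨w, rfl⟩)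
    choose sec hsec using hπ
    let lev' : J → FreeGroup (Fin p) →* FreeGroup X ⧸ N := fun c =>
      (MulAut.conj (τ' (sec c))).toMonoidHom.comp y'
    have hlev' : ∀ c f, lev' c f = τ' (sec c) * y' f * (τ' (sec c))⁻¹ := fun _ _ => rfl
    have hφl : ∀ c f, φ (lev' c f) = lev c f := by
      intro c f
      simp [hlev', hτ', hy', hlev, hτ, hsec]
    have hlv' : Levels π Λ τ' lev' := by
      refine ⟨fun w c f => ?_, fun c hc c' hc' h f f' => ?_⟩
      · rw [hlev', hlev', ← conj_eq hφ (a := τ' w * τ' (sec c)) (a' := τ' (sec (π w * c)))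
          (by rw [map_mul, hτ', hτ', hτ']; simp [hτ, hsec])]
        group
      · have h2 : y f' ∈ (commutator (FreeGroup (Fin p))).map y := by
          rw [map_commutator_eq, MonoidHom.range_eq_top.2 hy, ← commutator_def, hperf]
          trivial
        obtain ⟨f'', hf, hf'⟩ := h2
        have h3 := eq_on_comm hφ ((MulAut.conj (lev' c f)).toMonoidHom.comp (lev' c')) (lev' c')
          (fun x => by
            have := (hlv.2 c hc c' hc' h f x).eq
            simp [hφl, this]) f'' hf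
        rw [← commutatorElement_eq_one_iff_commute,
          comm_eq hφ (a' := lev' c f) (b' := lev' c' f'') rfl (by simp [hφl, hlev, hf']),
          commutatorElement_def]
        change lev' c f * lev' c' f'' * (lev' c f)⁻¹ = _ at h3
        rw [h3]; simp
    have c1 := (hA2 _ τ' lev' hlv').1
    let H : Subgroup (FreeGroup X) := π.ker ⊓ (rho κ Λ τ' lev').eqLocus τ'
    have hH : H.Normal := by
      constructor
      rintro n ⟨h1, h2⟩ w
      have h1' : π n = 1 := h1
      have h2' : rho κ Λ τ' lev' n = τ' n := h2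
      have hc := Subgroup.mem_center_iff.1 (hφ (show φ (τ' n) = 1 by simp [hτ', hτ, h1']))
      refine ⟨by simp [h1'], ?_⟩
      change rho κ Λ τ' lev' _ = τ' _
      simp [h2', hc]
    have c2 : Subgroup.normalClosure (R0 : Set (FreeGroup X)) ≤ H :=
      Subgroup.normalClosure_le_normal fun r hr => ⟨(hR0 r hr).1, c1 r hr⟩
    have c3 : QuotientGroup.mk' N r = rho κ Λ τ' lev' r :=
      eq_on_comm hφ _ _ (fun x => by rw [hφ0, rho_nat φ κ Λ τ' lev' τ lev hτ' hφl]) r hrc
    have c4 : τ' r = 1 :=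
      ks X J _ L _ hsw' _ φ hφ hQ π τ' (MonoidHom.ext hτ') r (c2 hr).1 hrc
    rw [show rho κ Λ τ' lev' r = τ' r from (c2 hr).2, c4] at c3
    exact (QuotientGroup.eq_one_iff _).1 c3
  · rw [eq_top_iff]
    intro w _
    obtain ⟨s, hs, e⟩ := hall a ⟨w, rfl⟩
    have : w = s * (s⁻¹ * w) := by group
    rw [this]
    exact Subgroup.mul_mem_sup hs (by simp [MonoidHom.mem_ker, e])

lemma exists_der {X : Type} {J : Type u} [Group J] (π : FreeGroup X →* J) (v : X → J →₀ ℤ) :
    ∃ d : FreeGroup X → J →₀ ℤ, IsDer π d ∧ ∀ x, d (FreeGroup.of x) = v x := by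
  choose S hS using kap_supp π (fun x c => Multiplicative.ofAdd (v x c))
    (fun x => ⟨(v x).support, fun c hc => by simpa using hc⟩)
  refine ⟨fun w => Finsupp.onFinset (S w)
    (fun c => (kap π (fun x c => Multiplicative.ofAdd (v x c)) w c).toAdd)
    (fun c hc => by by_contra h; exact hc (by rw [hS w c h]; rfl)), fun a b g => ?_, fun x => ?_⟩
  · simp [kap_mul]
  · ext c; simp [kap_of]

lemma IsDer.ext {X : Type} {J : Type u} [Group J] {π : FreeGroup X →* J}
    {d d' : FreeGroup X → J →₀ ℤ} (h : IsDer π d) (h' : IsDer π d')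
    (e : ∀ x, d (FreeGroup.of x) = d' (FreeGroup.of x)) (w : FreeGroup X) : d w = d' w := by
  induction w using FreeGroup.induction_on with
  | C1 => ext g; rw [h.one, h'.one]
  | of x => exact e x
  | inv_of x ih => ext g; rw [h.inv, h'.inv, ih]
  | mul a b ha hb => ext g; rw [h, h', ha, hb]

theorem kv_of (hV : KV0.{u}) : KV.{u} := by
  intro X _ J _ _ π A _ _ d S n θ f htf hπ hd hn hθ R0 B hR0 hB
  classical
  let π' : FreeGroup (X ⊕ A) →* J :=
    FreeGroup.lift (Sum.elim (fun x => π (FreeGroup.of x)) fun _ => 1)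
  let j : FreeGroup X →* FreeGroup (X ⊕ A) := FreeGroup.map Sum.inl
  let s : A → FreeGroup (X ⊕ A) := fun a => FreeGroup.of (Sum.inr a)
  have hj : ∀ w, π' (j w) = π w := fun w =>
    DFunLike.congr_fun (show π'.comp j = π by ext x; simp [π', j]) w
  have hs : ∀ a, π' (s a) = 1 := fun a => by simp [π', s]
  choose d' hd' hv using fun b =>
    exists_der π' (Sum.elim (fun x => d b (FreeGroup.of x)) fun a => f a b)
  have hdj : ∀ b w, d' b (j w) = d b w := fun b =>
    IsDer.ext (d := fun w => d' b (j w))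
      (fun u v g => by simp only [map_mul j, hd' b _ _ g, hj]) (hd b)
      fun x => by simpa [j] using hv b (Sum.inl x)
  let φ : A → FreeGroup X →* FreeGroup (X ⊕ A) := fun a =>
    (MulAut.conj (s a)⁻¹).toMonoidHom.comp j
  have hφ : ∀ a w, φ a w = (s a)⁻¹ * j w * s a := fun a w => by simp [φ]
  have hπφ : ∀ a w, π' (φ a w) = π w := fun a w => by simp [hφ, hs, hj]
  have hdφ : ∀ a b w g, d' b (φ a w) g = d b w g - (f a b g - f a b ((π w)⁻¹ * g)) := by
    intro a b w g
    have e : d' b (s a) = f a b := hv b (Sum.inr a)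
    rw [hφ, hd' b, hd' b, (hd' b).inv, e, hdj]
    simp only [map_mul, map_inv, hs, hj, inv_one, one_mul]
    omega
  have hmap : ∀ a, ((S a).map (φ a)).map π' = (S a).map π := fun a => by
    rw [Subgroup.map_map]
    congr 1
    exact MonoidHom.ext (hπφ a)
  obtain ⟨N, hN, c1, c2, c3, c4⟩ := hV (X ⊕ A) J π' A d' (fun a => (S a).map (φ a))
    (fun a => φ a (n a)) (fun a => φ a (θ a)) htf
    (fun g => by obtain ⟨w, rfl⟩ := hπ g; exact ⟨j w, hj w⟩) hd'
    (fun a => by
      obtain ⟨h0, h1, h2, h3⟩ := hn a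
      refine ⟨Subgroup.mem_map_of_mem _ h0, by rw [hπφ, h1], fun h => h2 ?_, fun b g hg => ?_⟩
      · ext g
        have := hdφ a a (n a) g
        rw [h, h1] at this
        simpa using this.symm
      · rw [hmap] at hg
        rw [hdφ, h1, h3 b g hg]; simp)
    (fun a => by
      obtain ⟨h0, h1, h3⟩ := hθ a
      refine ⟨Subgroup.mem_map_of_mem _ h0, by rwa [hπφ], fun b g hg => ?_⟩
      rw [hmap] at hg
      rw [hdφ, h3 b g hg, sub_self])
    (R0.image j) (B.image j)
    (fun r hr => by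
      obtain ⟨r', hr', rfl⟩ := Finset.mem_image.1 hr
      exact ⟨by rw [hj, (hR0 r' hr').1], fun b => by rw [hdj, (hR0 r' hr').2]⟩)
    (fun w hw => by
      obtain ⟨w', hw', rfl⟩ := Finset.mem_image.1 hw
      rw [hj]; exact hB w' hw')
  have key : ∀ a v, ∃ w ∈ S a, (j w)⁻¹ * v ∈ N := by
    intro a v
    have h : (s a)⁻¹ * v * s a ∈ (S a).map (φ a) ⊔ N := c4 a ▸ Subgroup.mem_top _
    obtain ⟨_, ⟨w, hw, rfl⟩, m, hm, e⟩ := Subgroup.mem_sup_of_normal_right.1 h
    refine ⟨w, hw, ?_⟩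
    have e2 : (j w)⁻¹ * v = s a * m * (s a)⁻¹ := by
      rw [hφ] at e
      calc (j w)⁻¹ * v = (j w)⁻¹ * s a * ((s a)⁻¹ * v * s a) * (s a)⁻¹ := by group
        _ = _ := by rw [← e]; group
    rw [e2]
    exact hN.conj_mem m hm _
  choose w0 _ hw0 using fun a => key a (s a)
  let ψ : FreeGroup (X ⊕ A) →* FreeGroup X := FreeGroup.lift (Sum.elim FreeGroup.of w0)
  have hψj : ∀ w, ψ (j w) = w := fun w =>
    DFunLike.congr_fun (show ψ.comp j = MonoidHom.id _ by ext x; simp [ψ, j]) w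
  have hψ : (QuotientGroup.mk' N).comp (j.comp ψ) = QuotientGroup.mk' N := by
    ext x
    rcases x with x | a
    · simp [ψ, j]
    · simpa [ψ, QuotientGroup.eq] using hw0 a
  have hψN : N.map ψ ≤ N.comap j := by
    rintro _ ⟨m, hm, rfl⟩
    have := DFunLike.congr_fun hψ m
    exact (QuotientGroup.eq_one_iff (N := N) (j (ψ m))).1
      (this.trans ((QuotientGroup.eq_one_iff _).2 hm))
  refine ⟨N.comap j, inferInstance, fun r hr => c1 _ (Finset.mem_image_of_mem _ hr),
    fun w hw => c2 _ (Finset.mem_image_of_mem _ hw), fun r hr hrc => ?_, fun a => ?_⟩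
  · have e1 : Subgroup.normalClosure (R0 : Set (FreeGroup X)) ≤
        (Subgroup.normalClosure ((R0.image j : Finset _) : Set (FreeGroup (X ⊕ A)))).comap j :=
      Subgroup.normalClosure_le_normal fun r hr =>
        Subgroup.subset_normalClosure (Finset.mem_coe.2 (Finset.mem_image_of_mem _ hr))
    have e2 : j r ∈ commutator (FreeGroup (X ⊕ A)) := by
      have := Subgroup.mem_map_of_mem j hrc
      rw [commutator_def, Subgroup.map_commutator] at this
      exact Subgroup.commutator_mono le_top le_top this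
    have e3 := Subgroup.mem_map_of_mem ψ (c3 _ (e1 hr) e2)
    rw [hψj, Subgroup.map_commutator] at e3
    exact Subgroup.commutator_mono le_top hψN e3
  · rw [eq_top_iff]
    intro v _
    obtain ⟨w, hw, h⟩ := key a (j v)
    have : v = w * (w⁻¹ * v) := by group
    rw [this]
    exact Subgroup.mul_mem_sup hw (by simpa [Subgroup.mem_comap] using h)

/-- the variant of Theorem K follows from the model block -/
theorem kv_of_kmv (hM : KMV.{u}) : KV.{u} := kv_of (klv hM)

end Pool.Agent.PD3K
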